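import Pool.Agent.LUV.Defs

/-! Project LUV: (C6) Artin-Schreier reduction in the algebra. -/

set_option autoImplicit false

namespace LUV

open Polynomial

variable {k : Type*} [Field k] {r : ℕ}

/-- No monomial of `P` is a `p`-th power (in particular no constant term). -/
def Reduced (p : ℕ) (P : A k r) : Prop := ∀ q ∈ P.coeff.support, ¬ ∃ q' : Ex r, q = p • q'

/-- The size of an exponent. -/
private def rsize (q : Ex r) : ℕ := (∑ i, (q.1 i).natAbs) + q.2

private theorem rsize_nsmul (n : ℕ) (q : Ex r) : rsize (n • q) = n * rsize q := by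
  simp only [rsize, Prod.smul_fst, Prod.smul_snd, Pi.smul_apply, smul_eq_mul, mul_add,
    Finset.mul_sum]
  congr 1
  refine Finset.sum_congr rfl fun i _ => ?_
  rw [nsmul_eq_mul, Int.natAbs_mul, Int.natAbs_natCast]

private theorem rsize_pos {q : Ex r} (h : q ≠ 0) : 0 < rsize q := by
  rw [Nat.pos_iff_ne_zero]
  intro h0
  apply h
  rw [rsize, Nat.add_eq_zero_iff, Finset.sum_eq_zero_iff] at h0
  refine Prod.ext (funext fun i => ?_) h0.2
  simpa using h0.1 i (Finset.mem_univ i)

private theorem charP_A (p : ℕ) [Fact p.Prime] [CharP k p] : CharP (A k r) p :=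
  charP_of_injective_algebraMap (algebraMap k (A k r)).injective p

private theorem red_mono [IsAlgClosed k] (p : ℕ) [hp : Fact p.Prime] [CharP k p] :
    ∀ (n : ℕ) (q : Ex r) (c : k), rsize q ≤ n →
    ∃ (q' : Ex r) (d : k) (H : A k r) (a : ℕ),
      (AddMonoidAlgebra.single q c : A k r) = AddMonoidAlgebra.single q' d + (H ^ p - H) ∧
      p ^ a • q' = q ∧ (d ≠ 0 → ¬ ∃ q'' : Ex r, q' = p • q'') ∧
      ((¬ ∃ q'' : Ex r, q = p • q'') → q' = q ∧ d = c) := by
  have : CharP (A k r) p := charP_A p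
  have hp0 : p ≠ 0 := hp.out.ne_zero
  intro n
  induction n with
  | zero =>
    intro q c hq
    have hq0 : q = 0 := by
      by_contra h
      exact absurd (rsize_pos h) (by omega)
    subst hq0
    obtain ⟨d, hd⟩ := IsAlgClosed.exists_root (X ^ p - X - C c : k[X]) (by
      rw [show (X ^ p - X - C c : k[X]) = X ^ p - (X + C c) by ring]
      have h1 : (X + C c : k[X]).degree < (X ^ p : k[X]).degree := by
        rw [degree_X_add_C, degree_X_pow]
        exact_mod_cast hp.out.one_lt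
      rw [degree_sub_eq_left_of_degree_lt h1, degree_X_pow]
      exact_mod_cast hp0)
    refine ⟨0, 0, AddMonoidAlgebra.single 0 d, 0, ?_, by simp, fun h => absurd rfl h,
      fun h => absurd ⟨0, by simp⟩ h⟩
    rw [AddMonoidAlgebra.single_pow, smul_zero, AddMonoidAlgebra.single_zero, zero_add,
      ← AddMonoidAlgebra.single_sub]
    congr 1
    simp only [IsRoot.def, eval_sub, eval_pow, eval_X, eval_C] at hd
    linear_combination -hd
  | succ n ih =>
    intro q c hq
    by_cases hq0 : q = 0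
    · exact ih q c (by rw [hq0]; simp [rsize])
    by_cases hdiv : ∃ q' : Ex r, q = p • q'
    · obtain ⟨q', rfl⟩ := hdiv
      have hq' : q' ≠ 0 := by
        rintro rfl
        exact hq0 (smul_zero _)
      obtain ⟨d, hd⟩ := IsAlgClosed.exists_pow_nat_eq c hp.out.pos
      have hlt : rsize q' ≤ n := by
        rw [rsize_nsmul] at hq
        have h1 := rsize_pos hq'
        have h2 := hp.out.two_le
        nlinarith
      obtain ⟨q'', e, H, a, h1, h2, h3, h4⟩ := ih q' d hlt
      refine ⟨q'', e, AddMonoidAlgebra.single q' d + H, a + 1, ?_, ?_, h3,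
        fun h => absurd ⟨q', rfl⟩ h⟩
      · rw [add_pow_char, AddMonoidAlgebra.single_pow, hd]
        linear_combination h1
      · rw [pow_succ', mul_smul, h2]
    · exact ⟨q, c, 0, 0, by simp [hp0], by simp, fun _ => hdiv, fun _ => ⟨rfl, rfl⟩⟩

/-- Artin-Schreier reduction. -/
theorem red [IsAlgClosed k] (p : ℕ) [Fact p.Prime] [CharP k p] (P : A k r) :
    ∃ P' H : A k r, P = P' + (H ^ p - H) ∧ Reduced p P' ∧
      (∀ q ∈ P'.coeff.support, ∃ a : ℕ, p ^ a • q ∈ P.coeff.support) ∧
      (∀ q : Ex r, (¬ ∃ q' : Ex r, q = p • q') →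
        (∀ a : ℕ, p ^ (a + 1) • q ∉ P.coeff.support) → P'.coeff q = P.coeff q) := by
  classical
  have : CharP (A k r) p := charP_A p
  have key : ∀ q : Ex r, ∃ (q' : Ex r) (d : k) (H : A k r) (a : ℕ),
      (AddMonoidAlgebra.single q (P.coeff q) : A k r) =
        AddMonoidAlgebra.single q' d + (H ^ p - H) ∧
      p ^ a • q' = q ∧ (d ≠ 0 → ¬ ∃ q'' : Ex r, q' = p • q'') ∧
      ((¬ ∃ q'' : Ex r, q = p • q'') → q' = q ∧ d = P.coeff q) :=
    fun q => red_mono p (rsize q) q (P.coeff q) le_rfl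
  choose Q D H a h1 h2 h3 h4 using key
  have hP : P = ∑ q ∈ P.coeff.support, AddMonoidAlgebra.single q (P.coeff q) :=
    (AddMonoidAlgebra.sum_coeff_single P).symm
  have hcoeff : ∀ q : Ex r, (∑ q₁ ∈ P.coeff.support,
      (AddMonoidAlgebra.single (Q q₁) (D q₁) : A k r)).coeff q =
        ∑ q₁ ∈ P.coeff.support, if Q q₁ = q then D q₁ else 0 := by
    intro q
    rw [AddMonoidAlgebra.coeff_sum, Finsupp.finsetSum_apply]
    exact Finset.sum_congr rfl fun q₁ _ => by
      rw [AddMonoidAlgebra.coeff_single, Finsupp.single_apply]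
  have hsupp : ∀ q ∈ (∑ q₁ ∈ P.coeff.support,
      (AddMonoidAlgebra.single (Q q₁) (D q₁) : A k r)).coeff.support,
      ∃ q₁ ∈ P.coeff.support, Q q₁ = q ∧ D q₁ ≠ 0 := by
    intro q hq
    rw [Finsupp.mem_support_iff, hcoeff] at hq
    obtain ⟨q₁, hq₁, hne⟩ := Finset.exists_ne_zero_of_sum_ne_zero hq
    by_cases hQ : Q q₁ = q
    · rw [if_pos hQ] at hne
      exact ⟨q₁, hq₁, hQ, hne⟩
    · rw [if_neg hQ] at hne
      exact absurd rfl hne
  refine ⟨∑ q ∈ P.coeff.support, AddMonoidAlgebra.single (Q q) (D q),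
    ∑ q ∈ P.coeff.support, H q, ?_, ?_, ?_, ?_⟩
  · rw [sum_pow_char, ← Finset.sum_sub_distrib, ← Finset.sum_add_distrib]
    conv_lhs => rw [hP]
    exact Finset.sum_congr rfl fun q _ => h1 q
  · intro q hq
    obtain ⟨q₁, -, hQ, hD⟩ := hsupp q hq
    rw [← hQ]
    exact h3 q₁ hD
  · intro q hq
    obtain ⟨q₁, hq₁, hQ, -⟩ := hsupp q hq
    refine ⟨a q₁, ?_⟩
    rw [← hQ, h2]
    exact hq₁
  · intro q hq hqa
    rw [hcoeff]
    have hother : ∀ q₁ ∈ P.coeff.support, q₁ ≠ q → Q q₁ ≠ q := by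
      intro q₁ hq₁ hne hQ
      have h := h2 q₁
      rw [hQ] at h
      cases ha : a q₁ with
      | zero =>
        rw [ha, pow_zero, one_smul] at h
        exact hne h.symm
      | succ b =>
        rw [ha] at h
        exact hqa b (by rw [h]; exact hq₁)
    obtain ⟨hQq, hDq⟩ := h4 q hq
    by_cases hmem : q ∈ P.coeff.support
    · rw [Finset.sum_eq_single_of_mem q hmem fun q₁ hq₁ hne => if_neg (hother q₁ hq₁ hne),
        if_pos hQq, hDq]
    · rw [Finsupp.notMem_support_iff.1 hmem]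
      exact Finset.sum_eq_zero fun q₁ hq₁ =>
        if_neg (hother q₁ hq₁ (by rintro rfl; exact hmem hq₁))

end LUV
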