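import Pool.Agent.LUV.Basic
import Pool.Agent.LUV.FDense
import Pool.Agent.LUV.Red
import Pool.Agent.LUV.AsSmall

/-! Project LUV: (S2) Artin-Schreier extensions of the toric field. -/

set_option autoImplicit false

namespace LUV

open Polynomial

variable {k : Type*} [Field k] {Ω : Type*} [NormedField Ω] [Algebra k Ω] [Big k Ω] {r : ℕ}

variable [IsAlgClosed k] (p : ℕ) [Fact p.Prime] [CharP k p]

/-- Artin-Schreier elements over `clF k u` in an immediate field are trivial. -/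
theorem as_base {u : Fin r → Ω} (hu : Base u) {L : IntermediateField k Ω}
    (huL : ∀ i, u i ∈ L) (hI : Imm u L) {z : Ω} (hz : z ∈ L) (h : z ^ p - z ∈ clF k u) :
    z ∈ clF k u := by
  have hp : p.Prime := Fact.out
  have hch : CharP Ω p := charP_of_injective_algebraMap (algebraMap k Ω).injective p
  obtain ⟨P, hP0, hPn⟩ := clF_dense (k := k) hu h (ε := 1) one_pos
  obtain ⟨P', H, hPH, hR, hsup, -⟩ := red p P
  have h0' : ∀ q ∈ P'.coeff.support, q.2 = 0 := by
    intro q hq
    obtain ⟨a, ha⟩ := hsup q hq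
    have h1 := hP0 _ ha
    have h2 : p ^ a * q.2 = 0 := by simpa using h1
    rcases Nat.mul_eq_zero.1 h2 with h3 | h3
    · exact absurd h3 (pow_ne_zero _ hp.ne_zero)
    · exact h3
  have hev : ev hu.ne 0 P = ev hu.ne 0 P' + (ev hu.ne 0 H ^ p - ev hu.ne 0 H) := by
    rw [hPH, map_add, map_sub, map_pow]
  have hHF : ev hu.ne 0 H ∈ clF k u := ev_mem hu.ne (u_mem_clF u) (zero_mem _) H
  have hHL : ev hu.ne 0 H ∈ L := ev_mem hu.ne huL (zero_mem _) H
  have hP'F : ev hu.ne 0 P' ∈ clF k u := ev_mem hu.ne (u_mem_clF u) (zero_mem _) P'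
  have hPF : ev hu.ne 0 P ∈ clF k u := ev_mem hu.ne (u_mem_clF u) (zero_mem _) P
  have hclosed : IsClosed ((clF k u : IntermediateField k Ω) : Set Ω) := cl_closed _
  -- the element `y = z - ev H`
  set y : Ω := z - ev hu.ne 0 H with hy
  have hyp : y ^ p - y = (z ^ p - z - ev hu.ne 0 P) + ev hu.ne 0 P' := by
    rw [hy, sub_pow_char, hev]; ring
  have hzy : y ∈ clF k u → z ∈ clF k u := by
    intro hyF
    have : z = y + ev hu.ne 0 H := by rw [hy]; ring
    rw [this]
    exact add_mem hyF hHF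
  have key : ‖ev hu.ne 0 P'‖ ≤ 1 → z ∈ clF k u := by
    intro hle
    have hmem : y ^ p - y ∈ clF k u := by
      rw [hyp]
      exact add_mem (sub_mem h hPF) hP'F
    have hn : ‖y ^ p - y‖ ≤ 1 := by
      rw [hyp]
      exact (Big.add_le k _ _).trans (max_le hPn.le hle)
    obtain ⟨e, he, hee⟩ := as_small (k := k) p (clF k u) hclosed hmem hn
    exact hzy (as_unique p he hee.symm)
  by_cases hP'0 : P' = 0
  · apply key
    rw [hP'0]
    simp
  obtain ⟨b, hb, hbn, -⟩ := norm_ev_zero hu P' hP'0 h0' 0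
  by_cases hle : ‖ev hu.ne 0 P'‖ ≤ 1
  · exact key hle
  exfalso
  push Not at hle
  have hn : ‖y ^ p - y‖ = ‖ev hu.ne 0 P'‖ := by
    apply Big.norm_eq k
    rw [hyp, add_sub_cancel_right]
    exact hPn.trans hle
  have hyn : ‖y‖ ^ p = ‖y ^ p - y‖ := norm_as k p rfl (by rw [hn]; exact hle)
  have hyL : y ∈ L := sub_mem hz hHL
  have hy0 : y ≠ 0 := by
    intro h0
    rw [hn, h0, norm_zero, zero_pow hp.ne_zero] at hyn
    rw [← hyn] at hle
    linarith
  obtain ⟨g, hg⟩ := hI y hyL hy0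
  have h1 : ‖mon u (p • g)‖ = ‖mon u b‖ := by
    rw [mon_nsmul, norm_pow, ← hg, hyn, hn, hbn]
  have h2 : wt u (p • g) = wt u b := by
    rw [norm_mon hu.ne, norm_mon hu.ne] at h1
    have := Real.exp_injective h1
    linarith
  have h3 : p • g = b := hu.inj h2
  apply hR _ hb
  refine ⟨(g, 0), ?_⟩
  rw [Prod.smul_mk, h3, smul_zero]

end LUV
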