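import Mathlib

/-! Project LUV: (C2) bounded sums. -/

set_option autoImplicit false

namespace LUV

open Polynomial

/-- sums of exactly `n` elements of `E` -/
def SE (E : Set ℝ) : ℕ → Set ℝ
  | 0 => {0}
  | n + 1 => {x | ∃ s ∈ SE E n, ∃ e ∈ E, x = s + e}

theorem SE_mono {E E' : Set ℝ} (h : E ⊆ E') : ∀ n, SE E n ⊆ SE E' n
  | 0 => fun _ hx => hx
  | n + 1 => fun _ ⟨s, hs, e, he, hx⟩ => ⟨s, SE_mono h n hs, e, h he, hx⟩

theorem SE_add {E : Set ℝ} {e : ℝ} (he : e ∈ E) {n : ℕ} {s : ℝ} (hs : s ∈ SE E n) :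
    ∀ d : ℕ, s + d * e ∈ SE E (n + d)
  | 0 => by simpa using hs
  | d + 1 => ⟨s + d * e, SE_add he hs d, e, he, by push_cast; ring⟩

theorem SE_scale {E E' : Set ℝ} (c : ℝ) (h : ∀ e ∈ E, e / c ∈ E') :
    ∀ (n : ℕ) (s : ℝ), s ∈ SE E n → s / c ∈ SE E' n
  | 0, s, hs => by
    have : s = 0 := hs
    rw [this, zero_div]; exact rfl
  | n + 1, s, ⟨t, ht, e, he, hx⟩ =>
    ⟨t / c, SE_scale c h n t ht, e / c, h e he, by rw [hx]; ring⟩

/-- (2b): bounded sums stay away from `0` on the negative side -/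
theorem gap {E : Set ℝ} (hpos : ∀ e ∈ E, 0 < e) (hfin : ∀ η : ℝ, 0 < η → {e ∈ E | η ≤ e}.Finite) :
    ∀ (D : ℕ) (K : Set ℝ), K.Finite → ∃ δ : ℝ, 0 < δ ∧ ∀ n ≤ D, ∀ k ∈ K, ∀ s ∈ SE E n,
      0 ≤ k + s ∨ k + s ≤ -δ := by
  intro D
  induction D with
  | zero =>
    intro K hK
    have h1 : ∃ δ : ℝ, 0 < δ ∧ ∀ k ∈ K, 0 ≤ k ∨ k ≤ -δ := by
      induction K, hK using Set.Finite.induction_on with
      | empty => exact ⟨1, one_pos, fun k hk => absurd hk (Set.notMem_empty k)⟩
      | @insert a K _ _ ih =>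
        obtain ⟨δ, hδ, h⟩ := ih
        by_cases ha : 0 ≤ a
        · refine ⟨δ, hδ, fun k hk => ?_⟩
          rcases hk with rfl | hk
          · exact Or.inl ha
          · exact h k hk
        · push Not at ha
          refine ⟨min δ (-a), lt_min hδ (by linarith), fun k hk => ?_⟩
          rcases hk with rfl | hk
          · right; have := min_le_right δ (-k); linarith
          · rcases h k hk with h1 | h1
            · exact Or.inl h1
            · right; have := min_le_left δ (-a); linarith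
    obtain ⟨δ, hδ, h⟩ := h1
    refine ⟨δ, hδ, fun n hn k hk s hs => ?_⟩
    obtain rfl : n = 0 := by omega
    have : s = 0 := hs
    rw [this, add_zero]; exact h k hk
  | succ D ih =>
    intro K hK
    obtain ⟨δ, hδ, h⟩ := ih K hK
    have hB := hfin (δ / 2) (by linarith)
    have hK' : (Set.image2 (fun k e => k + e) K {e ∈ E | δ / 2 ≤ e}).Finite :=
      Set.Finite.image2 _ hK hB
    obtain ⟨δ', hδ', h'⟩ := ih _ hK'
    refine ⟨min (δ / 2) δ', lt_min (by linarith) hδ', fun n hn k hk s hs => ?_⟩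
    have m1 := min_le_left (δ / 2) δ'
    have m2 := min_le_right (δ / 2) δ'
    rcases Nat.lt_or_ge n (D + 1) with hn' | hn'
    · rcases h n (by omega) k hk s hs with h1 | h1
      · exact Or.inl h1
      · right; linarith
    · obtain rfl : n = D + 1 := by omega
      obtain ⟨t, ht, e, he, rfl⟩ := hs
      by_cases hb : δ / 2 ≤ e
      · have h2 := h' D le_rfl (k + e) ⟨k, hk, e, ⟨he, hb⟩, rfl⟩ t ht
        have e1 : k + e + t = k + (t + e) := by ring
        rw [e1] at h2
        rcases h2 with h1 | h1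
        · exact Or.inl h1
        · right; linarith
      · push Not at hb
        have h3 := hpos e he
        rcases h D le_rfl k hk t ht with h1 | h1
        · left; linarith
        · right; linarith

/-- Sums of a bounded number of elements of a set `E` of positive reals (finitely many above every
`η > 0`), starting from a finite set `K0`, do not accumulate at `0` from below. -/
theorem bounded_sums (E : Set ℝ) (hpos : ∀ e ∈ E, 0 < e)
    (hfin : ∀ η : ℝ, 0 < η → {e ∈ E | η ≤ e}.Finite) (D : ℕ) (K0 : Set ℝ) (hK0 : K0.Finite) :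
    ∃ δ : ℝ, 0 < δ ∧ ∀ k0 ∈ K0, ∀ s : Multiset ℝ, (∀ e ∈ s, e ∈ E) → s.card ≤ D →
      0 ≤ k0 + s.sum ∨ k0 + s.sum ≤ -δ := by
  obtain ⟨δ, hδ, h⟩ := gap hpos hfin D K0 hK0
  refine ⟨δ, hδ, fun k0 hk0 s hs hcard => h s.card hcard k0 hk0 s.sum ?_⟩
  clear hcard
  induction s using Multiset.induction_on with
  | empty => simp [SE]
  | cons a s ih =>
    rw [Multiset.card_cons, Multiset.sum_cons, add_comm a]
    exact ⟨s.sum, ih fun e he => hs e (Multiset.mem_cons_of_mem he), a,
      hs a (Multiset.mem_cons_self a s), rfl⟩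

end LUV
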