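import Pool.Agent.LUV.Defs
import Pool.Agent.LUV.FinCone
import Pool.Agent.LUV.Kap

/-! Project LUV: (C3b) the cone lemma. -/

set_option autoImplicit false

namespace LUV

open Polynomial

/-- (2c), the cone lemma. `γ m = wt (g m)` is strictly increasing with the limit `γ`, the `S m` are
finite sets of monomials `(b, i)` (exponent `b`, degree `i`), `S (m + 1)` consists of roots (order
`p ^ e`, allowed for `e > 0` only if `wt bs + j γ ≤ 0`) of monomials of the recentering of `S m`,
all levels at `γ m` of `S m` are at least the level of `(bs, j)` and one monomial of a degree below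
`j` has this level, for all large `m`. This is impossible. -/
theorem cone_lemma {G : Type*} [AddCommGroup G] [Module.Finite ℤ G] (wt : G →+ ℝ) (p : ℕ)
    (hp : 2 ≤ p) (g : ℕ → G) (γ : ℝ) (hmono : ∀ m, wt (g m) < wt (g (m + 1)))
    (hlim : Filter.Tendsto (fun m => wt (g m)) Filter.atTop (nhds γ))
    (S : ℕ → Set (G × ℕ)) (m0 : ℕ) (hS : ∀ m, m0 ≤ m → (S m).Finite) (bs : G) (j : ℕ)
    (h1 : ∀ m, m0 ≤ m → ∀ q' ∈ S (m + 1), ∃ q ∈ S m, ∃ i' ≤ q.2, ∃ e : ℕ,
      (e = 0 ∨ wt bs + j * γ ≤ 0) ∧ (p ^ e) • q'.1 = q.1 + (q.2 - i') • g m ∧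
      p ^ e * q'.2 = i')
    (h2 : ∀ m, m0 ≤ m → ∀ q ∈ S m, wt bs + j * wt (g m) ≤ wt q.1 + q.2 * wt (g m))
    (h3 : ∀ m, m0 ≤ m → ∃ i, i < j ∧ (bs + (j - i) • g m, i) ∈ S m) : False := by
  classical
  set ω : ℝ := wt bs + j * γ with hω
  have hS0 := hS m0 le_rfl
  -- the defects
  set ε : ℕ → ℝ := fun m => γ - wt (g m) with hε
  have hsm : StrictMono (fun m => wt (g m)) := strictMono_nat_of_lt_succ hmono
  have hεpos : ∀ m, 0 < ε m := by
    intro m
    have h4 : wt (g (m + 1)) ≤ γ := hsm.monotone.ge_of_tendsto hlim (m + 1)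
    have := hmono m
    simp only [hε]; linarith
  have hεanti : ∀ m m', m < m' → ε m' < ε m := fun m m' h => by
    have := hsm h
    simp only [hε]; simp only at this; linarith
  have hεlim : Filter.Tendsto ε Filter.atTop (nhds 0) := by
    have := hlim.const_sub γ
    simpa [hε] using this
  set kap : G × ℕ → ℝ := fun q => wt bs - wt q.1 + ((j : ℝ) - q.2) * γ with hkap
  -- recentering
  have hrec : ∀ (m : ℕ) (q q'' : G × ℕ), q''.2 ≤ q.2 → q''.1 = q.1 + (q.2 - q''.2) • g m →
      kap q'' = kap q + ((q.2 - q''.2 : ℕ) : ℝ) * ε m := by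
    intro m q q'' hle he
    simp only [hkap, hε, he, map_add, map_nsmul, nsmul_eq_mul, Nat.cast_sub hle]
    ring
  -- roots
  have hroot : ∀ (e : ℕ) (q' q'' : G × ℕ), (p ^ e) • q'.1 = q''.1 → p ^ e * q'.2 = q''.2 →
      ((p ^ e : ℕ) : ℝ) * (kap q' - ω) = kap q'' - ω := by
    intro e q' q'' ha hb
    have h5 : wt q''.1 = ((p ^ e : ℕ) : ℝ) * wt q'.1 := by
      rw [← ha, map_nsmul, nsmul_eq_mul]
    have h6 : (q''.2 : ℝ) = ((p ^ e : ℕ) : ℝ) * q'.2 := by rw [← hb]; push_cast; ring
    simp only [hkap, hω, h5, h6]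
    ring
  have hpe : ∀ e : ℕ, (0 : ℝ) < ((p ^ e : ℕ) : ℝ) := fun e => by
    have : 0 < p ^ e := Nat.pow_pos (by omega)
    exact_mod_cast this
  obtain ⟨⟨δ, hδ, hgap⟩, D, hdeg⟩ := kap_gap wt p hp g γ hmono hlim S m0 hS0 bs j h1
  -- unfolding of `h1`
  have h1' : ∀ m, m0 ≤ m → ∀ q' ∈ S (m + 1), ∃ q ∈ S m, ∃ q'' : G × ℕ, ∃ e : ℕ,
      q''.2 ≤ q.2 ∧ q''.1 = q.1 + (q.2 - q''.2) • g m ∧ (e = 0 ∨ ω ≤ 0) ∧
      (p ^ e) • q'.1 = q''.1 ∧ p ^ e * q'.2 = q''.2 := by
    intro m hm q' hq'
    obtain ⟨q, hq, i', hi', e, he, ha, hb⟩ := h1 m hm q' hq'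
    exact ⟨q, hq, (q.1 + (q.2 - i') • g m, i'), e, hi', rfl, he, ha, hb⟩
  -- a large stage
  have hεle : ∀ m m', m ≤ m' → ε m' ≤ ε m := fun m m' h => by
    rcases h.eq_or_lt with rfl | h
    · exact le_rfl
    · exact (hεanti m m' h).le
  obtain ⟨m2, hm2, hA, hB⟩ : ∃ m2, m0 ≤ m2 ∧ (D : ℝ) * ε m2 < δ ∧
      (ω < 0 → (j : ℝ) * ε m2 < ((p : ℝ) - 1) * (-ω)) := by
    have e1 : ∀ᶠ m in Filter.atTop, (D : ℝ) * ε m < δ := by
      have := hεlim.const_mul (D : ℝ)
      rw [mul_zero] at this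
      exact this.eventually (gt_mem_nhds hδ)
    have e2 : ∀ᶠ m in Filter.atTop, (ω < 0 → (j : ℝ) * ε m < ((p : ℝ) - 1) * (-ω)) := by
      by_cases hω0 : ω < 0
      · have h5 : (0 : ℝ) < ((p : ℝ) - 1) * (-ω) := by
          have : (2 : ℝ) ≤ p := by exact_mod_cast hp
          exact mul_pos (by linarith) (by linarith)
        have := hεlim.const_mul (j : ℝ)
        rw [mul_zero] at this
        filter_upwards [this.eventually (gt_mem_nhds h5)] with m hm _ using hm
      · exact Filter.Eventually.of_forall fun m h => absurd h hω0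
    obtain ⟨m2, h5, h6⟩ := ((e1.and e2).and (Filter.eventually_ge_atTop m0)).exists
    exact ⟨m2, h6, h5.1, h5.2⟩
  set Sg : Set ℝ := {x | ∃ q ∈ S m2, x = kap q ∧ 0 < x} with hSg
  -- one monomial below the top
  have hlow : ∀ m, m0 ≤ m → ∃ q ∈ S m, ∃ n : ℕ, 0 < n ∧ kap q = (n : ℝ) * ε m := by
    intro m hm
    obtain ⟨i, hi, hq⟩ := h3 m hm
    refine ⟨_, hq, j - i, by omega, ?_⟩
    simp only [hkap, hε, map_add, map_nsmul, nsmul_eq_mul, Nat.cast_sub hi.le]
    ring
  have hmain : ∀ m, m2 ≤ m → (∀ q ∈ S m, 0 ≤ kap q → kap q ∈ rcone Sg) ∧ ε m ∈ rcone Sg := by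
    intro m hm
    have hfin : ∀ m, m2 ≤ m → (∀ q ∈ S m, 0 ≤ kap q → kap q ∈ rcone Sg) → ε m ∈ rcone Sg := by
      intro m hm h
      obtain ⟨q, hq, n, hn, hk⟩ := hlow m (hm2.trans hm)
      have h5 := h q hq (by rw [hk]; exact mul_nonneg (Nat.cast_nonneg _) (hεpos m).le)
      rw [hk] at h5
      exact cone_div n hn h5
    induction m, hm using Nat.le_induction with
    | base =>
      have h5 : ∀ q ∈ S m2, 0 ≤ kap q → kap q ∈ rcone Sg := by
        intro q hq h0
        rcases h0.eq_or_lt with h6 | h6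
        · rw [← h6]; exact cone_zero _
        · exact cone_of ⟨q, hq, rfl, h6⟩
      exact ⟨h5, hfin m2 le_rfl h5⟩
    | succ m hm ih =>
      have h5 : ∀ q ∈ S (m + 1), 0 ≤ kap q → kap q ∈ rcone Sg := by
        intro q' hq' h0
        obtain ⟨q, hq, q'', e, hle, hb, hroots, hr1, hr2⟩ := h1' m (hm2.trans hm) q' hq'
        have k1 := hroot e q' q'' hr1 hr2
        have k2 := hrec m q q'' hle hb
        have k3 := hpe e
        -- the level of the recentered monomial
        have k4 : kap q'' ≤ (j : ℝ) * ε m := by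
          have k5 := h2 m (hm2.trans hm) q hq
          have k6 : kap q'' = (wt bs + j * wt (g m)) - (wt q.1 + q.2 * wt (g m)) +
              ((j : ℝ) - q''.2) * ε m := by
            simp only [hkap, hε, hb, map_add, map_nsmul, nsmul_eq_mul, Nat.cast_sub hle]
            ring
          have k7 : 0 ≤ (q''.2 : ℝ) * ε m := mul_nonneg (Nat.cast_nonneg _) (hεpos m).le
          rw [k6]; nlinarith
        have hpe1 : 1 ≤ p ^ e := Nat.pow_pos (by omega)
        have hpe1' : (1 : ℝ) ≤ ((p ^ e : ℕ) : ℝ) := by exact_mod_cast hpe1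
        -- the recentered defect is non-negative
        have k8 : 0 ≤ kap q'' := by
          rcases hroots with rfl | hω0
          · simp only [pow_zero, Nat.cast_one, one_mul] at k1
            linarith
          · have : kap q'' = ((p ^ e : ℕ) : ℝ) * kap q' + (1 - ((p ^ e : ℕ) : ℝ)) * ω := by
              linarith
            rw [this]
            have a1 : 0 ≤ ((p ^ e : ℕ) : ℝ) * kap q' := mul_nonneg k3.le h0
            have a2 : 0 ≤ (1 - ((p ^ e : ℕ) : ℝ)) * ω :=
              mul_nonneg_of_nonpos_of_nonpos (by linarith) hω0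
            linarith
        -- the defect is non-negative
        have k9 : 0 ≤ kap q := by
          rcases Nat.eq_zero_or_pos q.2 with hz | hpos
          · have : q.2 - q''.2 = 0 := by omega
            rw [this, Nat.cast_zero, zero_mul, add_zero] at k2
            rw [← k2]; exact k8
          · rcases hgap m (hm2.trans hm) q hq hpos with h | h
            · exact h
            · exfalso
              have a1 : ((q.2 - q''.2 : ℕ) : ℝ) ≤ D := by
                have := hdeg m (hm2.trans hm) q hq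
                exact_mod_cast (Nat.sub_le _ _).trans this
              have a2 : ((q.2 - q''.2 : ℕ) : ℝ) * ε m ≤ D * ε m2 :=
                mul_le_mul a1 (hεle m2 m hm) (hεpos m).le (Nat.cast_nonneg _)
              linarith
        have k10 : kap q'' ∈ rcone Sg := by
          rw [k2]; exact cone_add (ih.1 q hq k9) (cone_nmul ih.2 _)
        rcases Nat.eq_zero_or_pos e with rfl | he
        · have : kap q' = kap q'' := by
            simp only [pow_zero, Nat.cast_one, one_mul] at k1; linarith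
          rw [this]; exact k10
        · have hω0 : ω ≤ 0 := by
            rcases hroots with h | h
            · omega
            · exact h
          rcases hω0.lt_or_eq with hneg | hz
          · exfalso
            have a1 := hB hneg
            have a2 : (j : ℝ) * ε m ≤ (j : ℝ) * ε m2 :=
              mul_le_mul_of_nonneg_left (hεle m2 m hm) (Nat.cast_nonneg _)
            have a3 : (p : ℝ) ≤ ((p ^ e : ℕ) : ℝ) := by
              exact_mod_cast Nat.le_self_pow (by omega) p
            have a4 : ((p : ℝ) - 1) * (-ω) ≤ (((p ^ e : ℕ) : ℝ) - 1) * (-ω) :=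
              mul_le_mul_of_nonneg_right (by linarith) (by linarith)
            have a5 : ((p ^ e : ℕ) : ℝ) * kap q' = kap q'' + (((p ^ e : ℕ) : ℝ) - 1) * ω := by
              linarith
            have a6 : 0 ≤ ((p ^ e : ℕ) : ℝ) * kap q' := mul_nonneg k3.le h0
            linarith
          · apply cone_div (p ^ e) (by omega)
            rw [hz, sub_zero, sub_zero] at k1
            rw [k1]; exact k10
      exact ⟨h5, hfin (m + 1) (by omega) h5⟩
  -- the finitely generated group
  let φ : (G × ℤ) →+ ℝ := wt.coprod ((AddMonoidHom.mulRight γ).comp (Int.castAddHom ℝ))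
  have hφ : ∀ x : G × ℤ, φ x = wt x.1 + x.2 * γ := fun x => rfl
  have : Module.Finite ℤ φ.range :=
    Module.Finite.of_surjective φ.rangeRestrict.toIntLinearMap φ.rangeRestrict_surjective
  have hfinal := cone_finite φ.range Sg
    (((hS m2 hm2).image kap).subset (by rintro x ⟨q, hq, rfl, _⟩; exact ⟨q, hq, rfl⟩))
    (by rintro x ⟨q, _, _, h⟩; exact h)
    (by
      rintro x ⟨q, _, rfl, _⟩
      refine ⟨(bs - q.1, (j : ℤ) - q.2), ?_⟩
      rw [hφ]
      simp only [hkap, map_sub]
      push_cast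
      ring)
    (ε m2)
  refine Set.infinite_of_injective_forall_mem (f := fun n => ε (m2 + n)) ?_ (fun n => ?_) hfinal
  · intro a b hab
    simp only at hab
    rcases lt_trichotomy a b with h | h | h
    · have := hεanti (m2 + a) (m2 + b) (by omega); linarith
    · exact h
    · have := hεanti (m2 + b) (m2 + a) (by omega); linarith
  · refine ⟨⟨(-g (m2 + n), 1), ?_⟩, (hmain (m2 + n) (by omega)).2, hεle m2 (m2 + n) (by omega)⟩
    rw [hφ]
    simp only [hε, map_neg]
    push_cast
    ring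

/-- The cone lemma. -/
theorem cone_main {r : ℕ} (wt : G r →+ ℝ) (p : ℕ) (hp : 2 ≤ p) (g : ℕ → G r)
    (hmono : StrictMono fun m => wt (g m)) (γ : ℝ)
    (hlim : Filter.Tendsto (fun m => wt (g m)) Filter.atTop (nhds γ)) (bs : G r) (j : ℕ)
    (S : ℕ → Finset (Ex r))
    (hstep : ∀ m, ∀ q' ∈ S (m + 1), ∃ q ∈ S m, IsStep wt p (g m) γ bs j q q')
    (hlev : ∀ m, ∀ q ∈ S m, wt bs + j * wt (g m) ≤ lev wt (wt (g m)) q)
    (hbelow : ∀ m, ∃ i < j, (bs + (j - i) • g m, i) ∈ S m) : False :=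
  cone_lemma wt p hp g γ (fun m => hmono (Nat.lt_succ_self m)) hlim
    (fun m => (S m : Set (Ex r))) 0 (fun m _ => (S m).finite_toSet) bs j
    (fun m _ q' hq' => by
      obtain ⟨q, hq, hs⟩ := hstep m q' hq'
      exact ⟨q, hq, isStep_unfold hs⟩)
    (fun m _ q hq => hlev m q hq) (fun m _ => hbelow m)

/-- The cone lemma. -/
theorem cone {r : ℕ} (wt : G r →+ ℝ) (p : ℕ) (hp : 2 ≤ p) (g : ℕ → G r)
    (hmono : StrictMono fun m => wt (g m)) (γ : ℝ)
    (hlim : Filter.Tendsto (fun m => wt (g m)) Filter.atTop (nhds γ)) (bs : G r) (j : ℕ)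
    (hj : 1 ≤ j) (S : ℕ → Finset (Ex r))
    (hstep : ∀ m, ∀ q' ∈ S (m + 1), ∃ q ∈ S m, IsStep wt p (g m) γ bs j q q')
    (hlev : ∀ m, ∀ q ∈ S m, wt bs + j * wt (g m) ≤ lev wt (wt (g m)) q)
    (hbelow : ∀ m, ∃ i < j, (bs + (j - i) • g m, i) ∈ S m) : False :=
  cone_main wt p hp g hmono γ hlim bs j S hstep hlev hbelow

end LUV
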