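import Pool.Agent.LUV.Defs

/-! Project LUV: (C4) stabilization of the leading forms (pure combinatorics). -/

set_option autoImplicit false

namespace LUV

open Polynomial

private theorem Stab_wt_sub {r : ℕ} (wt : G r →+ ℝ) (g b : G r) (j : ℕ) :
    wt (b - j • g) = wt b - (j : ℝ) * wt g := by
  rw [map_sub, map_nsmul, nsmul_eq_mul]

/-- The level of the top monomial in terms of the weight of `b`. -/
private theorem Stab_lev_top {r : ℕ} (wt : G r →+ ℝ) (g b : G r) (j : ℕ) (s : ℝ) :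
    lev wt s (b - j • g, j) = wt b + (j : ℝ) * (s - wt g) := by
  rw [lev, Stab_wt_sub]
  ring

/-- Stabilization of the top monomial `(b m - j m • g m, j m)` of the leading forms. -/
theorem stab {r : ℕ} (wt : G r →+ ℝ) (hinj : Function.Injective wt) (g : ℕ → G r)
    (hmono : StrictMono fun m => wt (g m)) (S : ℕ → Finset (Ex r)) (b : ℕ → G r) (j : ℕ → ℕ)
    (hmem : ∀ m, (b m - j m • g m, j m) ∈ S m)
    (hmin : ∀ m, ∀ q ∈ S m, wt (b m) ≤ lev wt (wt (g m)) q)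
    (h1 : ∀ m, ∀ q ∈ S (m + 1), wt (b m) ≤ lev wt (wt (g m)) q)
    (h2 : ∀ m, ∀ q ∈ S (m + 1), lev wt (wt (g m)) q = wt (b m) → q.2 ≤ j m)
    (h3 : ∀ m, (b m - j m • g m, j m) ∈ S (m + 1)) :
    Antitone j ∧ ∃ (m0 : ℕ) (bs : G r) (J : ℕ), ∀ m ≥ m0, j m = J ∧ b m = bs + J • g m ∧
      ∀ q ∈ S (m + 1), q.2 < J → wt (b m) < lev wt (wt (g m)) q := by
  have hlt : ∀ m, wt (g m) < wt (g (m + 1)) := fun m => hmono (Nat.lt_succ_self m)
  have hA : Antitone j := by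
    refine antitone_nat_of_succ_le fun m => ?_
    by_contra hc
    have hc' : j m < j (m + 1) := not_le.1 hc
    have e1 := h1 m _ (hmem (m + 1))
    have e2 : lev wt (wt (g m)) (b (m + 1) - j (m + 1) • g (m + 1), j (m + 1)) ≠ wt (b m) :=
      fun he => hc (h2 m _ (hmem (m + 1)) he)
    have e3 := lt_of_le_of_ne e1 (Ne.symm e2)
    have e4 := hmin (m + 1) _ (h3 m)
    rw [Stab_lev_top] at e3 e4
    have hw := hlt m
    have hj : (j m : ℝ) + 1 ≤ (j (m + 1) : ℝ) := by exact_mod_cast hc'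
    nlinarith [mul_pos (sub_pos.2 hw) (sub_pos.2 (lt_of_lt_of_le (lt_add_one (j m : ℝ)) hj))]
  refine ⟨hA, ?_⟩
  obtain ⟨m0, hm0⟩ : ∃ m0, ∀ m, j m0 ≤ j m := by
    obtain ⟨m0, hm0⟩ := WellFounded.has_min (wellFounded_lt (α := ℕ)) (Set.range j) ⟨j 0, 0, rfl⟩
    obtain ⟨⟨m1, rfl⟩, h⟩ := hm0
    exact ⟨m1, fun m => not_lt.1 (h (j m) ⟨m, rfl⟩)⟩
  have hJ : ∀ m ≥ m0, j m = j m0 := fun m hm => le_antisymm (hA hm) (hm0 m)
  have hstep : ∀ m ≥ m0, b (m + 1) - j m0 • g (m + 1) = b m - j m0 • g m := by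
    intro m hm
    have e1 := hmin (m + 1) _ (h3 m)
    have e2 := h1 m _ (hmem (m + 1))
    rw [Stab_lev_top] at e1 e2
    rw [hJ m hm] at e1
    rw [hJ (m + 1) (by omega)] at e2
    apply hinj
    rw [Stab_wt_sub, Stab_wt_sub]
    apply le_antisymm
    · linarith
    · linarith
  have hb : ∀ m ≥ m0, b m - j m0 • g m = b m0 - j m0 • g m0 := by
    intro m hm
    induction m, hm using Nat.le_induction with
    | base => rfl
    | succ m hm ih => rw [hstep m hm, ih]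
  refine ⟨m0, b m0 - j m0 • g m0, j m0, fun m hm => ⟨hJ m hm, ?_, ?_⟩⟩
  · rw [← hb m hm, sub_add_cancel]
  · intro q hq hqJ
    have e1 := hmin (m + 1) q hq
    have e2 := hstep m hm
    have e3 : wt (b (m + 1)) = wt (b m) + (j m0 : ℝ) * (wt (g (m + 1)) - wt (g m)) := by
      have := congrArg wt e2
      rw [Stab_wt_sub, Stab_wt_sub] at this
      linarith
    rw [e3] at e1
    unfold lev at e1 ⊢
    have hw := hlt m
    have hq' : (q.2 : ℝ) + 1 ≤ (j m0 : ℝ) := by exact_mod_cast hqJ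
    nlinarith [mul_pos (sub_pos.2 hw) (sub_pos.2 (lt_of_lt_of_le (lt_add_one (q.2 : ℝ)) hq'))]

end LUV
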