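import Mathlib

/-! Project LUV: (G5) Artin-Schreier generators. -/

set_option autoImplicit false

namespace LUV

open Polynomial

/-- Artin-Schreier: cyclic extensions of degree `p` in characteristic `p`. -/
theorem as_gen {M E : Type*} [Field M] [Field E] [Algebra M E] (p : ℕ) [Fact p.Prime]
    [CharP M p] [FiniteDimensional M E] [IsGalois M E] (h : Module.finrank M E = p) :
    ∃ z : E, (∃ f : M, z ^ p - z = algebraMap M E f) ∧ IntermediateField.adjoin M {z} = ⊤ := by
  classical
  have hp : p.Prime := Fact.out
  have hE : CharP E p := charP_of_injective_algebraMap (algebraMap M E).injective p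
  have hcard : Nat.card (E ≃ₐ[M] E) = p := by rw [IsGalois.card_aut_eq_finrank, h]
  have hcyc : IsCyclic (E ≃ₐ[M] E) := isCyclic_of_prime_card hcard
  obtain ⟨σ, hσ⟩ := hcyc.exists_generator
  have hord : orderOf σ = p := by rw [orderOf_eq_card_of_forall_mem_zpowers hσ, hcard]
  have hσp : σ ^ p = 1 := by rw [← hord]; exact pow_orderOf_eq_one σ
  obtain ⟨w, hw⟩ := Algebra.trace_surjective M E 1
  let a : ℕ → E := fun i => (σ ^ i) w
  have ha : ∀ i, σ (a i) = a (i + 1) := by
    intro i
    change σ ((σ ^ i) w) = (σ ^ (i + 1)) w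
    rw [pow_succ']
    rfl
  have hap : a p = a 0 := by
    change (σ ^ p) w = (σ ^ 0) w
    rw [hσp, pow_zero]
  have hsum : ∑ i ∈ Finset.range p, a i = 1 := by
    have h1 := trace_eq_sum_automorphisms (K := M) (L := E) w
    rw [hw, map_one] at h1
    rw [h1]
    have h2 : Finset.image (fun i => σ ^ i) (Finset.range p) = Finset.univ := by
      rw [← hord]
      exact IsCyclic.image_range_orderOf hσ
    rw [← h2, Finset.sum_image]
    intro i hi j hj hij
    have h3 := pow_injOn_Iio_orderOf (x := σ)
    rw [hord] at h3
    exact h3 (by simpa using hi) (by simpa using hj) hij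
  let z : E := -∑ i ∈ Finset.range p, (i : E) * a i
  have hz : σ z = z + 1 := by
    have h1 : σ z = -∑ i ∈ Finset.range p, (i : E) * a (i + 1) := by
      change σ (-∑ i ∈ Finset.range p, (i : E) * a i) = _
      rw [map_neg, map_sum]
      congr 1
      apply Finset.sum_congr rfl
      intro i _
      rw [map_mul, map_natCast, ha]
    have h2 : ∑ i ∈ Finset.range p, ((i : E) + 1) * a (i + 1) =
        ∑ i ∈ Finset.range p, (i : E) * a i := by
      have h3 := Finset.sum_range_succ' (fun i => (i : E) * a i) p
      have h4 := Finset.sum_range_succ (fun i => (i : E) * a i) p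
      rw [h4] at h3
      have h5 : (p : E) = 0 := CharP.cast_eq_zero E p
      simp only [Nat.cast_zero, zero_mul, add_zero, Nat.cast_add, Nat.cast_one, h5] at h3
      exact h3.symm
    have h6 : ∑ i ∈ Finset.range p, a (i + 1) = 1 := by
      have h3 := Finset.sum_range_succ' a p
      have h4 := Finset.sum_range_succ a p
      rw [h4, hsum, hap] at h3
      exact (add_right_cancel h3).symm
    have h7 : ∑ i ∈ Finset.range p, ((i : E) + 1) * a (i + 1) =
        ∑ i ∈ Finset.range p, (i : E) * a (i + 1) + ∑ i ∈ Finset.range p, a (i + 1) := by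
      rw [← Finset.sum_add_distrib]
      apply Finset.sum_congr rfl
      intro i _
      ring
    rw [h2, h6] at h7
    rw [h1]
    change _ = -∑ i ∈ Finset.range p, (i : E) * a i + 1
    rw [h7]
    ring
  refine ⟨z, ?_, ?_⟩
  · have hfix : σ (z ^ p - z) = z ^ p - z := by
      rw [map_sub, map_pow, hz, add_pow_char, one_pow]
      ring
    have hall : ∀ τ : E ≃ₐ[M] E, τ (z ^ p - z) = z ^ p - z := by
      intro τ
      have h1 : τ ∈ MulAction.stabilizer (E ≃ₐ[M] E) (z ^ p - z) := by
        have h2 : Subgroup.zpowers σ ≤ MulAction.stabilizer (E ≃ₐ[M] E) (z ^ p - z) := by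
          rw [Subgroup.zpowers_le]
          exact hfix
        exact h2 (hσ τ)
      exact h1
    obtain ⟨f, hf⟩ := (IsGalois.mem_range_algebraMap_iff_fixed (z ^ p - z)).2 hall
    exact ⟨f, hf.symm⟩
  · have hs := IntermediateField.isSimpleOrder_of_finrank_prime M E (by rw [h]; exact hp)
    rcases hs.eq_bot_or_eq_top (IntermediateField.adjoin M {z}) with h1 | h1
    · exfalso
      have h2 : z ∈ (⊥ : IntermediateField M E) := by
        rw [← h1]
        exact IntermediateField.mem_adjoin_simple_self M z
      obtain ⟨y, hy⟩ := IntermediateField.mem_bot.1 h2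
      rw [← hy, AlgEquiv.commutes] at hz
      have h3 : (1 : E) = 0 := by
        have h4 : algebraMap M E y + 0 = algebraMap M E y + 1 := by rw [add_zero]; exact hz
        exact (add_left_cancel h4).symm
      exact one_ne_zero h3
    · exact h1

end LUV
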