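import Pool.Agent.LUV.Basic
import Pool.Agent.LUV.Hensel

/-! Project LUV: (S3) the case of a dominating linear term. -/

set_option autoImplicit false

namespace LUV

open Polynomial

variable {k : Type*} [Field k] {Ω : Type*} [NormedField Ω] [Algebra k Ω] [Big k Ω] {r : ℕ}

private theorem as_three_sum_lt (k : Type*) [Field k] {Ω : Type*} [NormedField Ω] [Algebra k Ω]
    [Big k Ω] {ι : Type*} (s : Finset ι) (f : ι → Ω) {B : ℝ} (hB : 0 < B)
    (h : ∀ i ∈ s, ‖f i‖ < B) : ‖∑ i ∈ s, f i‖ < B := by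
  classical
  induction s using Finset.induction_on with
  | empty => simpa using hB
  | insert a s ha ih =>
    rw [Finset.sum_insert ha]
    exact (Big.add_le k _ _).trans_lt (max_lt (h a (Finset.mem_insert_self _ _))
      (ih fun i hi => h i (Finset.mem_insert_of_mem hi)))

private theorem as_three_coeff (u : Fin r → Ω) (R : A k r) (i : ℕ) :
    (toPoly u R).coeff i =
      ∑ q ∈ R.coeff.support with q.2 = i, algebraMap k Ω (R.coeff q) * mon u q.1 := by
  rw [toPoly, Polynomial.finsetSum_coeff, Finset.sum_filter]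
  refine Finset.sum_congr rfl fun q _ => ?_
  rw [Polynomial.coeff_monomial]

/-- The third case of the Artin-Schreier step: a polynomial of `A k r` with dominating linear term. -/
theorem as_three {u : Fin r → Ω} (hu : Base u) (R : A k r) (g : G r) (b : G r)
    (hb : (b, 1) ∈ R.coeff.support)
    (h1 : ∀ q ∈ R.coeff.support, lev (wt u) (wt u g) (b, 1) ≤ lev (wt u) (wt u g) q)
    (h2 : ∀ q ∈ R.coeff.support, 2 ≤ q.2 →
      lev (wt u) (wt u g) (b, 1) < lev (wt u) (wt u g) q)
    {N : IntermediateField k Ω} (hN : IsClosed (N : Set Ω)) (huN : ∀ i, u i ∈ N) {x f : Ω}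
    (hx : ‖x‖ = ‖mon u g‖) (hf : f ∈ N) (h : ev hu.ne x R = f) : x ∈ N := by
  classical
  have hbpos : 0 < ‖mon u b‖ := norm_pos_iff.2 (mon_ne hu.ne b)
  have hgpos : 0 < ‖mon u g‖ := norm_pos_iff.2 (mon_ne hu.ne g)
  have hRb : R.coeff (b, 1) ≠ 0 := Finsupp.mem_support_iff.1 hb
  -- the linear coefficient
  have hc1 : ‖(toPoly u R).coeff 1‖ = ‖mon u b‖ := by
    have hmem : ((b, 1) : Ex r) ∈ R.coeff.support.filter (fun q => q.2 = 1) :=
      Finset.mem_filter.2 ⟨hb, rfl⟩
    have hmain : ‖algebraMap k Ω (R.coeff (b, 1)) * mon u b‖ = ‖mon u b‖ := by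
      rw [norm_mul, Big.norm_k _ hRb, one_mul]
    rw [← hmain]
    apply Big.norm_eq k
    rw [hmain, as_three_coeff, ← Finset.add_sum_erase _ _ hmem]
    rw [show algebraMap k Ω (R.coeff (b, 1)) * mon u ((b, 1) : Ex r).1 +
        ∑ q ∈ (R.coeff.support.filter (fun q => q.2 = 1)).erase (b, 1),
          algebraMap k Ω (R.coeff q) * mon u q.1 - algebraMap k Ω (R.coeff (b, 1)) * mon u b =
        ∑ q ∈ (R.coeff.support.filter (fun q => q.2 = 1)).erase (b, 1),
          algebraMap k Ω (R.coeff q) * mon u q.1 from by ring]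
    refine as_three_sum_lt k _ _ hbpos fun q hq => ?_
    obtain ⟨hqne, hq'⟩ := Finset.mem_erase.1 hq
    obtain ⟨hqs, hq1⟩ := Finset.mem_filter.1 hq'
    have hne : q.1 ≠ b := fun hh => hqne (Prod.ext hh hq1)
    have hle : wt u b ≤ wt u q.1 := by
      have := h1 q hqs
      simp only [lev, hq1, Nat.cast_one, one_mul] at this
      linarith
    have hlt : wt u b < wt u q.1 := lt_of_le_of_ne hle fun hh => hne (hu.inj hh).symm
    calc ‖algebraMap k Ω (R.coeff q) * mon u q.1‖
        = ‖algebraMap k Ω (R.coeff q)‖ * ‖mon u q.1‖ := norm_mul _ _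
      _ ≤ 1 * ‖mon u q.1‖ :=
          mul_le_mul_of_nonneg_right (Big.norm_c_le k _) (norm_nonneg _)
      _ = ‖mon u q.1‖ := one_mul _
      _ < ‖mon u b‖ := (norm_mon_lt hu.ne).2 hlt
  -- the higher coefficients
  have hci : ∀ i, 2 ≤ i → ‖(toPoly u R).coeff i‖ * ‖x‖ ^ (i - 1) < ‖mon u b‖ := by
    intro i hi
    rw [hx]
    have hpw : 0 < ‖mon u g‖ ^ (i - 1) := pow_pos hgpos _
    rw [← lt_div_iff₀ hpw, as_three_coeff]
    refine as_three_sum_lt k _ _ (div_pos hbpos hpw) fun q hq => ?_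
    obtain ⟨hqs, hqi⟩ := Finset.mem_filter.1 hq
    have hlt := h2 q hqs (by rw [hqi]; exact hi)
    have h3 : ‖mon u q.1‖ < ‖mon u b‖ / ‖mon u g‖ ^ (i - 1) := by
      rw [lt_div_iff₀ hpw, norm_mon hu.ne, norm_mon hu.ne, norm_mon hu.ne, ← Real.exp_nat_mul,
        ← Real.exp_add, Real.exp_lt_exp]
      simp only [lev, hqi, Nat.cast_one, one_mul] at hlt
      have h4 : ((i - 1 : ℕ) : ℝ) = (i : ℝ) - 1 := by
        rw [Nat.cast_sub (by omega), Nat.cast_one]
      rw [h4]
      nlinarith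
    calc ‖algebraMap k Ω (R.coeff q) * mon u q.1‖
        = ‖algebraMap k Ω (R.coeff q)‖ * ‖mon u q.1‖ := norm_mul _ _
      _ ≤ 1 * ‖mon u q.1‖ :=
          mul_le_mul_of_nonneg_right (Big.norm_c_le k _) (norm_nonneg _)
      _ = ‖mon u q.1‖ := one_mul _
      _ < _ := h3
  -- Hensel
  have hΦi : ∀ i, 1 ≤ i → (toPoly u R - C f).coeff i = (toPoly u R).coeff i := by
    intro i hi
    rw [Polynomial.coeff_sub, Polynomial.coeff_C, if_neg (by omega), sub_zero]
  have hev : (toPoly u R - C f).eval x = 0 := by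
    rw [Polynomial.eval_sub, Polynomial.eval_C, eval_toPoly hu.ne, h, sub_self]
  obtain ⟨x', hx'N, -, -, hx'⟩ := hensel N hN (toPoly u R - C f)
    (fun i => by
      rw [Polynomial.coeff_sub, Polynomial.coeff_C]
      refine sub_mem (coeff_toPoly_mem huN R i) ?_
      split_ifs
      · exact hf
      · exact zero_mem _)
    ‖x‖ (by rw [hx]; exact hgpos)
    (by
      rw [hΦi 1 le_rfl, ← norm_pos_iff, hc1]
      exact hbpos)
    (fun i hi => by
      rw [hΦi 1 le_rfl, hΦi i (by omega), hc1]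
      exact hci i hi)
    x le_rfl
    (by
      rw [hev, norm_zero]
      exact mul_nonneg (norm_nonneg _) (norm_nonneg _))
  rw [hev, norm_zero, hΦi 1 le_rfl, hc1] at hx'
  have h5 : x - x' = 0 := by
    rcases mul_eq_zero.1 hx' with h6 | h6
    · exact norm_eq_zero.1 h6
    · exact absurd h6 hbpos.ne'
  rw [sub_eq_zero.1 h5]
  exact hx'N

end LUV
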