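import Pool.Agent.LUV.Basic
import Pool.Agent.LUV.FDense

/-! Project LUV: (A3) existence of expansions. -/

set_option autoImplicit false

namespace LUV

open Polynomial

variable {k : Type*} [Field k] {Ω : Type*} [NormedField Ω] [Algebra k Ω] [Big k Ω] {r : ℕ}

omit [Big k Ω] in
private theorem ev_mono_zero {u : Fin r → Ω} (hu : ∀ i, u i ≠ 0) (b : G r) (c : k) :
    ev hu 0 (mono b 0 c) = algebraMap k Ω c * mon u b := by
  rw [ev_mono, pow_zero, mul_one]

private theorem supp_add_mono (P : A k r) (hP : ∀ q ∈ P.coeff.support, q.2 = 0) (b : G r) (c : k) :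
    ∀ q ∈ (P + mono b 0 c).coeff.support, q.2 = 0 := by
  intro q hq
  by_contra h
  rw [Finsupp.mem_support_iff] at hq
  apply hq
  have h1 : P.coeff q = 0 := by
    by_contra h2
    exact h (hP q (Finsupp.mem_support_iff.2 h2))
  have h2 : (mono b 0 c : A k r).coeff q = 0 := by
    have : (b, 0) ≠ q := by
      rintro rfl
      exact h rfl
    simp [mono, this]
  simp [h1, h2]

private theorem exists_step {u : Fin r → Ω} (hu : Base u) {L : IntermediateField k Ω}
    (huL : ∀ i, u i ∈ L) (hI : Imm u L) {t : Ω} (ht : t ∈ L) (P : A k r)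
    (hne : ev hu.ne 0 P ≠ t) :
    ∃ (c : k) (g : G r), c ≠ 0 ∧ ‖t - ev hu.ne 0 P‖ = ‖mon u g‖ ∧
      ‖t - ev hu.ne 0 P - algebraMap k Ω c * mon u g‖ < ‖mon u g‖ := by
  have hy : t - ev hu.ne 0 P ∈ L := sub_mem ht (ev_mem hu.ne huL (zero_mem _) P)
  have hy0 : t - ev hu.ne 0 P ≠ 0 := sub_ne_zero.2 (Ne.symm hne)
  obtain ⟨g, hg⟩ := hI _ hy hy0
  have hm := mon_ne hu.ne g
  have hmp : 0 < ‖mon u g‖ := norm_pos_iff.2 hm
  have hz : ‖(t - ev hu.ne 0 P) / mon u g‖ = 1 := by
    rw [norm_div, hg, div_self hmp.ne']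
  obtain ⟨c, hc⟩ := Big.res (k := k) _ hz.le
  refine ⟨c, g, ?_, hg, ?_⟩
  · rintro rfl
    rw [map_zero, sub_zero, hz] at hc
    exact lt_irrefl _ hc
  · have h1 : t - ev hu.ne 0 P - algebraMap k Ω c * mon u g
        = ((t - ev hu.ne 0 P) / mon u g - algebraMap k Ω c) * mon u g := by
      rw [sub_mul, div_mul_cancel₀ _ hm]
    rw [h1, norm_mul]
    exact mul_lt_of_lt_one_left hmp hc

/-- Expansions in immediate fields: `t` not a Laurent polynomial in `u`. -/
theorem exists_expn {u : Fin r → Ω} (hu : Base u) {L : IntermediateField k Ω}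
    (huL : ∀ i, u i ∈ L) (hI : Imm u L) {t : Ω} (ht : t ∈ L)
    (hne : ∀ P : A k r, (∀ q ∈ P.coeff.support, q.2 = 0) → ev hu.ne 0 P ≠ t) :
    ∃ (c : ℕ → k) (g : ℕ → G r), Expn u t c g := by
  have key : ∀ P : {P : A k r // ∀ q ∈ P.coeff.support, q.2 = 0},
      ∃ x : k × G r, x.1 ≠ 0 ∧ ‖t - ev hu.ne 0 P.1‖ = ‖mon u x.2‖ ∧
      ‖t - ev hu.ne 0 P.1 - algebraMap k Ω x.1 * mon u x.2‖ < ‖mon u x.2‖ := by
    intro P
    obtain ⟨c, g, h1, h2, h3⟩ := exists_step hu huL hI ht P.1 (hne P.1 P.2)
    exact ⟨(c, g), h1, h2, h3⟩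
  choose F hF1 hF2 hF3 using key
  let S : ℕ → {P : A k r // ∀ q ∈ P.coeff.support, q.2 = 0} := fun m =>
    Nat.rec ⟨0, by simp⟩ (fun _ P => ⟨P.1 + mono (F P).2 0 (F P).1, supp_add_mono _ P.2 _ _⟩) m
  have hS : ∀ m, (S (m + 1)).1 = (S m).1 + mono (F (S m)).2 0 (F (S m)).1 := fun m => rfl
  have hps : ∀ m, ev hu.ne 0 (S m).1
      = psum u (fun m => (F (S m)).1) (fun m => (F (S m)).2) m := by
    intro m
    induction m with
    | zero => simp [S, psum]
    | succ m ih => rw [hS, map_add, ih, psum_succ, ev_mono_zero]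
  refine ⟨fun m => (F (S m)).1, fun m => (F (S m)).2, fun m => hF1 _, ?_, fun m => ?_⟩
  · refine strictMono_nat_of_lt_succ fun m => ?_
    rw [← norm_mon_lt hu.ne, ← hF2 (S (m + 1)), hS, map_add, ev_mono_zero, ← sub_sub]
    exact hF3 (S m)
  · rw [← hps]
    exact hF2 (S m)

omit [Big k Ω] in
private theorem ev_sum_mono {u : Fin r → Ω} (hu : ∀ i, u i ≠ 0) (c : ℕ → k) (g : ℕ → G r) (m : ℕ) :
    ev hu 0 (∑ i ∈ Finset.range m, mono (g i) 0 (c i)) = psum u c g m := by
  rw [map_sum, psum]
  exact Finset.sum_congr rfl fun i _ => ev_mono_zero hu _ _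

private theorem coeff_sum_mono (c : ℕ → k) (g : ℕ → G r) (m : ℕ) (q : Ex r)
    (hq : ∀ i < m, (g i, 0) ≠ q) :
    (∑ i ∈ Finset.range m, mono (g i) 0 (c i) : A k r).coeff q = 0 := by
  induction m with
  | zero => simp
  | succ m ih =>
    rw [Finset.sum_range_succ]
    have h1 := ih fun i hi => hq i (Nat.lt_succ_of_lt hi)
    have h2 : (mono (g m) 0 (c m) : A k r).coeff q = 0 := by
      have := hq m (Nat.lt_succ_self m)
      simp [mono, this]
    have h3 : ((∑ i ∈ Finset.range m, mono (g i) 0 (c i) : A k r) + mono (g m) 0 (c m)).coeff q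
        = (∑ i ∈ Finset.range m, mono (g i) 0 (c i) : A k r).coeff q
          + (mono (g m) 0 (c m) : A k r).coeff q := by simp
    rw [h3, h1, h2, add_zero]

/-- The weights are bounded iff `t` is not in the closed field `clF k u`. -/
theorem expn_bdd_iff {u : Fin r → Ω} (hu : Base u) {t : Ω} {c : ℕ → k} {g : ℕ → G r}
    (ht : Expn u t c g) :
    BddAbove (Set.range fun m => wt u (g m)) ↔ t ∉ clF k u := by
  constructor
  · rintro ⟨B, hB⟩ htF
    have hB' : ∀ m, wt u (g m) ≤ B := fun m => hB ⟨m, rfl⟩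
    obtain ⟨P, hP, hPt⟩ := clF_dense hu htF (Real.exp_pos (-B))
    have key : ∀ m, (g m, 0) ∈ P.coeff.support := by
      intro m
      set Q : A k r := ∑ i ∈ Finset.range m, mono (g i) 0 (c i) with hQ
      have hQ0 : ∀ q ∈ Q.coeff.support, q.2 = 0 := by
        intro q hq
        by_contra h
        refine Finsupp.mem_support_iff.1 hq (coeff_sum_mono c g m q fun i _ => ?_)
        rintro rfl
        exact h rfl
      have h1 : ‖ev hu.ne 0 (P - Q)‖ = ‖mon u (g m)‖ := by
        rw [map_sub, hQ, ev_sum_mono, ← ht.norm m]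
        apply Big.norm_eq k
        rw [ht.norm m, norm_mon hu.ne,
          show ev hu.ne 0 P - psum u c g m - (t - psum u c g m) = -(t - ev hu.ne 0 P) by ring,
          norm_neg]
        refine hPt.trans_le (Real.exp_le_exp.2 (neg_le_neg (hB' m)))
      have h2 : P - Q ≠ 0 := by
        intro h
        rw [h, map_zero, norm_zero] at h1
        exact (norm_pos_iff.2 (mon_ne hu.ne (g m))).ne h1
      have h3 : ∀ q ∈ (P - Q).coeff.support, q.2 = 0 := by
        intro q hq
        by_contra h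
        apply Finsupp.mem_support_iff.1 hq
        have e1 : P.coeff q = 0 := by
          by_contra h'
          exact h (hP q (Finsupp.mem_support_iff.2 h'))
        have e2 : Q.coeff q = 0 := by
          by_contra h'
          exact h (hQ0 q (Finsupp.mem_support_iff.2 h'))
        simp [e1, e2]
      obtain ⟨b, hb, hb1, -⟩ := norm_ev_zero hu (P - Q) h2 h3 0
      have h4 : b = g m := by
        apply hu.inj
        rw [h1, norm_mon hu.ne, norm_mon hu.ne, Real.exp_eq_exp, neg_inj] at hb1
        exact hb1.symm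
      subst h4
      rw [Finsupp.mem_support_iff] at hb ⊢
      have h5 : Q.coeff (g m, 0) = 0 := by
        refine coeff_sum_mono c g m _ fun i hi h => ?_
        have h6 : g i = g m := congrArg Prod.fst h
        have h7 := ht.mono hi
        simp only [h6] at h7
        exact lt_irrefl _ h7
      intro h6
      apply hb
      simp [h5, h6]
    have hinj : Function.Injective fun m => ((g m, 0) : Ex r) := by
      intro a b hab
      have h1 : g a = g b := congrArg Prod.fst hab
      exact ht.mono.injective (by simp only [h1])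
    exact Set.infinite_of_injective_forall_mem hinj key (Finset.finite_toSet _)
  · intro h
    by_contra hb
    apply h
    rw [mem_cl_iff]
    intro ε hε
    rw [not_bddAbove_iff] at hb
    obtain ⟨_, ⟨m, rfl⟩, hm⟩ := hb (-Real.log ε)
    have hmem : psum u c g m ∈ IntermediateField.adjoin k (Set.range u) :=
      psum_mem (fun i => IntermediateField.subset_adjoin k _ (Set.mem_range_self i)) c g m
    refine ⟨psum u c g m, hmem, ?_⟩
    rw [ht.norm m, norm_mon hu.ne]
    calc Real.exp (-(wt u (g m))) < Real.exp (Real.log ε) := Real.exp_lt_exp.2 (by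
          simp only at hm; linarith)
      _ = ε := Real.exp_log hε

end LUV
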