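import Pool.Agent.LUV.Basic
import Pool.Agent.LUV.Rho

/-! Project LUV: (A2) norms at a good stage. -/

set_option autoImplicit false

namespace LUV

open Polynomial

variable {k : Type*} [Field k] {Ω : Type*} [NormedField Ω] [Algebra k Ω] [Big k Ω] {r : ℕ}

omit [Big k Ω] in
variable (k) in
private theorem gn_sum_lt [Big k Ω] {ι : Type*} (s : Finset ι) (f : ι → Ω) {B : ℝ} (hB : 0 < B)
    (h : ∀ i ∈ s, ‖f i‖ < B) : ‖∑ i ∈ s, f i‖ < B := by
  classical
  induction s using Finset.induction_on with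
  | empty => simpa using hB
  | insert a s ha ih =>
    rw [Finset.sum_insert ha]
    exact (Big.add_le k _ _).trans_lt (max_lt (h a (Finset.mem_insert_self _ _))
      (ih fun i hi => h i (Finset.mem_insert_of_mem hi)))

omit [Big k Ω] in
variable (k) in
private theorem gn_pow [Big k Ω] {x y : Ω} (hx : ‖x‖ ≤ 1) (hy : ‖y‖ ≤ 1) (n : ℕ) :
    ‖x ^ n - y ^ n‖ ≤ ‖x - y‖ := by
  induction n with
  | zero => simp
  | succ n ih =>
    have e : x ^ (n + 1) - y ^ (n + 1) = x * (x ^ n - y ^ n) + (x - y) * y ^ n := by ring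
    rw [e]
    refine (Big.add_le k _ _).trans (max_le ?_ ?_)
    · rw [norm_mul]
      calc ‖x‖ * ‖x ^ n - y ^ n‖ ≤ 1 * ‖x - y‖ :=
            mul_le_mul hx ih (norm_nonneg _) zero_le_one
        _ = _ := one_mul _
    · rw [norm_mul, norm_pow]
      calc ‖x - y‖ * ‖y‖ ^ n ≤ ‖x - y‖ * 1 :=
            mul_le_mul_of_nonneg_left (pow_le_one₀ (norm_nonneg _) hy) (norm_nonneg _)
        _ = _ := mul_one _

private theorem gn_mon {u : Fin r → Ω} (hu : ∀ i, u i ≠ 0) (a g : G r) (n : ℕ) :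
    mon u a * mon u g ^ n = mon u (a + n • g) := by
  rw [mon_add hu, mon_nsmul]

private theorem gn_lev {u : Fin r → Ω} (hu : ∀ i, u i ≠ 0) (g b : G r) (q : Ex r)
    (h : wt u b ≤ lev (wt u) (wt u g) q) :
    ‖mon u q.1‖ * ‖mon u g‖ ^ q.2 ≤ ‖mon u b‖ := by
  rw [← norm_pow, ← norm_mul, gn_mon hu, norm_mon_le hu, map_add, map_nsmul, nsmul_eq_mul]
  exact h

/-- the value at `x` close to `c u^g` -/
private theorem gn_value {u : Fin r → Ω} (hu : Base u) {x : Ω} {c : k} {g b : G r} (P : A k r)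
    (h : Good (wt u) c g P b) (hx : ‖x - algebraMap k Ω c * mon u g‖ < ‖mon u g‖) :
    ‖ev hu.ne x P‖ = ‖mon u b‖ := by
  classical
  have hg : mon u g ≠ 0 := mon_ne hu.ne g
  have hg' : 0 < ‖mon u g‖ := norm_pos_iff.2 hg
  have hb' : 0 < ‖mon u b‖ := norm_pos_iff.2 (mon_ne hu.ne b)
  set σ : Ω := x / mon u g with hσ
  have hxσ : x = mon u g * σ := by rw [hσ]; field_simp
  have hσc : ‖σ - algebraMap k Ω c‖ < 1 := by
    have e : σ - algebraMap k Ω c = (x - algebraMap k Ω c * mon u g) / mon u g := by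
      rw [hσ]; field_simp
    rw [e, norm_div, div_lt_one hg']
    exact hx
  have hc1 : ‖algebraMap k Ω c‖ ≤ 1 := Big.norm_c_le k c
  have hσ1 : ‖σ‖ ≤ 1 := by
    rw [show σ = (σ - algebraMap k Ω c) + algebraMap k Ω c by ring]
    exact (Big.add_le k _ _).trans (max_le hσc.le hc1)
  -- the main term
  have key : ‖ev hu.ne x P - mon u b * algebraMap k Ω ((lf g b P).eval c)‖ < ‖mon u b‖ := by
    have e1 : ev hu.ne x P - mon u b * algebraMap k Ω ((lf g b P).eval c) =
        (∑ q ∈ P.coeff.support with q.1 + q.2 • g = b,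
          algebraMap k Ω (P.coeff q) * (mon u b * (σ ^ q.2 - algebraMap k Ω c ^ q.2))) +
        ∑ q ∈ P.coeff.support with ¬ (q.1 + q.2 • g = b),
          algebraMap k Ω (P.coeff q) * (mon u q.1 * x ^ q.2) := by
      have e2 : algebraMap k Ω ((lf g b P).eval c) =
          ∑ q ∈ P.coeff.support with q.1 + q.2 • g = b,
            algebraMap k Ω (P.coeff q) * algebraMap k Ω c ^ q.2 := by
        rw [lf, Polynomial.eval_finsetSum, map_sum]
        refine Finset.sum_congr rfl fun q _ => ?_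
        rw [Polynomial.eval_monomial, map_mul, map_pow]
      rw [ev_eq_sum, e2, ← Finset.sum_filter_add_sum_filter_not P.coeff.support
        (fun q => q.1 + q.2 • g = b), Finset.mul_sum, add_sub_right_comm,
        ← Finset.sum_sub_distrib]
      congr 1
      refine Finset.sum_congr rfl fun q hq => ?_
      have hq2 := (Finset.mem_filter.1 hq).2
      have e3 : mon u q.1 * x ^ q.2 = mon u b * σ ^ q.2 := by
        rw [hxσ, mul_pow, ← mul_assoc, gn_mon hu.ne, hq2]
      rw [e3]
      ring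
    rw [e1]
    refine (Big.add_le k _ _).trans_lt (max_lt (gn_sum_lt k _ _ hb' ?_) (gn_sum_lt k _ _ hb' ?_))
    · intro q _
      rw [norm_mul, norm_mul]
      have h1 : ‖σ ^ q.2 - algebraMap k Ω c ^ q.2‖ < 1 := (gn_pow k hσ1 hc1 q.2).trans_lt hσc
      calc ‖algebraMap k Ω (P.coeff q)‖ * (‖mon u b‖ * ‖σ ^ q.2 - algebraMap k Ω c ^ q.2‖)
          ≤ 1 * (‖mon u b‖ * ‖σ ^ q.2 - algebraMap k Ω c ^ q.2‖) :=
            mul_le_mul_of_nonneg_right (Big.norm_c_le k _) (by positivity)
        _ = ‖mon u b‖ * ‖σ ^ q.2 - algebraMap k Ω c ^ q.2‖ := one_mul _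
        _ < ‖mon u b‖ * 1 := mul_lt_mul_of_pos_left h1 hb'
        _ = _ := mul_one _
    · intro q hq
      obtain ⟨hq1, hq2⟩ := Finset.mem_filter.1 hq
      have h0 := h.1 q hq1
      have hlt : ‖mon u (q.1 + q.2 • g)‖ < ‖mon u b‖ := by
        rw [norm_mon_lt hu.ne]
        have h2 : wt u b ≤ wt u (q.1 + q.2 • g) := by
          rw [map_add, map_nsmul, nsmul_eq_mul]; exact h0
        exact lt_of_le_of_ne h2 fun h3 => hq2 (hu.inj h3).symm
      rw [hxσ, mul_pow, ← mul_assoc (mon u q.1), gn_mon hu.ne, norm_mul, norm_mul, norm_pow]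
      calc ‖algebraMap k Ω (P.coeff q)‖ * (‖mon u (q.1 + q.2 • g)‖ * ‖σ‖ ^ q.2)
          ≤ 1 * (‖mon u (q.1 + q.2 • g)‖ * 1) :=
            mul_le_mul (Big.norm_c_le k _) (mul_le_mul_of_nonneg_left
              (pow_le_one₀ (norm_nonneg _) hσ1) (norm_nonneg _)) (by positivity) zero_le_one
        _ = ‖mon u (q.1 + q.2 • g)‖ := by ring
        _ < _ := hlt
  have hn : ‖mon u b * algebraMap k Ω ((lf g b P).eval c)‖ = ‖mon u b‖ := by
    rw [norm_mul, Big.norm_k _ h.2, mul_one]
  rw [← hn]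
  exact Big.norm_eq k (by rw [hn]; exact key)

/-- Values and Taylor coefficients at `t` from a good stage. -/
theorem good_norm {u : Fin r → Ω} (hu : Base u) {t : Ω} {c : ℕ → k} {g : ℕ → G r}
    (ht : Expn u t c g) (P : A k r) (m : ℕ) (b : G r)
    (h : Good (wt u) (c m) (g m) (shift c g m P) b) :
    ‖ev hu.ne t P‖ = ‖mon u b‖ ∧
      ∀ i, ‖(Polynomial.taylor t (toPoly u P)).coeff i‖ * ‖mon u (g m)‖ ^ i ≤ ‖mon u b‖ := by
  classical
  have : IsAlgClosed Ω := Big.closed k
  have : Infinite Ω := IsAlgClosed.instInfinite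
  set s : Ω := t - psum u c g m with hs
  have hs1 : ‖s - algebraMap k Ω (c m) * mon u (g m)‖ < ‖mon u (g m)‖ := by
    have e : s - algebraMap k Ω (c m) * mon u (g m) = t - psum u c g (m + 1) := by
      rw [hs, psum_succ]; ring
    rw [e, ht.norm, norm_mon_lt hu.ne]
    exact ht.mono (Nat.lt_succ_self m)
  constructor
  · rw [← ev_shift hu.ne t c g m P]
    exact gn_value hu _ h hs1
  · intro i
    have e1 : Polynomial.taylor (psum u c g m) (toPoly u P) = toPoly u (shift c g m P) := by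
      refine Polynomial.funext fun x => ?_
      rw [Polynomial.taylor_eval, eval_toPoly hu.ne, eval_toPoly hu.ne,
        ← ev_shift hu.ne (x + psum u c g m) c g m P, add_sub_cancel_right]
    have e2 : Polynomial.taylor t (toPoly u P) =
        Polynomial.taylor s (toPoly u (shift c g m P)) := by
      rw [← e1, Polynomial.taylor_taylor, hs, sub_add_cancel]
    have hsn : ‖s‖ = ‖mon u (g m)‖ := ht.norm m
    rw [e2, toPoly, map_sum, Polynomial.finsetSum_coeff]
    set S := (shift c g m P).coeff.support with hS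
    have hμ : 0 < ‖mon u (g m)‖ ^ i := pow_pos (norm_pos_iff.2 (mon_ne hu.ne _)) _
    rw [← le_div_iff₀ hμ]
    refine Big.sum_le k _ _ (by positivity) fun q hq => ?_
    rw [Polynomial.taylor_monomial, Polynomial.coeff_C_mul, Polynomial.coeff_X_add_C_pow,
      le_div_iff₀ hμ]
    by_cases hi : i ≤ q.2
    · have h1 : ‖((q.2.choose i : ℕ) : Ω)‖ ≤ 1 := by
        rw [← map_natCast (algebraMap k Ω)]
        exact Big.norm_c_le k _
      have h2 := gn_lev hu.ne (g m) b q (h.1 q hq)
      rw [norm_mul, norm_mul, norm_mul, norm_pow, hsn]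
      calc ‖algebraMap k Ω ((shift c g m P).coeff q)‖ * ‖mon u q.1‖ *
            (‖mon u (g m)‖ ^ (q.2 - i) * ‖((q.2.choose i : ℕ) : Ω)‖) * ‖mon u (g m)‖ ^ i
          ≤ 1 * ‖mon u q.1‖ * (‖mon u (g m)‖ ^ (q.2 - i) * 1) * ‖mon u (g m)‖ ^ i := by
            refine mul_le_mul_of_nonneg_right (mul_le_mul ?_ ?_ (by positivity) (by positivity))
              (by positivity)
            · exact mul_le_mul_of_nonneg_right (Big.norm_c_le k _) (by positivity)
            · exact mul_le_mul_of_nonneg_left h1 (by positivity)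
        _ = ‖mon u q.1‖ * ‖mon u (g m)‖ ^ q.2 := by
            rw [← Nat.sub_add_cancel hi]
            simp only [Nat.add_sub_cancel, one_mul, mul_one, pow_add]
            ring
        _ ≤ _ := h2
    · rw [Nat.choose_eq_zero_of_lt (not_le.1 hi)]
      simp

end LUV
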