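import Pool.Agent.LUV.Basic
import Pool.Agent.LUV.FDense
import Pool.Agent.LUV.GoodNorm
import Pool.Agent.LUV.Expn
import Pool.Agent.LUV.Trans

/-! Project LUV: (A4) Lim and Cau from expansions. -/

set_option autoImplicit false

namespace LUV

open Polynomial

variable {k : Type*} [Field k] {Ω : Type*} [NormedField Ω] [Algebra k Ω] [Big k Ω] {r : ℕ}

omit [Big k Ω] in
theorem CauF_ev_indep {u : Fin r → Ω} (hu : ∀ i, u i ≠ 0) (P : A k r)
    (hP : ∀ q ∈ P.coeff.support, q.2 = 0) (x : Ω) : ev hu x P = ev hu 0 P := by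
  rw [ev_eq_sum, ev_eq_sum]
  exact Finset.sum_congr rfl fun q hq => by rw [hP q hq, pow_zero, pow_zero]

/-- Taylor coefficients of small polynomials are small. -/
theorem CauF_taylor_le (k : Type*) [Field k] {Ω : Type*} [NormedField Ω] [Algebra k Ω] [Big k Ω]
    (D : Polynomial Ω) (n : ℕ) (hn : D.natDegree ≤ n) (t : Ω)
    {ε : ℝ} (hε : 0 ≤ ε) (hD : ∀ i, ‖D.coeff i‖ ≤ ε) (i : ℕ) :
    ‖(Polynomial.taylor t D).coeff i‖ ≤ ε * (max 1 ‖t‖) ^ n := by
  have hT : (1 : ℝ) ≤ max 1 ‖t‖ := le_max_left _ _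
  rw [D.as_sum_range' (n + 1) (Nat.lt_succ_of_le hn), map_sum, Polynomial.finsetSum_coeff]
  refine Big.sum_le k _ _ (by positivity) fun j hj => ?_
  rw [Polynomial.taylor_monomial, Polynomial.coeff_C_mul, Polynomial.coeff_X_add_C_pow]
  have hj' : j ≤ n := Nat.lt_succ_iff.1 (Finset.mem_range.1 hj)
  have h1 : ‖((j.choose i : ℕ) : Ω)‖ ≤ 1 := by
    rw [← map_natCast (algebraMap k Ω)]
    exact Big.norm_c_le k _
  rw [norm_mul, norm_mul, norm_pow]
  refine mul_le_mul (hD j) ?_ (by positivity) hε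
  calc ‖t‖ ^ (j - i) * ‖((j.choose i : ℕ) : Ω)‖ ≤ (max 1 ‖t‖) ^ (j - i) * 1 :=
        mul_le_mul (pow_le_pow_left₀ (norm_nonneg _) (le_max_right _ _) _) h1 (norm_nonneg _)
          (by positivity)
    _ ≤ (max 1 ‖t‖) ^ n := by
        rw [mul_one]
        exact pow_le_pow_right₀ hT ((Nat.sub_le _ _).trans hj')

/-- Approximation of polynomials over `clF k u` by elements of `A k r`. -/
theorem CauF_approx {u : Fin r → Ω} (hu : Base u) (Q : Polynomial Ω)
    (hQ : ∀ i, Q.coeff i ∈ clF k u) (t : Ω) {δ : ℝ} (hδ : 0 < δ) :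
    ∃ P : A k r, (∀ i, ‖(Polynomial.taylor t Q).coeff i -
      (Polynomial.taylor t (toPoly u P)).coeff i‖ < δ) := by
  classical
  have : IsAlgClosed Ω := Big.closed k
  have : Infinite Ω := IsAlgClosed.instInfinite
  set n := Q.natDegree with hn
  set T : ℝ := (max 1 ‖t‖) ^ n with hT
  have hT0 : 0 < T := by positivity
  have hε : 0 < δ / 2 / T := by positivity
  choose p hp0 hp using fun i => clF_dense hu (hQ i) hε
  set P : A k r := ∑ i ∈ Finset.range (n + 1), p i * mono 0 i 1 with hP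
  have e : toPoly u P = ∑ i ∈ Finset.range (n + 1), Polynomial.C (ev hu.ne 0 (p i)) * X ^ i := by
    refine Polynomial.funext fun x => ?_
    rw [eval_toPoly hu.ne, hP, map_sum, Polynomial.eval_finsetSum]
    refine Finset.sum_congr rfl fun i _ => ?_
    rw [map_mul, ev_mono, map_one, one_mul, mon_zero, one_mul, CauF_ev_indep hu.ne _ (hp0 i)]
    simp
  have hc : ∀ i, (toPoly u P).coeff i = if i < n + 1 then ev hu.ne 0 (p i) else 0 := by
    intro i
    rw [e, Polynomial.finsetSum_coeff]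
    simp only [Polynomial.coeff_C_mul, Polynomial.coeff_X_pow, mul_ite, mul_one, mul_zero]
    rw [Finset.sum_ite_eq (Finset.range (n + 1)) i]
    simp only [Finset.mem_range]
  have hdeg : (Q - toPoly u P).natDegree ≤ n := by
    rw [Polynomial.natDegree_le_iff_coeff_eq_zero]
    intro i hi
    rw [Polynomial.coeff_sub, hc, if_neg (by omega), sub_zero]
    exact Polynomial.coeff_eq_zero_of_natDegree_lt hi
  refine ⟨P, fun i => ?_⟩
  rw [← Polynomial.coeff_sub, ← map_sub]
  have hD : ∀ j, ‖(Q - toPoly u P).coeff j‖ ≤ δ / 2 / T := by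
    intro j
    rw [Polynomial.coeff_sub, hc]
    split_ifs with h
    · exact (hp j).le
    · rw [Polynomial.coeff_eq_zero_of_natDegree_lt (by omega : Q.natDegree < j), sub_zero, norm_zero]
      exact hε.le
  have h := CauF_taylor_le k (Q - toPoly u P) n hdeg t hε.le hD i
  refine h.trans_lt ?_
  rw [← hT, div_mul_cancel₀ _ hT0.ne']
  linarith

/-- Cauchy estimates for all polynomials over `clF k u` from the transcendental type lemma. -/
theorem lim_cau_of_expn {u : Fin r → Ω} (hu : Base u) {t : Ω} {c : ℕ → k} {g : ℕ → G r}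
    (ht : Expn u t c g) (hb : BddAbove (Set.range fun m => wt u (g m))) :
    ∃ ρ : ℝ, Lim (clF k u) t ρ ∧ Cau (clF k u) t ρ := by
  set w : ℝ := sSup (Set.range fun m => wt u (g m)) with hw
  have hlt : ∀ m, wt u (g m) < w := fun m =>
    (ht.mono (Nat.lt_succ_self m)).trans_le (le_csSup hb ⟨m + 1, rfl⟩)
  have hR1 : ∀ m, Real.exp (-w) < ‖mon u (g m)‖ := fun m => by
    rw [norm_mon hu.ne, Real.exp_lt_exp]
    exact neg_lt_neg (hlt m)
  have hR2 : ∀ R, Real.exp (-w) < R → ∃ m, ‖mon u (g m)‖ < R := by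
    intro R hR
    have hR0 : 0 < R := (Real.exp_pos _).trans hR
    have h1 : -Real.log R < w := by
      have := Real.log_lt_log (Real.exp_pos _) hR
      rw [Real.log_exp] at this
      linarith
    obtain ⟨_, ⟨m, rfl⟩, hm⟩ := exists_lt_of_lt_csSup (Set.range_nonempty _) h1
    refine ⟨m, ?_⟩
    rw [norm_mon hu.ne]
    calc Real.exp (-(wt u (g m))) < Real.exp (Real.log R) := by
          rw [Real.exp_lt_exp]
          have hm' : -Real.log R < wt u (g m) := hm
          linarith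
      _ = R := Real.exp_log hR0
  have strong : ∀ P : A k r, P ≠ 0 → ∃ m, ∀ i,
      ‖(Polynomial.taylor t (toPoly u P)).coeff i‖ * ‖mon u (g m)‖ ^ i ≤
        ‖(toPoly u P).eval t‖ := by
    intro P hP
    obtain ⟨m, b, hg⟩ := trans_type (wt u) hu.inj c ht.c_ne g ht.mono hb P hP
    obtain ⟨h1, h2⟩ := good_norm hu ht P m b hg
    refine ⟨m, fun i => ?_⟩
    rw [eval_toPoly hu.ne, h1]
    exact h2 i
  have hmono : ∀ m, ‖mon u (g m)‖ ≤ ‖mon u (g 0)‖ := fun m => by
    rw [norm_mon_le hu.ne]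
    exact ht.mono.monotone (Nat.zero_le m)
  have hcau : Cau (clF k u) t (Real.exp (-w)) := by
    intro Q hQ0 hQ
    set ρ := Real.exp (-w) with hρ
    have hρ0 : 0 < ρ := Real.exp_pos _
    set n := Q.natDegree with hn
    have hlc : 0 < ‖Q.leadingCoeff‖ := norm_pos_iff.2 (leadingCoeff_ne_zero.2 hQ0)
    have hQt : Q.eval t ≠ 0 := by
      intro h0
      have hδ : 0 < min ‖Q.leadingCoeff‖ (‖Q.leadingCoeff‖ * ρ ^ n) := by positivity
      obtain ⟨P, hP⟩ := CauF_approx (k := k) hu Q hQ t hδ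
      have h1 : ‖(Polynomial.taylor t (toPoly u P)).coeff n‖ = ‖Q.leadingCoeff‖ := by
        have h2 := hP n
        rw [hn, Polynomial.coeff_taylor_natDegree, ← hn, norm_sub_rev] at h2
        exact Big.norm_eq k (h2.trans_le (min_le_left _ _))
      have hP0 : P ≠ 0 := by
        rintro rfl
        have : toPoly u (0 : A k r) = 0 := by simp [toPoly]
        rw [this, map_zero, coeff_zero, norm_zero] at h1
        exact hlc.ne h1
      obtain ⟨m, hm⟩ := strong P hP0
      have h3 := hm n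
      rw [h1] at h3
      have h4 : ‖(toPoly u P).eval t‖ < ‖Q.leadingCoeff‖ * ρ ^ n := by
        have h5 := hP 0
        rw [Polynomial.taylor_coeff_zero, Polynomial.taylor_coeff_zero, h0, zero_sub,
          norm_neg] at h5
        exact h5.trans_le (min_le_right _ _)
      have h6 : ‖Q.leadingCoeff‖ * ρ ^ n ≤ ‖Q.leadingCoeff‖ * ‖mon u (g m)‖ ^ n :=
        mul_le_mul_of_nonneg_left (pow_le_pow_left₀ hρ0.le (hR1 m).le n) hlc.le
      linarith
    set M : ℝ := (max 1 ‖mon u (g 0)‖) ^ n with hM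
    have hM1 : 1 ≤ M := one_le_pow₀ (le_max_left _ _)
    have hQt' : 0 < ‖Q.eval t‖ := norm_pos_iff.2 hQt
    have hδ : 0 < ‖Q.eval t‖ / M := div_pos hQt' (by linarith)
    obtain ⟨P, hP⟩ := CauF_approx (k := k) hu Q hQ t hδ
    have hδ1 : ‖Q.eval t‖ / M ≤ ‖Q.eval t‖ := div_le_self hQt'.le hM1
    have h1 : ‖(toPoly u P).eval t‖ = ‖Q.eval t‖ := by
      have h2 := hP 0
      rw [Polynomial.taylor_coeff_zero, Polynomial.taylor_coeff_zero, norm_sub_rev] at h2
      exact Big.norm_eq k (h2.trans_le hδ1)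
    have hP0 : P ≠ 0 := by
      rintro rfl
      have : toPoly u (0 : A k r) = 0 := by simp [toPoly]
      rw [this, eval_zero, norm_zero] at h1
      exact hQt'.ne h1
    obtain ⟨m, hm⟩ := strong P hP0
    refine ⟨‖mon u (g m)‖, hR1 m, fun i => ?_⟩
    rcases lt_or_ge n i with hi | hi
    · have : (Polynomial.taylor t Q).coeff i = 0 :=
        Polynomial.coeff_eq_zero_of_natDegree_lt (by rw [Polynomial.natDegree_taylor]; exact hi)
      rw [this, norm_zero, zero_mul]
      exact norm_nonneg _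
    · have hpos : 0 < ‖mon u (g m)‖ ^ i := pow_pos (norm_pos_iff.2 (mon_ne hu.ne _)) _
      have hRi : ‖mon u (g m)‖ ^ i ≤ M := by
        calc ‖mon u (g m)‖ ^ i ≤ (max 1 ‖mon u (g 0)‖) ^ i :=
              pow_le_pow_left₀ (norm_nonneg _) ((hmono m).trans (le_max_right _ _)) i
          _ ≤ M := pow_le_pow_right₀ (le_max_left _ _) hi
      have h3 : ‖(Polynomial.taylor t Q).coeff i‖ ≤
          max ‖(Polynomial.taylor t (toPoly u P)).coeff i‖ (‖Q.eval t‖ / M) := by
        have e : (Polynomial.taylor t Q).coeff i = (Polynomial.taylor t (toPoly u P)).coeff i +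
          ((Polynomial.taylor t Q).coeff i - (Polynomial.taylor t (toPoly u P)).coeff i) := by ring
        rw [e]
        exact (Big.add_le k _ _).trans (max_le_max le_rfl (hP i).le)
      calc ‖(Polynomial.taylor t Q).coeff i‖ * ‖mon u (g m)‖ ^ i
          ≤ max ‖(Polynomial.taylor t (toPoly u P)).coeff i‖ (‖Q.eval t‖ / M) *
              ‖mon u (g m)‖ ^ i := mul_le_mul_of_nonneg_right h3 hpos.le
        _ ≤ ‖Q.eval t‖ := by
            rcases max_cases ‖(Polynomial.taylor t (toPoly u P)).coeff i‖ (‖Q.eval t‖ / M) with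
              ⟨h, -⟩ | ⟨h, -⟩
            · rw [h, ← h1]
              exact hm i
            · rw [h, div_mul_eq_mul_div, div_le_iff₀ (by linarith)]
              exact mul_le_mul_of_nonneg_left hRi hQt'.le
  refine ⟨Real.exp (-w), ⟨Real.exp_pos _, fun b hbF => ?_, fun R hR => ?_⟩, hcau⟩
  · have hQ : ∀ i, (X - C b : Polynomial Ω).coeff i ∈ clF k u := by
      intro i
      rw [coeff_sub, coeff_X, coeff_C]
      refine sub_mem ?_ ?_
      · split_ifs
        · exact one_mem _
        · exact zero_mem _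
      · split_ifs
        · exact hbF
        · exact zero_mem _
    obtain ⟨R, hR, h⟩ := hcau (X - C b) (X_sub_C_ne_zero b) hQ
    have h1 := h 1
    have e : (Polynomial.taylor t (X - C b : Polynomial Ω)).coeff 1 = 1 := by
      rw [map_sub, Polynomial.taylor_X, Polynomial.taylor_C]
      simp [coeff_X]
    rw [e, norm_one, one_mul, pow_one, eval_sub, eval_X, eval_C] at h1
    exact hR.trans_le h1
  · obtain ⟨m, hm⟩ := hR2 R hR
    exact ⟨psum u c g m, psum_mem (fun i => u_mem_clF u i) c g m, by rw [ht.norm m]; exact hm⟩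

theorem lim_cau {u : Fin r → Ω} (hu : Base u) {L : IntermediateField k Ω}
    (huL : ∀ i, u i ∈ L) (hI : Imm u L) {t : Ω} (ht : t ∈ L) (hF : t ∉ clF k u) :
    ∃ ρ : ℝ, Lim (clF k u) t ρ ∧ Cau (clF k u) t ρ := by
  obtain ⟨c, g, h⟩ := exists_expn hu huL hI ht fun P _ hP => hF (hP ▸
    ev_mem hu.ne (u_mem_clF u) (zero_mem _) P)
  exact lim_cau_of_expn hu h ((expn_bdd_iff hu h).2 hF)

theorem Lim.unique {F : IntermediateField k Ω} {t : Ω} {ρ ρ' : ℝ} (h : Lim F t ρ)
    (h' : Lim F t ρ') : ρ = ρ' := by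
  by_contra hne
  rcases lt_or_gt_of_ne hne with hlt | hlt
  · obtain ⟨b, hb, h1⟩ := h.app ρ' hlt
    exact absurd (h'.lt b hb) (not_lt.2 h1.le)
  · obtain ⟨b, hb, h1⟩ := h'.app ρ hlt
    exact absurd (h.lt b hb) (not_lt.2 h1.le)

end LUV
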