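import Pool.Agent.LUV.Basic
import Pool.Agent.LUV.TayShift
import Pool.Agent.LUV.FDense

/-! Project LUV: (A7) density of polynomials. -/

set_option autoImplicit false

namespace LUV

open Polynomial

variable {k : Type*} [Field k] {Ω : Type*} [NormedField Ω] [Algebra k Ω] [Big k Ω] {r : ℕ}

theorem DT_key {F : IntermediateField k Ω} {t : Ω} {ρ : ℝ} (hL : Lim F t ρ) (hC : Cau F t ρ)
    {Q : Polynomial Ω} (hQ : ∀ i, Q.coeff i ∈ F) (h0 : Q.eval t ≠ 0) :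
    ∃ c ∈ F, ‖c - Q.eval t‖ < ‖Q.eval t‖ := by
  have hQ0 : Q ≠ 0 := by
    rintro rfl
    exact h0 (by simp)
  obtain ⟨R, hR, h⟩ := hC Q hQ0 hQ
  obtain ⟨b, hb, hbt⟩ := hL.app R hR
  have hR0 : 0 < R := hL.pos.trans hR
  have hn : 0 < ‖Q.eval t‖ := norm_pos_iff.2 h0
  have hbt' : ‖b - t‖ < R := by rwa [norm_sub_rev]
  have hq0 : 0 ≤ ‖b - t‖ / R := div_nonneg (norm_nonneg _) hR0.le
  have hq1 : ‖b - t‖ / R < 1 := (div_lt_one hR0).2 hbt'
  refine ⟨Q.eval b, ?_, ?_⟩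
  · rw [Polynomial.eval_eq_sum_range]
    exact sum_mem fun i _ => mul_mem (hQ i) (pow_mem hb i)
  · have h1 : Q.eval b - Q.eval t = ∑ i ∈ Finset.range Q.natDegree,
        (Polynomial.taylor t Q).coeff (i + 1) * (b - t) ^ (i + 1) := by
      rw [taylor_eval_sub Q b t, Finset.sum_range_succ']
      simp
    rw [h1]
    have h2 : ‖∑ i ∈ Finset.range Q.natDegree,
        (Polynomial.taylor t Q).coeff (i + 1) * (b - t) ^ (i + 1)‖ ≤
        ‖Q.eval t‖ * (‖b - t‖ / R) := by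
      refine Big.sum_le k _ _ (mul_nonneg hn.le hq0) fun i _ => ?_
      rw [norm_mul, norm_pow]
      have h3 : ‖(Polynomial.taylor t Q).coeff (i + 1)‖ * ‖b - t‖ ^ (i + 1) =
          (‖(Polynomial.taylor t Q).coeff (i + 1)‖ * R ^ (i + 1)) *
            (‖b - t‖ / R) ^ (i + 1) := by
        rw [div_pow]
        field_simp
      rw [h3]
      refine mul_le_mul (h _) ?_ (pow_nonneg hq0 _) hn.le
      rw [pow_succ]
      calc (‖b - t‖ / R) ^ i * (‖b - t‖ / R) ≤ 1 * (‖b - t‖ / R) :=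
            mul_le_mul_of_nonneg_right (pow_le_one₀ hq0 hq1.le) hq0
        _ = ‖b - t‖ / R := one_mul _
    refine h2.trans_lt ?_
    calc ‖Q.eval t‖ * (‖b - t‖ / R) < ‖Q.eval t‖ * 1 := mul_lt_mul_of_pos_left hq1 hn
      _ = ‖Q.eval t‖ := mul_one _

/-- The ring `F[t]`. -/
noncomputable def DT_ring (F : IntermediateField k Ω) (t : Ω) : Subring Ω :=
  (Polynomial.aeval t : Polynomial F →ₐ[F] Ω).toRingHom.range

theorem DT_ring_iff (F : IntermediateField k Ω) (t : Ω) {y : Ω} (hy : y ∈ DT_ring F t) :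
    ∃ Q : Polynomial Ω, (∀ i, Q.coeff i ∈ F) ∧ Q.eval t = y := by
  obtain ⟨Q, rfl⟩ := hy
  refine ⟨Q.map (algebraMap F Ω), fun i => ?_, ?_⟩
  · rw [Polynomial.coeff_map]
    exact (Q.coeff i).2
  · exact Polynomial.eval_map_algebraMap Q t

theorem DT_ring_F (F : IntermediateField k Ω) (t : Ω) {y : Ω} (hy : y ∈ F) :
    y ∈ DT_ring F t := by
  refine ⟨Polynomial.C (⟨y, hy⟩ : F), ?_⟩
  exact Polynomial.aeval_C t (⟨y, hy⟩ : F)

theorem DT_ring_t (F : IntermediateField k Ω) (t : Ω) : t ∈ DT_ring F t :=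
  ⟨Polynomial.X, Polynomial.aeval_X t⟩

theorem DT_mem_closure {S : Subring Ω} {y : Ω} :
    y ∈ S.topologicalClosure ↔ ∀ ε : ℝ, 0 < ε → ∃ z ∈ S, ‖y - z‖ < ε := by
  change y ∈ closure (S : Set Ω) ↔ _
  rw [Metric.mem_closure_iff]
  simp only [dist_eq_norm]
  rfl

theorem DT_inv_one {F : IntermediateField k Ω} {t : Ω} {ρ : ℝ} (hL : Lim F t ρ)
    (hC : Cau F t ρ) {z : Ω} (hz : z ∈ DT_ring F t) (h0 : z ≠ 0) :
    z⁻¹ ∈ (DT_ring F t).topologicalClosure := by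
  obtain ⟨Q, hQ, rfl⟩ := DT_ring_iff F t hz
  obtain ⟨c, hc, hlt⟩ := DT_key hL hC hQ h0
  have hcn : ‖c‖ = ‖Q.eval t‖ := Big.norm_eq k hlt
  have hzn : 0 < ‖Q.eval t‖ := norm_pos_iff.2 h0
  have hc0 : c ≠ 0 := norm_pos_iff.1 (hcn ▸ hzn)
  set z := Q.eval t with hzdef
  have hη : ‖(c - z) / c‖ < 1 := by
    rw [norm_div, hcn, div_lt_one hzn]
    exact hlt
  have hηm : (c - z) / c ∈ DT_ring F t := by
    rw [div_eq_mul_inv]
    exact mul_mem (sub_mem (DT_ring_F F t hc) hz) (DT_ring_F F t (inv_mem hc))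
  rw [DT_mem_closure]
  intro ε hε
  obtain ⟨N, hN⟩ := exists_pow_lt_of_lt_one (mul_pos hε hzn) hη
  refine ⟨c⁻¹ * ∑ n ∈ Finset.range N, ((c - z) / c) ^ n,
    mul_mem (DT_ring_F F t (inv_mem hc)) (sum_mem fun n _ => pow_mem hηm n), ?_⟩
  have h1 : z⁻¹ - c⁻¹ * ∑ n ∈ Finset.range N, ((c - z) / c) ^ n = z⁻¹ * ((c - z) / c) ^ N := by
    have h2 := geom_sum_mul_neg ((c - z) / c) N
    have h3 : 1 - (c - z) / c = z / c := by
      field_simp
      ring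
    rw [h3] at h2
    have h4 : c⁻¹ * ∑ n ∈ Finset.range N, ((c - z) / c) ^ n =
        z⁻¹ * ((∑ n ∈ Finset.range N, ((c - z) / c) ^ n) * (z / c)) := by
      field_simp
    rw [h4, h2]
    ring
  rw [h1, norm_mul, norm_inv, norm_pow]
  rw [inv_mul_eq_div, div_lt_iff₀ hzn]
  exact hN

theorem DT_inv {F : IntermediateField k Ω} {t : Ω} {ρ : ℝ} (hL : Lim F t ρ)
    (hC : Cau F t ρ) {y : Ω} (hy : y ∈ (DT_ring F t).topologicalClosure) :
    y⁻¹ ∈ (DT_ring F t).topologicalClosure := by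
  by_cases h0 : y = 0
  · rw [h0, inv_zero]
    exact zero_mem _
  · have hn : 0 < ‖y‖ := norm_pos_iff.2 h0
    rw [DT_mem_closure]
    intro ε hε
    obtain ⟨z, hz, hyz⟩ := DT_mem_closure.1 hy (min ‖y‖ (ε * ‖y‖ ^ 2))
      (lt_min hn (mul_pos hε (pow_pos hn 2)))
    have h1 : ‖y - z‖ < ‖y‖ := hyz.trans_le (min_le_left _ _)
    have h2 : ‖y - z‖ < ε * ‖y‖ ^ 2 := hyz.trans_le (min_le_right _ _)
    have hzn : ‖z‖ = ‖y‖ := Big.norm_eq k (by rwa [norm_sub_rev])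
    have hz0 : z ≠ 0 := norm_pos_iff.1 (hzn ▸ hn)
    obtain ⟨w, hw, hzw⟩ := DT_mem_closure.1 (DT_inv_one hL hC hz hz0) ε hε
    refine ⟨w, hw, ?_⟩
    have h3 : ‖y⁻¹ - z⁻¹‖ < ε := by
      have h4 : y⁻¹ - z⁻¹ = (z - y) / (y * z) := by
        field_simp
      rw [h4, norm_div, norm_mul, hzn, div_lt_iff₀ (mul_pos hn hn), norm_sub_rev, ← pow_two]
      exact h2
    have h5 : y⁻¹ - w = (y⁻¹ - z⁻¹) + (z⁻¹ - w) := by ring
    rw [h5]
    exact (Big.add_le k _ _).trans_lt (max_lt h3 hzw)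

/-- The closure of `F[t]`, a field. -/
noncomputable def DT_field {F : IntermediateField k Ω} {t : Ω} {ρ : ℝ} (hL : Lim F t ρ)
    (hC : Cau F t ρ) : IntermediateField k Ω where
  carrier := (DT_ring F t).topologicalClosure
  mul_mem' := fun ha hb => mul_mem ha hb
  one_mem' := one_mem _
  add_mem' := fun ha hb => add_mem ha hb
  zero_mem' := zero_mem _
  algebraMap_mem' := fun c =>
    Subring.le_topologicalClosure _ (DT_ring_F F t (F.algebraMap_mem c))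
  inv_mem' := fun _ h => DT_inv hL hC h

/-- Polynomials in `t` over `F` are dense in the closed field generated by `F` and `t`. -/
theorem dense_T {F : IntermediateField k Ω} (hF : IsClosed (F : Set Ω)) {t : Ω} {ρ : ℝ}
    (hL : Lim F t ρ) (hC : Cau F t ρ) {y : Ω} (hy : y ∈ cl k (insert t (F : Set Ω))) {ε : ℝ}
    (hε : 0 < ε) : ∃ Q : Polynomial Ω, (∀ i, Q.coeff i ∈ F) ∧ ‖y - Q.eval t‖ < ε := by
  have hcl : IsClosed ((DT_field hL hC : IntermediateField k Ω) : Set Ω) :=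
    Subring.isClosed_topologicalClosure _
  have hle : cl k (insert t (F : Set Ω)) ≤ DT_field hL hC := by
    refine cl_le hcl ?_
    rintro x (rfl | hx)
    · exact Subring.le_topologicalClosure _ (DT_ring_t F x)
    · exact Subring.le_topologicalClosure _ (DT_ring_F F t hx)
  have hy' : y ∈ (DT_ring F t).topologicalClosure := hle hy
  obtain ⟨z, hz, h⟩ := DT_mem_closure.1 hy' ε hε
  obtain ⟨Q, hQ, rfl⟩ := DT_ring_iff F t hz
  exact ⟨Q, hQ, h⟩

theorem imm_T {F : IntermediateField k Ω} (hF : IsClosed (F : Set Ω)) {t : Ω} {ρ : ℝ}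
    (hL : Lim F t ρ) (hC : Cau F t ρ) {y : Ω} (hy : y ∈ cl k (insert t (F : Set Ω)))
    (hy0 : y ≠ 0) : ∃ b ∈ F, b ≠ 0 ∧ ‖y‖ = ‖b‖ := by
  have hn : 0 < ‖y‖ := norm_pos_iff.2 hy0
  obtain ⟨Q, hQ, h⟩ := dense_T hF hL hC hy hn
  have h1 : ‖Q.eval t‖ = ‖y‖ := Big.norm_eq k (by rwa [norm_sub_rev])
  have h0 : Q.eval t ≠ 0 := norm_pos_iff.1 (h1 ▸ hn)
  obtain ⟨c, hc, hlt⟩ := DT_key hL hC hQ h0
  have hcn : ‖c‖ = ‖Q.eval t‖ := Big.norm_eq k hlt
  refine ⟨c, hc, ?_, ?_⟩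
  · exact norm_pos_iff.1 (by rw [hcn, h1]; exact hn)
  · rw [hcn, h1]

/-- Version with polynomials of the algebra `A k r`. -/
theorem dense_A {u : Fin r → Ω} (hu : Base u) {t : Ω} {ρ : ℝ} (hL : Lim (clF k u) t ρ)
    (hC : Cau (clF k u) t ρ) {y : Ω} (hy : y ∈ clT k u t) {ε : ℝ} (hε : 0 < ε) :
    ∃ P : A k r, ‖y - ev hu.ne t P‖ < ε := by
  rw [← clT_eq] at hy
  obtain ⟨Q, hQ, h⟩ := dense_T (cl_closed _) hL hC hy hε
  have hpos : ∀ i : ℕ, 0 < ‖t‖ ^ i + 1 := fun i => by positivity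
  choose P hP hP' using fun i : ℕ => clF_dense (k := k) hu (hQ i) (div_pos hε (hpos i))
  refine ⟨∑ i ∈ Finset.range (Q.natDegree + 1), P i * mono 0 i 1, ?_⟩
  have h1 : ∀ i, ev hu.ne t (P i) = ev hu.ne 0 (P i) := by
    intro i
    rw [ev_eq_sum, ev_eq_sum]
    refine Finset.sum_congr rfl fun q hq => ?_
    rw [hP i q hq, pow_zero, pow_zero]
  have h2 : ev hu.ne t (∑ i ∈ Finset.range (Q.natDegree + 1), P i * mono 0 i 1) =
      ∑ i ∈ Finset.range (Q.natDegree + 1), ev hu.ne 0 (P i) * t ^ i := by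
    rw [map_sum]
    refine Finset.sum_congr rfl fun i _ => ?_
    rw [map_mul, h1, ev_mono, map_one, mon_zero, one_mul, one_mul]
  have h3 : ‖Q.eval t - ev hu.ne t (∑ i ∈ Finset.range (Q.natDegree + 1), P i * mono 0 i 1)‖ < ε := by
    rw [h2, Polynomial.eval_eq_sum_range, ← Finset.sum_sub_distrib]
    have h4 : ∀ i, ‖Q.coeff i * t ^ i - ev hu.ne 0 (P i) * t ^ i‖ < ε := by
      intro i
      rw [← sub_mul, norm_mul, norm_pow]
      have h5 := hP' i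
      rw [lt_div_iff₀ (hpos i)] at h5
      have h6 : 0 ≤ ‖Q.coeff i - ev hu.ne 0 (P i)‖ := norm_nonneg _
      have h7 : ‖Q.coeff i - ev hu.ne 0 (P i)‖ * ‖t‖ ^ i ≤
          ‖Q.coeff i - ev hu.ne 0 (P i)‖ * (‖t‖ ^ i + 1) :=
        mul_le_mul_of_nonneg_left (by linarith) h6
      exact h7.trans_lt h5
    obtain ⟨i, _, hi⟩ := Finset.exists_max_image (Finset.range (Q.natDegree + 1))
      (fun i => ‖Q.coeff i * t ^ i - ev hu.ne 0 (P i) * t ^ i‖)
      ⟨0, Finset.mem_range.2 (Nat.succ_pos _)⟩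
    exact (Big.sum_le k _ _ (norm_nonneg _) hi).trans_lt (h4 i)
  have h8 : y - ev hu.ne t (∑ i ∈ Finset.range (Q.natDegree + 1), P i * mono 0 i 1) =
      (y - Q.eval t) + (Q.eval t -
        ev hu.ne t (∑ i ∈ Finset.range (Q.natDegree + 1), P i * mono 0 i 1)) := by ring
  rw [h8]
  exact (Big.add_le k _ _).trans_lt (max_lt h h3)

end LUV
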