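import Pool.Agent.LUV.Basic

/-! Project LUV: (G0, G1) finite extensions of closed fields. -/

set_option autoImplicit false

namespace LUV

open Polynomial

variable {k : Type*} [Field k] {Ω : Type*} [NormedField Ω] [Algebra k Ω] [Big k Ω] {r : ℕ}

omit [Big k Ω] in
private theorem closed_nt (M : IntermediateField k Ω) (hnt : ∃ y ∈ M, y ≠ 0 ∧ ‖y‖ ≠ 1) :
    ∃ x : M, 1 < ‖x‖ := by
  obtain ⟨y, hy, hy0, hy1⟩ := hnt
  rcases lt_or_gt_of_ne hy1 with h | h
  · refine ⟨⟨y⁻¹, inv_mem hy⟩, ?_⟩
    show 1 < ‖y⁻¹‖
    rw [norm_inv]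
    exact (one_lt_inv₀ (norm_pos_iff.2 hy0)).2 h
  · exact ⟨⟨y, hy⟩, h⟩

/-- Finite extensions of closed fields are closed. -/
theorem closed_sup_adjoin (M : IntermediateField k Ω) (hM : IsClosed (M : Set Ω))
    (hnt : ∃ y ∈ M, y ≠ 0 ∧ ‖y‖ ≠ 1) (S : Set Ω) (hS : S.Finite)
    (hal : ∀ y ∈ S, IsAlgebraic M y) :
    IsClosed ((M ⊔ IntermediateField.adjoin k S : IntermediateField k Ω) : Set Ω) := by
  have : CompleteSpace Ω := Big.complete k
  let : NontriviallyNormedField M :=
    { (inferInstance : NormedField M) with non_trivial := closed_nt M hnt }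
  have : CompleteSpace M := hM.completeSpace_coe
  have : ContinuousSMul M Ω := ⟨by
    have h : Continuous fun p : M × Ω => (p.1 : Ω) * p.2 := by fun_prop
    exact h⟩
  have : FiniteDimensional M (IntermediateField.adjoin M S) := by
    have := hS.to_subtype
    exact IntermediateField.finiteDimensional_adjoin fun x hx => (hal x hx).isIntegral
  have h1 : IsClosed (((IntermediateField.adjoin M S).toSubalgebra.toSubmodule : Submodule M Ω) :
      Set Ω) := Submodule.closed_of_finiteDimensional _
  have h2 := IntermediateField.restrictScalars_adjoin_eq_sup k M S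
  have h3 : ((M ⊔ IntermediateField.adjoin k S : IntermediateField k Ω) : Set Ω) =
      ((IntermediateField.adjoin M S).toSubalgebra.toSubmodule : Submodule M Ω) := by
    rw [← h2]
    rfl
  rw [h3]
  exact h1

/-- Conjugation is isometric. -/
theorem norm_conj (M : IntermediateField k Ω) (hM : IsClosed (M : Set Ω))
    (hnt : ∃ y ∈ M, y ≠ 0 ∧ ‖y‖ ≠ 1) (N : IntermediateField M Ω) [Algebra.IsAlgebraic M N]
    (σ : N →ₐ[M] Ω) (y : N) : ‖σ y‖ = ‖(y : Ω)‖ := by
  have : CompleteSpace Ω := Big.complete k
  have : IsUltrametricDist Ω := Big.ultra k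
  let : NontriviallyNormedField M :=
    { (inferInstance : NormedField M) with non_trivial := closed_nt M hnt }
  have : CompleteSpace M := hM.completeSpace_coe
  have : IsUltrametricDist M := ⟨fun x y z => IsUltrametricDist.dist_triangle_max (x : Ω) y z⟩
  let f : AbsoluteValue N ℝ :=
    { toFun := fun x => ‖σ x‖
      map_mul' := fun x y => by rw [map_mul, norm_mul]
      nonneg' := fun x => norm_nonneg _
      eq_zero' := fun x => by rw [norm_eq_zero, map_eq_zero]
      add_le' := fun x y => by rw [map_add]; exact norm_add_le _ _ }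
  let g : AbsoluteValue N ℝ :=
    { toFun := fun x => ‖(x : Ω)‖
      map_mul' := fun x y => by
        show ‖(x : Ω) * (y : Ω)‖ = _
        rw [norm_mul]
      nonneg' := fun x => norm_nonneg _
      eq_zero' := fun x => by rw [norm_eq_zero]; exact ZeroMemClass.coe_eq_zero
      add_le' := fun x y => norm_add_le (x : Ω) (y : Ω) }
  have hf : f y = spectralNorm M N y := by
    refine spectralNorm_unique_field_norm_ext (f := f) (fun x => ?_) y
    show ‖σ (algebraMap M N x)‖ = ‖x‖
    rw [AlgHom.commutes]
    rfl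
  have hg : g y = spectralNorm M N y := by
    refine spectralNorm_unique_field_norm_ext (f := g) (fun x => ?_) y
    rfl
  have h : f y = g y := hf.trans hg.symm
  exact h

end LUV
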