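import Pool.Agent.LUV.Basic
import Pool.Agent.LUV.AsBase
import Pool.Agent.LUV.AsStep
import Pool.Agent.LUV.Closed

/-! Project LUV: (S5) towers. -/

set_option autoImplicit false

namespace LUV

open Polynomial

variable {k : Type*} [Field k] {Ω : Type*} [NormedField Ω] [Algebra k Ω] [Big k Ω] {r : ℕ}

omit [Big k Ω] in
private theorem at_norm_ne {u : Fin r → Ω} (hu : Base u) (i : Fin r) : ‖u i‖ ≠ 1 := by
  intro h
  have h1 : wt u (Pi.single i 1) = wt u 0 := by
    rw [map_zero]
    change ∑ j, ((Pi.single i 1 : G r) j : ℝ) * (-Real.log ‖u j‖) = 0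
    rw [Finset.sum_eq_single i]
    · rw [h, Real.log_one, neg_zero, mul_zero]
    · intro j _ hj
      rw [Pi.single_eq_of_ne hj]
      simp
    · intro hi
      exact absurd (Finset.mem_univ i) hi
  have h2 := congrFun (hu.inj h1) i
  rw [Pi.single_eq_same] at h2
  exact one_ne_zero h2

omit [Big k Ω] in
private theorem at_alg (p : ℕ) (hp : 1 < p) (N : IntermediateField k Ω) (z : Ω)
    (h : z ^ p - z ∈ N) : IsAlgebraic N z := by
  apply IsIntegral.isAlgebraic
  refine ⟨X ^ p - (X + C (⟨z ^ p - z, h⟩ : N)), ?_, ?_⟩
  · apply Polynomial.monic_X_pow_sub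
    rw [Polynomial.degree_X_add_C]
    exact_mod_cast hp
  · rw [← Polynomial.aeval_def]
    simp only [map_sub, map_pow, map_add, Polynomial.aeval_X, Polynomial.aeval_C]
    change z ^ p - (z + (z ^ p - z)) = 0
    ring

variable [IsAlgClosed k] (p : ℕ) [Fact p.Prime] [CharP k p]

/-- Towers of Artin-Schreier extensions of a field with one generator have one generator. -/
theorem as_tower {u : Fin r → Ω} (hu : Base u) (hr : 0 < r) {L : IntermediateField k Ω}
    (hLc : IsClosed (L : Set Ω)) (huL : ∀ i, u i ∈ L) (hI : Imm u L)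
    {M N : IntermediateField k Ω} (hM : ∃ x0 ∈ L, M = clT k u x0) (hT : Tow p M N)
    (hNL : N ≤ L) : ∃ t ∈ L, N = clT k u t := by
  induction hT with
  | refl => exact hM
  | step N' z hT' hz ih =>
    obtain ⟨t, ht, hN⟩ := ih (le_sup_left.trans hNL)
    have hzL : z ∈ L := hNL (le_sup_right (a := N')
      (IntermediateField.mem_adjoin_simple_self k z))
    have hin : z ∈ N' → N' ⊔ IntermediateField.adjoin k {z} = N' := fun h =>
      sup_eq_left.2 (IntermediateField.adjoin_le_iff.2 (Set.singleton_subset_iff.2 h))
    by_cases htF : t ∈ clF k u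
    · have h1 : z ∈ N' := by
        rw [hN, clT_of_mem htF] at hz ⊢
        exact as_base p hu huL hI hzL hz
      exact ⟨t, ht, by rw [hin h1, hN]⟩
    · have hz' := hz
      rw [hN] at hz'
      rcases as_step p hu hLc huL hI ht htF hzL hz' with h1 | ⟨z', hz'L, h1, h2⟩
      · exact ⟨t, ht, by rw [hin (by rw [hN]; exact h1), hN]⟩
      · refine ⟨z', hz'L, ?_⟩
        have hle : clT k u t ≤ clT k u z' := clT_le (cl_closed _)
          (fun i => clF_le_clT u z' (u_mem_clF u i)) h2
        apply le_antisymm
        · refine sup_le (hN ▸ hle) ?_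
          rw [IntermediateField.adjoin_le_iff, Set.singleton_subset_iff]
          have h3 : z = (z - z') + z' := by ring
          rw [h3]
          exact add_mem (hle h1) (t_mem_clT u z')
        · have huN : ∀ i, u i ∈ N' := fun i => by
            rw [hN]
            exact clF_le_clT u t (u_mem_clF u i)
          refine clT_le ?_ (fun i => le_sup_left (b := IntermediateField.adjoin k {z}) (huN i)) ?_
          · refine closed_sup_adjoin N' (by rw [hN]; exact cl_closed _)
              ⟨u ⟨0, hr⟩, huN _, hu.ne _, at_norm_ne hu _⟩ {z} (Set.finite_singleton z) ?_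
            rintro y rfl
            exact at_alg p (Fact.out : p.Prime).one_lt N' _ hz
          · have h3 : z' = z - (z - z') := by ring
            rw [h3]
            refine sub_mem (le_sup_right (a := N')
              (IntermediateField.mem_adjoin_simple_self k z)) (le_sup_left (a := N') ?_)
            rw [hN]
            exact h1

end LUV
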