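import Pool.Agent.LUV.Defs

/-! Project LUV: basic facts on closures, evaluation. -/

set_option autoImplicit false

namespace LUV

open Polynomial

variable {k : Type*} [Field k] {Ω : Type*} [NormedField Ω] [Algebra k Ω] {r : ℕ}

theorem cl_closed (S : Set Ω) : IsClosed ((cl k S : IntermediateField k Ω) : Set Ω) :=
  Subfield.isClosed_topologicalClosure _

theorem adjoin_le_cl (S : Set Ω) : IntermediateField.adjoin k S ≤ cl k S := fun _ hx =>
  Subfield.le_topologicalClosure _ hx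

theorem subset_cl (S : Set Ω) : S ⊆ (cl k S : IntermediateField k Ω) := fun _ hx =>
  adjoin_le_cl S (IntermediateField.subset_adjoin k S hx)

theorem cl_le {S : Set Ω} {L : IntermediateField k Ω} (hL : IsClosed (L : Set Ω))
    (h : S ⊆ (L : Set Ω)) : cl k S ≤ L := fun _ hx =>
  Subfield.topologicalClosure_minimal (IntermediateField.adjoin k S).toSubfield
    (t := L.toSubfield) (fun _ hy => IntermediateField.adjoin_le_iff.2 h hy) hL hx

theorem cl_mono {S T : Set Ω} (h : S ⊆ T) : cl k S ≤ cl k T :=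
  cl_le (cl_closed T) (h.trans (subset_cl T))

theorem mem_cl_iff {S : Set Ω} {y : Ω} :
    y ∈ cl k S ↔ ∀ ε : ℝ, 0 < ε → ∃ z ∈ IntermediateField.adjoin k S, ‖y - z‖ < ε := by
  change y ∈ closure ((IntermediateField.adjoin k S : IntermediateField k Ω) : Set Ω) ↔ _
  rw [Metric.mem_closure_iff]
  simp only [dist_eq_norm]
  rfl

theorem cl_eq_of_closed {L : IntermediateField k Ω} (hL : IsClosed (L : Set Ω)) :
    cl k (L : Set Ω) = L :=
  le_antisymm (cl_le hL le_rfl) (subset_cl _)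

theorem cl_insert_cl (S : Set Ω) (t : Ω) :
    cl k (insert t (cl k S : Set Ω)) = cl k (insert t S) := by
  apply le_antisymm
  · refine cl_le (cl_closed _) ?_
    rintro y (rfl | hy)
    · exact subset_cl _ (Set.mem_insert _ _)
    · exact cl_mono (Set.subset_insert _ _) hy
  · exact cl_mono (Set.insert_subset_insert (subset_cl S))

theorem clT_eq (u : Fin r → Ω) (t : Ω) : cl k (insert t (clF k u : Set Ω)) = clT k u t :=
  cl_insert_cl _ _

theorem u_mem_clF (u : Fin r → Ω) (i : Fin r) : u i ∈ clF k u := subset_cl _ ⟨i, rfl⟩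

theorem clF_le_clT (u : Fin r → Ω) (t : Ω) : clF k u ≤ clT k u t := cl_mono (Set.subset_insert _ _)

theorem t_mem_clT (u : Fin r → Ω) (t : Ω) : t ∈ clT k u t := subset_cl _ (Set.mem_insert _ _)

theorem clT_le {u : Fin r → Ω} {t : Ω} {L : IntermediateField k Ω} (hL : IsClosed (L : Set Ω))
    (hu : ∀ i, u i ∈ L) (ht : t ∈ L) : clT k u t ≤ L := by
  refine cl_le hL ?_
  rintro y (rfl | ⟨i, rfl⟩)
  · exact ht
  · exact hu i

theorem clF_le {u : Fin r → Ω} {L : IntermediateField k Ω} (hL : IsClosed (L : Set Ω))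
    (hu : ∀ i, u i ∈ L) : clF k u ≤ L := by
  refine cl_le hL ?_
  rintro y ⟨i, rfl⟩
  exact hu i

theorem clT_of_mem {u : Fin r → Ω} {t : Ω} (ht : t ∈ clF k u) : clT k u t = clF k u :=
  le_antisymm (clT_le (cl_closed _) (u_mem_clF u) ht) (clF_le_clT u t)

theorem mon_mem {u : Fin r → Ω} {L : IntermediateField k Ω} (hu : ∀ i, u i ∈ L) (b : G r) :
    mon u b ∈ L := by
  rw [mon]
  exact prod_mem fun i _ => zpow_mem (hu i) _

theorem psum_mem {u : Fin r → Ω} {L : IntermediateField k Ω} (hu : ∀ i, u i ∈ L)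
    (c : ℕ → k) (g : ℕ → G r) (m : ℕ) : psum u c g m ∈ L :=
  sum_mem fun i _ => mul_mem (L.algebraMap_mem _) (mon_mem hu _)

theorem psum_succ (u : Fin r → Ω) (c : ℕ → k) (g : ℕ → G r) (m : ℕ) :
    psum u c g (m + 1) = psum u c g m + algebraMap k Ω (c m) * mon u (g m) := by
  rw [psum, Finset.sum_range_succ]; rfl

theorem ev_shift {u : Fin r → Ω} (hu : ∀ i, u i ≠ 0) (t : Ω) (c : ℕ → k) (g : ℕ → G r) (m : ℕ)
    (P : A k r) : ev hu (t - psum u c g m) (shift c g m P) = ev hu t P := by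
  induction m with
  | zero => simp [psum, shift]
  | succ m ih =>
    rw [shift, ev_rho, ← ih, psum_succ]
    congr 1
    ring_nf

theorem ev_mem {u : Fin r → Ω} (hu : ∀ i, u i ≠ 0) {L : IntermediateField k Ω}
    (huL : ∀ i, u i ∈ L) {x : Ω} (hx : x ∈ L) (P : A k r) : ev hu x P ∈ L := by
  rw [ev_eq_sum]
  exact sum_mem fun q _ => mul_mem (L.algebraMap_mem _) (mul_mem (mon_mem huL _) (pow_mem hx _))

theorem coeff_toPoly_mem {u : Fin r → Ω} {L : IntermediateField k Ω}
    (huL : ∀ i, u i ∈ L) (P : A k r) (i : ℕ) : (toPoly u P).coeff i ∈ L := by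
  rw [toPoly, Polynomial.finsetSum_coeff]
  refine sum_mem fun q _ => ?_
  rw [Polynomial.coeff_monomial]
  split_ifs
  · exact mul_mem (L.algebraMap_mem _) (mon_mem huL _)
  · exact zero_mem _

namespace Big

variable (k) [Big k Ω]
include k

theorem add_le (x y : Ω) : ‖x + y‖ ≤ max ‖x‖ ‖y‖ :=
  haveI : IsUltrametricDist Ω := Big.ultra k
  IsUltrametricDist.norm_add_le_max x y

theorem sub_le (x y : Ω) : ‖x - y‖ ≤ max ‖x‖ ‖y‖ := by
  rw [sub_eq_add_neg, ← norm_neg y]
  exact add_le k x (-y)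

theorem sub_le' {x y z : Ω} {B : ℝ} (h1 : ‖x - y‖ ≤ B) (h2 : ‖y - z‖ ≤ B) : ‖x - z‖ ≤ B := by
  rw [show x - z = (x - y) + (y - z) by ring]
  exact (add_le k _ _).trans (max_le h1 h2)

theorem norm_eq {x y : Ω} (h : ‖x - y‖ < ‖y‖) : ‖x‖ = ‖y‖ := by
  have h1 : ‖x‖ ≤ ‖y‖ := by
    rw [show x = (x - y) + y by ring]
    exact (add_le k _ _).trans (max_le h.le le_rfl)
  have h2 : ‖y‖ ≤ max ‖x‖ ‖x - y‖ := by
    calc ‖y‖ = ‖x - (x - y)‖ := by congr 1; ring
      _ ≤ _ := sub_le k _ _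
  rcases le_max_iff.1 h2 with h3 | h3
  · exact le_antisymm h1 h3
  · exact absurd h3 (not_le.2 h)

theorem sum_le {ι : Type*} (s : Finset ι) (f : ι → Ω) {B : ℝ} (hB : 0 ≤ B)
    (h : ∀ i ∈ s, ‖f i‖ ≤ B) : ‖∑ i ∈ s, f i‖ ≤ B := by
  classical
  induction s using Finset.induction_on with
  | empty => simpa using hB
  | insert a s ha ih =>
    rw [Finset.sum_insert ha]
    exact (add_le k _ _).trans (max_le (h a (Finset.mem_insert_self _ _))
      (ih fun i hi => h i (Finset.mem_insert_of_mem hi)))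

theorem norm_c_le (c : k) : ‖algebraMap k Ω c‖ ≤ 1 := by
  by_cases h : c = 0
  · simp [h]
  · exact (Big.norm_k c h).le

end Big

end LUV
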