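import Pool.Agent.LUV.Basic
import Pool.Agent.LUV.Closed

/-! Project LUV: (G7) closures and finite extensions. -/

set_option autoImplicit false

namespace LUV

open Polynomial

variable {k : Type*} [Field k] {Ω : Type*} [NormedField Ω] [Algebra k Ω] [Big k Ω] {r : ℕ}

theorem cl_sup (S T : Set Ω) (hT : T.Finite) (hnt : ∃ y ∈ cl k S, y ≠ 0 ∧ ‖y‖ ≠ 1)
    (hal : ∀ y ∈ T, IsAlgebraic (cl k S) y) :
    cl k S ⊔ IntermediateField.adjoin k T = cl k (S ∪ T) := by
  apply le_antisymm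
  · refine sup_le (cl_mono Set.subset_union_left) ?_
    rw [IntermediateField.adjoin_le_iff]
    exact Set.subset_union_right.trans (subset_cl _)
  · refine cl_le (closed_sup_adjoin (cl k S) (cl_closed S) hnt T hT hal) ?_
    rintro y (hy | hy)
    · exact (le_sup_left : cl k S ≤ cl k S ⊔ IntermediateField.adjoin k T) (subset_cl S hy)
    · exact (le_sup_right : IntermediateField.adjoin k T ≤ cl k S ⊔ IntermediateField.adjoin k T)
        (IntermediateField.subset_adjoin k T hy)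

theorem ClSup_nontriv {u : Fin r → Ω} (hu : Base u) (hr : 0 < r) {M : IntermediateField k Ω}
    (huM : ∀ i, u i ∈ M) : ∃ y ∈ M, y ≠ 0 ∧ ‖y‖ ≠ 1 := by
  refine ⟨u ⟨0, hr⟩, huM _, hu.ne _, fun h => ?_⟩
  have h1 : wt u (Pi.single ⟨0, hr⟩ 1) = wt u 0 := by
    rw [map_zero]
    change ∑ i, (((Pi.single (⟨0, hr⟩ : Fin r) (1 : ℤ) : Fin r → ℤ) i : ℤ) : ℝ) *
      (-Real.log ‖u i‖) = 0
    refine Finset.sum_eq_zero fun i _ => ?_
    by_cases hi : i = ⟨0, hr⟩
    · rw [hi, h, Real.log_one, neg_zero, mul_zero]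
    · rw [Pi.single_eq_of_ne hi, Int.cast_zero, zero_mul]
  have h2 := congrFun (hu.inj h1) ⟨0, hr⟩
  rw [Pi.single_eq_same] at h2
  exact one_ne_zero h2

theorem clT_sup {u : Fin r → Ω} (hu : Base u) (hr : 0 < r) (x0 : Ω) {l : ℕ} (hl : 0 < l)
    {x : Fin r → Ω} (hx : ∀ i, x i ^ l = u i) :
    clT k u x0 ⊔ IntermediateField.adjoin k (Set.range x) = clT k x x0 := by
  have huM : ∀ i, u i ∈ clT k u x0 := fun i => clF_le_clT u x0 (u_mem_clF u i)
  have hal : ∀ y ∈ Set.range x, IsAlgebraic (clT k u x0) y := by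
    rintro _ ⟨i, rfl⟩
    have h1 : IsIntegral (clT k u x0) (x i ^ l) := by
      rw [hx i]
      exact isIntegral_algebraMap (R := clT k u x0) (A := Ω) (x := (⟨u i, huM i⟩ : clT k u x0))
    exact (IsIntegral.of_pow hl h1).isAlgebraic
  have h := cl_sup (k := k) (insert x0 (Set.range u)) (Set.range x) (Set.finite_range x)
    (ClSup_nontriv hu hr huM) hal
  refine h.trans (le_antisymm ?_ (cl_mono ?_))
  · refine cl_le (cl_closed _) ?_
    have hxi : ∀ i, x i ∈ clT k x x0 := fun i => clF_le_clT x x0 (u_mem_clF x i)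
    rintro y ((rfl | ⟨i, rfl⟩) | ⟨i, rfl⟩)
    · exact t_mem_clT x y
    · rw [← hx i]
      exact pow_mem (hxi i) l
    · exact hxi i
  · rintro y (rfl | hy)
    · exact Or.inl (Set.mem_insert _ _)
    · exact Or.inr hy

theorem nontriv_of_base {u : Fin r → Ω} (hu : Base u) (hr : 0 < r) {M : IntermediateField k Ω}
    (huM : ∀ i, u i ∈ M) : ∃ y ∈ M, y ≠ 0 ∧ ‖y‖ ≠ 1 :=
  ClSup_nontriv hu hr huM

end LUV
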