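import Pool.Agent.LUV.Basic

/-! Project LUV: (A9) degrees of nearly inverse polynomials on a disc. -/

set_option autoImplicit false

namespace LUV

open Polynomial

/-- `n` is the largest index at which the norm `B` on the disc of radius `ρ` is attained. -/
private def CDTop {Ω : Type*} [NormedField Ω] (ρ B : ℝ) (P : Polynomial Ω) (n : ℕ) : Prop :=
  (∀ i, ‖P.coeff i‖ * ρ ^ i ≤ B) ∧ (∀ i, n < i → ‖P.coeff i‖ * ρ ^ i < B) ∧
    ‖P.coeff n‖ * ρ ^ n = B

section

variable (k : Type*) [Field k] {Ω : Type*} [NormedField Ω] [Algebra k Ω] [Big k Ω]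
include k

private theorem cd_sum_lt {ι : Type*} (s : Finset ι) (f : ι → Ω) {B : ℝ} (hB : 0 < B)
    (h : ∀ i ∈ s, ‖f i‖ < B) : ‖∑ i ∈ s, f i‖ < B := by
  classical
  induction s using Finset.induction_on with
  | empty => simpa using hB
  | insert a s ha ih =>
    rw [Finset.sum_insert ha]
    exact (Big.add_le k _ _).trans_lt (max_lt (h a (Finset.mem_insert_self _ _))
      (ih fun i hi => h i (Finset.mem_insert_of_mem hi)))

private theorem cd_sum_eq {ι : Type*} [DecidableEq ι] (s : Finset ι) (f : ι → Ω) {B : ℝ}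
    (hB : 0 < B) {a : ι} (ha : a ∈ s) (hfa : ‖f a‖ = B) (h : ∀ i ∈ s, i ≠ a → ‖f i‖ < B) :
    ‖∑ i ∈ s, f i‖ = B := by
  rw [← hfa]
  apply Big.norm_eq k
  rw [← Finset.add_sum_erase s f ha, add_sub_cancel_left, hfa]
  exact cd_sum_lt k _ _ hB fun i hi => h i (Finset.mem_of_mem_erase hi) (Finset.ne_of_mem_erase hi)

private theorem cd_mul {ρ B C : ℝ} (hρ : 0 < ρ) (hB : 0 < B) (hC : 0 < C) {P Q : Polynomial Ω}
    {n m : ℕ} (hP : CDTop ρ B P n) (hQ : CDTop ρ C Q m) : CDTop ρ (B * C) (P * Q) (n + m) := by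
  have hterm : ∀ a b : ℕ, ‖P.coeff a * Q.coeff b‖ * ρ ^ (a + b) =
      (‖P.coeff a‖ * ρ ^ a) * (‖Q.coeff b‖ * ρ ^ b) := by
    intro a b
    rw [norm_mul, pow_add]
    ring
  have hlt : ∀ a b : ℕ, (n < a ∨ m < b) → ‖P.coeff a * Q.coeff b‖ * ρ ^ (a + b) < B * C := by
    intro a b hab
    rw [hterm]
    rcases hab with h | h
    · calc (‖P.coeff a‖ * ρ ^ a) * (‖Q.coeff b‖ * ρ ^ b) ≤ (‖P.coeff a‖ * ρ ^ a) * C :=
            mul_le_mul_of_nonneg_left (hQ.1 b) (by positivity)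
        _ < B * C := mul_lt_mul_of_pos_right (hP.2.1 a h) hC
    · calc (‖P.coeff a‖ * ρ ^ a) * (‖Q.coeff b‖ * ρ ^ b) ≤ B * (‖Q.coeff b‖ * ρ ^ b) :=
            mul_le_mul_of_nonneg_right (hP.1 a) (by positivity)
        _ < B * C := mul_lt_mul_of_pos_left (hQ.2.1 b h) hB
  have hBC : 0 < B * C := mul_pos hB hC
  refine ⟨fun s => ?_, fun s hs => ?_, ?_⟩
  · rw [Polynomial.coeff_mul, ← le_div_iff₀ (by positivity)]
    apply Big.sum_le k _ _ (by positivity)
    rintro ⟨a, b⟩ hab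
    rw [Finset.HasAntidiagonal.mem_antidiagonal] at hab
    simp only at hab
    rw [le_div_iff₀ (by positivity), ← hab, hterm]
    exact mul_le_mul (hP.1 a) (hQ.1 b) (by positivity) hB.le
  · rw [Polynomial.coeff_mul, ← lt_div_iff₀ (by positivity)]
    apply cd_sum_lt k _ _ (by positivity)
    rintro ⟨a, b⟩ hab
    rw [Finset.HasAntidiagonal.mem_antidiagonal] at hab
    simp only at hab
    rw [lt_div_iff₀ (by positivity), ← hab]
    exact hlt a b (by omega)
  · rw [Polynomial.coeff_mul, ← eq_div_iff (by positivity)]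
    apply cd_sum_eq k _ _ (by positivity) (a := (n, m)) (by simp)
    · show ‖P.coeff n * Q.coeff m‖ = _
      rw [eq_div_iff (by positivity), hterm, hP.2.2, hQ.2.2]
    · rintro ⟨a, b⟩ hab hne
      rw [Finset.HasAntidiagonal.mem_antidiagonal] at hab
      simp only at hab
      show ‖P.coeff a * Q.coeff b‖ < _
      rw [lt_div_iff₀ (by positivity), ← hab]
      apply hlt a b
      by_contra hcon
      push Not at hcon
      apply hne
      rw [Prod.mk.injEq]
      omega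

private theorem cd_pow {ρ B : ℝ} (hρ : 0 < ρ) (hB : 0 < B) {P : Polynomial Ω} {n : ℕ}
    (hP : CDTop ρ B P n) (j : ℕ) : CDTop ρ (B ^ j) (P ^ j) (j * n) := by
  induction j with
  | zero =>
    refine ⟨fun i => ?_, fun i hi => ?_, ?_⟩
    · rw [pow_zero, Polynomial.coeff_one]
      split_ifs with h
      · subst h
        simp
      · simp
    · rw [pow_zero, Polynomial.coeff_one, if_neg (by omega)]
      simp
    · simp
  | succ j ih =>
    have := cd_mul k hρ (pow_pos hB j) hB ih hP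
    rw [pow_succ, pow_succ, Nat.succ_mul]
    exact this

end

private theorem cd_exists {Ω : Type*} [NormedField Ω] {ρ : ℝ} (hρ : 0 < ρ) {P : Polynomial Ω}
    (h : ∀ i, ‖P.coeff i‖ * ρ ^ i ≤ ρ) (h1 : ‖P.coeff 1‖ = 1) :
    ∃ d, 1 ≤ d ∧ CDTop ρ ρ P d := by
  classical
  set s := P.support.filter (fun i => ‖P.coeff i‖ * ρ ^ i = ρ) with hs
  have h1s : 1 ∈ s := by
    rw [hs, Finset.mem_filter, Polynomial.mem_support_iff]
    constructor
    · intro h0
      rw [h0, norm_zero] at h1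
      exact zero_ne_one h1
    · rw [h1, one_mul, pow_one]
  refine ⟨s.max' ⟨1, h1s⟩, Finset.le_max' _ _ h1s, h, ?_, ?_⟩
  · intro i hi
    refine lt_of_le_of_ne (h i) fun heq => ?_
    have : i ∈ s := by
      rw [hs, Finset.mem_filter, Polynomial.mem_support_iff]
      refine ⟨fun h0 => ?_, heq⟩
      rw [h0, norm_zero, zero_mul] at heq
      exact hρ.ne heq
    exact absurd (Finset.le_max' _ _ this) (not_le.2 hi)
  · exact (Finset.mem_filter.1 (Finset.max'_mem s ⟨1, h1s⟩)).2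

/-- Composition of two polynomials mapping the disc of radius `ρ` to itself, being close to the
identity, forces both to be linear up to smaller terms. -/
theorem comp_deg (k : Type*) [Field k] {Ω : Type*} [NormedField Ω] [Algebra k Ω] [Big k Ω]
    (φ ψ : Polynomial Ω) {ρ : ℝ} (hρ : 0 < ρ) (hφ0 : φ.coeff 0 = 0)
    (hφ : ∀ i, ‖φ.coeff i‖ * ρ ^ i ≤ ρ) (hψ0 : ψ.coeff 0 = 0)
    (hψ : ∀ i, ‖ψ.coeff i‖ * ρ ^ i ≤ ρ)
    (hc : ∀ i, ‖(ψ.comp φ - X).coeff i‖ * ρ ^ i < ρ) :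
    ∀ i, 2 ≤ i → ‖φ.coeff i‖ * ρ ^ i < ρ := by
  classical
  have hco : ∀ P : Polynomial Ω, P.coeff 1 = (derivative P).eval 0 := by
    intro P
    rw [← Polynomial.coeff_zero_eq_eval_zero, Polynomial.coeff_derivative]
    simp
  have h11 : (ψ.comp φ).coeff 1 = φ.coeff 1 * ψ.coeff 1 := by
    rw [hco, hco φ, hco ψ, Polynomial.derivative_comp, Polynomial.eval_mul, Polynomial.eval_comp,
      ← Polynomial.coeff_zero_eq_eval_zero φ, hφ0]
  have hle : ∀ {P : Polynomial Ω}, (∀ i, ‖P.coeff i‖ * ρ ^ i ≤ ρ) → ‖P.coeff 1‖ ≤ 1 := by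
    intro P hP
    have := hP 1
    rw [pow_one] at this
    exact (mul_le_iff_le_one_left hρ).1 this
  have hn1 : ‖φ.coeff 1 * ψ.coeff 1‖ = 1 := by
    have h1 := hc 1
    rw [Polynomial.coeff_sub, Polynomial.coeff_X_one, pow_one, h11] at h1
    have h2 : ‖φ.coeff 1 * ψ.coeff 1 - 1‖ < ‖(1 : Ω)‖ := by
      rw [norm_one]
      exact (mul_lt_iff_lt_one_left hρ).1 h1
    rw [Big.norm_eq k h2, norm_one]
  rw [norm_mul] at hn1
  have hφ1 : ‖φ.coeff 1‖ = 1 := by
    refine le_antisymm (hle hφ) ?_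
    rw [← hn1]
    exact mul_le_of_le_one_right (norm_nonneg _) (hle hψ)
  have hψ1 : ‖ψ.coeff 1‖ = 1 := by
    rw [hφ1, one_mul] at hn1
    exact hn1
  obtain ⟨d, hd1, hd⟩ := cd_exists hρ hφ hφ1
  obtain ⟨e, he1, he⟩ := cd_exists hρ hψ hψ1
  have hcoeff : ∀ s, (ψ.comp φ).coeff s = ∑ j ∈ ψ.support, ψ.coeff j * (φ ^ j).coeff s := by
    intro s
    rw [Polynomial.comp_eq_sum_left, Polynomial.sum_def, Polynomial.finsetSum_coeff]
    exact Finset.sum_congr rfl fun j _ => Polynomial.coeff_C_mul _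
  have hmain : ‖(ψ.comp φ).coeff (e * d)‖ * ρ ^ (e * d) = ρ := by
    rw [hcoeff, ← eq_div_iff (by positivity)]
    have hterm : ∀ j, ‖ψ.coeff j * (φ ^ j).coeff (e * d)‖ * ρ ^ (e * d) =
        ‖ψ.coeff j‖ * (‖(φ ^ j).coeff (e * d)‖ * ρ ^ (e * d)) := by
      intro j
      rw [norm_mul]
      ring
    apply cd_sum_eq k _ _ (by positivity) (a := e)
    · rw [Polynomial.mem_support_iff]
      intro h0
      have := he.2.2
      rw [h0, norm_zero, zero_mul] at this
      exact hρ.ne this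
    · rw [eq_div_iff (by positivity), hterm, (cd_pow k hρ hρ hd e).2.2, he.2.2]
    · intro j hj hje
      rw [lt_div_iff₀ (by positivity), hterm]
      rcases lt_or_gt_of_ne hje with hlt | hgt
      · have h1 : ‖(φ ^ j).coeff (e * d)‖ * ρ ^ (e * d) < ρ ^ j :=
          (cd_pow k hρ hρ hd j).2.1 _ (Nat.mul_lt_mul_of_pos_right hlt (by omega))
        have h2 : 0 < ‖ψ.coeff j‖ := norm_pos_iff.2 (Polynomial.mem_support_iff.1 hj)
        calc _ < ‖ψ.coeff j‖ * ρ ^ j := mul_lt_mul_of_pos_left h1 h2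
          _ ≤ ρ := hψ j
      · have h1 : ‖(φ ^ j).coeff (e * d)‖ * ρ ^ (e * d) ≤ ρ ^ j := (cd_pow k hρ hρ hd j).1 _
        calc _ ≤ ‖ψ.coeff j‖ * ρ ^ j := mul_le_mul_of_nonneg_left h1 (norm_nonneg _)
          _ < ρ := he.2.1 j hgt
  have hde : e * d = 1 := by
    by_contra hne
    have h1 := hc (e * d)
    rw [Polynomial.coeff_sub, Polynomial.coeff_X, if_neg (fun h => hne h.symm), sub_zero, hmain] at h1
    exact lt_irrefl _ h1
  have hd' : d = 1 := Nat.eq_one_of_mul_eq_one_left hde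
  intro i hi
  exact hd.2.1 i (by omega)

end LUV
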