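import Pool.Agent.LUV.Basic
import Pool.Agent.LUV.DecSub

/-! Project LUV: (D4) conjugates of generators. -/

set_option autoImplicit false

namespace LUV

open Polynomial

variable {k : Type*} [Field k] {Ω : Type*} [NormedField Ω] [Algebra k Ω] [Big k Ω]

/-- An isometric automorphism of `L'` preserving `F'` maps generators to generators. -/
theorem conj_gen {F' L' : IntermediateField k Ω} (hL' : IsClosed (L' : Set Ω)) (hFL : F' ≤ L')
    (σ : L' ≃ₐ[k] L') (hσ : ∀ y : L', ‖((σ y : L') : Ω)‖ = ‖(y : Ω)‖)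
    (hσF : ∀ y : L', (y : Ω) ∈ F' ↔ ((σ y : L') : Ω) ∈ F') {t : L'}
    (ht : cl k (insert (t : Ω) (F' : Set Ω)) = L') :
    cl k (insert ((σ t : L') : Ω) (F' : Set Ω)) = L' := by
  set M : IntermediateField k Ω := cl k (insert ((σ t : L') : Ω) (F' : Set Ω)) with hM
  have hML : M ≤ L' := by
    refine cl_le hL' ?_
    rintro y (rfl | hy)
    · exact (σ t).2
    · exact hFL hy
  let P : IntermediateField k Ω :=
    (M.comap (L'.val.comp (σ : L' →ₐ[k] L'))).map L'.val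
  have hP : ∀ x : Ω, x ∈ P ↔ ∃ w : L', ((σ w : L') : Ω) ∈ M ∧ (w : Ω) = x := by
    intro x
    constructor
    · rintro ⟨w, hw, rfl⟩
      exact ⟨w, hw, rfl⟩
    · rintro ⟨w, hw, rfl⟩
      exact ⟨w, hw, rfl⟩
  have hPL : P ≤ L' := by
    intro x hx
    obtain ⟨w, _, rfl⟩ := (hP x).1 hx
    exact w.2
  have hPc : IsClosed (P : Set Ω) := by
    rw [← closure_subset_iff_isClosed]
    intro x hx
    have hxL : x ∈ L' := closure_minimal (s := (P : Set Ω)) hPL hL' hx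
    refine (hP x).2 ⟨⟨x, hxL⟩, ?_, rfl⟩
    have h1 : ((σ ⟨x, hxL⟩ : L') : Ω) ∈ closure (M : Set Ω) := by
      rw [Metric.mem_closure_iff]
      intro ε hε
      obtain ⟨y, hy, hxy⟩ := Metric.mem_closure_iff.1 hx ε hε
      obtain ⟨w, hw, rfl⟩ := (hP y).1 hy
      refine ⟨((σ w : L') : Ω), hw, ?_⟩
      rw [dist_eq_norm] at hxy ⊢
      have h2 := hσ (⟨x, hxL⟩ - w)
      rw [map_sub] at h2
      rw [show ((σ ⟨x, hxL⟩ : L') : Ω) - ((σ w : L') : Ω) =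
        ((σ ⟨x, hxL⟩ - σ w : L') : Ω) from rfl, h2]
      exact hxy
    exact (cl_closed _).closure_subset h1
  have hLP : L' ≤ P := by
    rw [← ht]
    refine cl_le hPc ?_
    rintro y (rfl | hy)
    · exact (hP _).2 ⟨t, subset_cl _ (Set.mem_insert _ _), rfl⟩
    · refine (hP _).2 ⟨⟨y, hFL hy⟩, subset_cl _ (Set.mem_insert_of_mem _ ?_), rfl⟩
      exact (hσF ⟨y, hFL hy⟩).1 hy
  refine le_antisymm hML fun y hy => ?_
  obtain ⟨w, hw, hwe⟩ := (hP _).1 (hLP (σ.symm ⟨y, hy⟩).2)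
  have h3 : w = σ.symm ⟨y, hy⟩ := Subtype.ext hwe
  rw [h3, AlgEquiv.apply_symm_apply] at hw
  exact hw

theorem conj_lim {F' L' : IntermediateField k Ω} (hFL : F' ≤ L')
    (σ : L' ≃ₐ[k] L') (hσ : ∀ y : L', ‖((σ y : L') : Ω)‖ = ‖(y : Ω)‖)
    (hσF : ∀ y : L', (y : Ω) ∈ F' ↔ ((σ y : L') : Ω) ∈ F') {t : L'} {ρ : ℝ}
    (ht : Lim F' (t : Ω) ρ) : Lim F' ((σ t : L') : Ω) ρ := by
  have key : ∀ w : L', ‖((σ t : L') : Ω) - ((σ w : L') : Ω)‖ = ‖(t : Ω) - (w : Ω)‖ := by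
    intro w
    have h2 := hσ (t - w)
    rw [map_sub] at h2
    exact h2
  refine ⟨ht.pos, fun b hb => ?_, fun R hR => ?_⟩
  · set w : L' := σ.symm ⟨b, hFL hb⟩ with hw
    have h1 : σ w = ⟨b, hFL hb⟩ := AlgEquiv.apply_symm_apply _ _
    have h2 : (w : Ω) ∈ F' := (hσF w).2 (by rw [h1]; exact hb)
    have h3 := key w
    rw [h1] at h3
    rw [h3]
    exact ht.lt _ h2
  · obtain ⟨b, hb, hb2⟩ := ht.app R hR
    refine ⟨((σ ⟨b, hFL hb⟩ : L') : Ω), (hσF ⟨b, hFL hb⟩).1 hb, ?_⟩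
    rw [key]
    exact hb2

end LUV
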