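import Pool.Agent.LUV.Basic
import Pool.Agent.LUV.DecSub

/-! Project LUV: (D3) the automorphism. -/

set_option autoImplicit false

namespace LUV

open Polynomial

variable {k : Type*} [Field k] {Ω : Type*} [NormedField Ω] [Algebra k Ω] [Big k Ω]

section aux

variable {x : Ω} {l : ℕ} {L L' : IntermediateField k Ω}

/-- coefficients -/
private noncomputable def cf (hD : Dec x l L L') (y : L') : Fin l → Ω :=
  Classical.choose (hD.ex y y.2)

omit [Big k Ω] in
private theorem cf_mem (hD : Dec x l L L') (y : L') (a : Fin l) : cf hD y a ∈ L :=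
  (Classical.choose_spec (hD.ex y y.2)).1 a

omit [Big k Ω] in
private theorem cf_eq (hD : Dec x l L L') (y : L') :
    (y : Ω) = ∑ a : Fin l, x ^ (a : ℕ) * cf hD y a :=
  (Classical.choose_spec (hD.ex y y.2)).2

/-- the map on coefficients -/
private noncomputable def phi (hD : Dec x l L L') (ζ : k) (y : L') : Ω :=
  ∑ a : Fin l, algebraMap k Ω (ζ ^ (a : ℕ)) * (x ^ (a : ℕ) * cf hD y a)

private theorem phi_eq (hD : Dec x l L L') (ζ : k) (y : L') {f : Fin l → Ω} (hf : ∀ a, f a ∈ L)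
    (h : (y : Ω) = ∑ a : Fin l, x ^ (a : ℕ) * f a) :
    phi hD ζ y = ∑ a : Fin l, algebraMap k Ω (ζ ^ (a : ℕ)) * (x ^ (a : ℕ) * f a) := by
  have h1 : cf hD y = f := dec_unique hD (cf_mem hD y) hf (by rw [← cf_eq, h])
  rw [phi, h1]

private theorem phi_add (hD : Dec x l L L') (ζ : k) (y z : L') :
    phi hD ζ (y + z) = phi hD ζ y + phi hD ζ z := by
  rw [phi_eq hD ζ (y + z) (f := fun a => cf hD y a + cf hD z a)
    (fun a => add_mem (cf_mem hD y a) (cf_mem hD z a)), phi, phi, ← Finset.sum_add_distrib]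
  · exact Finset.sum_congr rfl fun a _ => by ring
  · have h1 : ((y + z : L') : Ω) = (y : Ω) + (z : Ω) := rfl
    rw [h1, cf_eq hD y, cf_eq hD z, ← Finset.sum_add_distrib]
    exact Finset.sum_congr rfl fun a _ => by ring

private theorem phi_zero (hD : Dec x l L L') (ζ : k) : phi hD ζ 0 = 0 := by
  have h := phi_add hD ζ 0 0
  rw [add_zero] at h
  exact left_eq_add.1 h

/-- the additive map -/
private noncomputable def phiAdd (hD : Dec x l L L') (ζ : k) : L' →+ Ω where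
  toFun := phi hD ζ
  map_zero' := phi_zero hD ζ
  map_add' := phi_add hD ζ

private theorem phi_single (hD : Dec x l L L') {ζ : k} (hζ : ζ ^ l = 1) (y : L') (n : ℕ) {g : Ω}
    (hg : g ∈ L) (h : (y : Ω) = x ^ n * g) :
    phi hD ζ y = algebraMap k Ω (ζ ^ n) * (x ^ n * g) := by
  classical
  have hn : n = n % l + l * (n / l) := (Nat.mod_add_div n l).symm
  set j : Fin l := ⟨n % l, Nat.mod_lt _ hD.pos⟩ with hj
  have hx : x ^ n * g = x ^ (j : ℕ) * ((x ^ l) ^ (n / l) * g) := by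
    conv_lhs => rw [hn, pow_add, pow_mul]
    rw [mul_assoc]
  have hz : ζ ^ n = ζ ^ (j : ℕ) := by
    conv_lhs => rw [hn, pow_add, pow_mul, hζ, one_pow, mul_one]
  have hsum : ∀ (c : ℕ → Ω) (v : Ω),
      ∑ a : Fin l, c a * (x ^ (a : ℕ) * (if a = j then v else 0)) = c j * (x ^ (j : ℕ) * v) := by
    intro c v
    rw [Finset.sum_eq_single j]
    · rw [if_pos rfl]
    · intro b _ hb
      rw [if_neg hb, mul_zero, mul_zero]
    · intro hj'
      exact absurd (Finset.mem_univ j) hj'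
  rw [phi_eq hD ζ y (f := fun a => if a = j then (x ^ l) ^ (n / l) * g else 0)]
  · rw [hsum (fun a => algebraMap k Ω (ζ ^ a)), hx, hz]
  · intro a
    split_ifs
    · exact mul_mem (pow_mem hD.xpow _) hg
    · exact L.zero_mem
  · have h2 := hsum (fun _ => 1) ((x ^ l) ^ (n / l) * g)
    simp only [one_mul] at h2
    rw [h2, h, hx]

private theorem phi_mul (hD : Dec x l L L') {ζ : k} (hζ : ζ ^ l = 1) (y z : L') :
    phi hD ζ (y * z) = phi hD ζ y * phi hD ζ z := by
  have hmem : ∀ (n : ℕ) (g : Ω), g ∈ L → x ^ n * g ∈ L' := fun n g hg =>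
    mul_mem (pow_mem hD.xmem n) (hD.le hg)
  set T : Fin l → Fin l → L' := fun a b =>
    ⟨x ^ ((a : ℕ) + (b : ℕ)) * (cf hD y a * cf hD z b),
      hmem _ _ (mul_mem (cf_mem hD y a) (cf_mem hD z b))⟩ with hT
  have h1 : y * z = ∑ a : Fin l, ∑ b : Fin l, T a b := by
    apply Subtype.ext
    have h2 : ((y * z : L') : Ω) = (y : Ω) * (z : Ω) := rfl
    have h3 : ((∑ a : Fin l, ∑ b : Fin l, T a b : L') : Ω) =
        ∑ a : Fin l, ∑ b : Fin l, (T a b : Ω) := by
      rw [AddSubmonoidClass.coe_finsetSum]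
      exact Finset.sum_congr rfl fun a _ => AddSubmonoidClass.coe_finsetSum _ _
    rw [h2, h3, cf_eq hD y, cf_eq hD z, Finset.sum_mul_sum]
    refine Finset.sum_congr rfl fun a _ => Finset.sum_congr rfl fun b _ => ?_
    simp only [hT]
    rw [pow_add]
    ring
  have h4 : phi hD ζ (y * z) = ∑ a : Fin l, ∑ b : Fin l, phi hD ζ (T a b) := by
    rw [h1]
    change phiAdd hD ζ _ = _
    rw [map_sum]
    refine Finset.sum_congr rfl fun a _ => ?_
    rw [map_sum]
    rfl
  rw [h4, phi, phi, Finset.sum_mul_sum]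
  refine Finset.sum_congr rfl fun a _ => Finset.sum_congr rfl fun b _ => ?_
  rw [phi_single hD hζ (T a b) ((a : ℕ) + (b : ℕ)) (mul_mem (cf_mem hD y a) (cf_mem hD z b)) rfl,
    pow_add, map_mul, pow_add]
  ring

private theorem phi_alg (hD : Dec x l L L') {ζ : k} (hζ : ζ ^ l = 1) (c : k) :
    phi hD ζ (algebraMap k L' c) = algebraMap k Ω c := by
  have h := phi_single hD hζ (algebraMap k L' c) 0 (L.algebraMap_mem c) (by
    rw [pow_zero, one_mul]; rfl)
  rw [h, pow_zero, map_one, one_mul, pow_zero, one_mul]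

omit [Big k Ω] in
private theorem phi_mem (hD : Dec x l L L') (ζ : k) (y : L') : phi hD ζ y ∈ L' :=
  sum_mem fun a _ => mul_mem (L'.algebraMap_mem _)
    (mul_mem (pow_mem hD.xmem _) (hD.le (cf_mem hD y a)))

/-- the algebra homomorphism -/
private noncomputable def phiHom (hD : Dec x l L L') {ζ : k} (hζ : ζ ^ l = 1) : L' →ₐ[k] L' where
  toFun y := ⟨phi hD ζ y, phi_mem hD ζ y⟩
  map_one' := by
    apply Subtype.ext
    have h := phi_alg hD hζ (1 : k)
    rw [map_one, map_one] at h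
    exact h
  map_mul' y z := Subtype.ext (phi_mul hD hζ y z)
  map_zero' := Subtype.ext (phi_zero hD ζ)
  map_add' y z := Subtype.ext (phi_add hD ζ y z)
  commutes' c := Subtype.ext (phi_alg hD hζ c)

private theorem phi_phi (hD : Dec x l L L') {ζ ξ : k} (hζ : ζ ^ l = 1) (h : ξ * ζ = 1) (y : L') :
    phi hD ξ (phiHom hD hζ y) = y := by
  rw [phi_eq hD ξ (phiHom hD hζ y) (f := fun a => algebraMap k Ω (ζ ^ (a : ℕ)) * cf hD y a)]
  · conv_rhs => rw [cf_eq hD y]
    refine Finset.sum_congr rfl fun a _ => ?_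
    have h2 : algebraMap k Ω (ξ ^ (a : ℕ)) * algebraMap k Ω (ζ ^ (a : ℕ)) = 1 := by
      rw [← map_mul, ← mul_pow, h, one_pow, map_one]
    linear_combination (x ^ (a : ℕ) * cf hD y a) * h2
  · exact fun a => mul_mem (L.algebraMap_mem _) (cf_mem hD y a)
  · change phi hD ζ y = _
    rw [phi]
    exact Finset.sum_congr rfl fun a _ => by ring

end aux

/-- The isometric automorphism `x ↦ ζ x` over `L`. -/
theorem dec_aut {x : Ω} {l : ℕ} {L L' : IntermediateField k Ω} (hD : Dec x l L L') {ζ : k}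
    (hζ : ζ ^ l = 1) :
    ∃ σ : L' ≃ₐ[k] L', (∀ y : L', ‖((σ y : L') : Ω)‖ = ‖(y : Ω)‖) ∧
      ∀ (y : L') (f : Fin l → Ω), (∀ a, f a ∈ L) → (y : Ω) = ∑ a : Fin l, x ^ (a : ℕ) * f a →
        ((σ y : L') : Ω) =
          ∑ a : Fin l, algebraMap k Ω (ζ ^ (a : ℕ)) * (x ^ (a : ℕ) * f a) := by
  have hζ0 : ζ ≠ 0 := by
    rintro rfl
    rw [zero_pow hD.pos.ne'] at hζ
    exact zero_ne_one hζ
  have hζ' : ζ⁻¹ ^ l = 1 := by rw [inv_pow, hζ, inv_one]
  refine ⟨AlgEquiv.ofAlgHom (phiHom hD hζ) (phiHom hD hζ') ?_ ?_, ?_, ?_⟩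
  · ext y
    exact phi_phi hD hζ' (mul_inv_cancel₀ hζ0) y
  · ext y
    exact phi_phi hD hζ (inv_mul_cancel₀ hζ0) y
  · intro y
    change ‖phi hD ζ y‖ = ‖(y : Ω)‖
    have hn : ∀ a : Fin l, ‖algebraMap k Ω (ζ ^ (a : ℕ))‖ = 1 := fun a =>
      Big.norm_k _ (pow_ne_zero _ hζ0)
    apply le_antisymm
    · refine Big.sum_le k _ _ (norm_nonneg _) fun a _ => ?_
      rw [norm_mul, hn, one_mul]
      have h1 := hD.norm (cf hD y) (cf_mem hD y) a
      rwa [← cf_eq hD y] at h1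
    · rw [cf_eq hD y]
      refine Big.sum_le k _ _ (norm_nonneg _) fun a _ => ?_
      have h1 := hD.norm (fun b => algebraMap k Ω (ζ ^ (b : ℕ)) * cf hD y b)
        (fun b => mul_mem (L.algebraMap_mem _) (cf_mem hD y b)) a
      have h2 : ∑ b : Fin l, x ^ (b : ℕ) * (algebraMap k Ω (ζ ^ (b : ℕ)) * cf hD y b) =
          phi hD ζ y := by
        rw [phi]
        exact Finset.sum_congr rfl fun b _ => by ring
      rw [h2, norm_mul, norm_mul, hn, one_mul, ← norm_mul] at h1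
      exact h1
  · intro y f hf h
    exact phi_eq hD ζ y hf h

end LUV
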