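import Pool.Agent.LUV.Basic
import Pool.Agent.LUV.TayShift
import Pool.Agent.LUV.DenseT
import Pool.Agent.LUV.CompDeg
import Pool.Agent.LUV.CauF

/-! Project LUV: (A10) two generators. -/

set_option autoImplicit false

namespace LUV

open Polynomial

variable {k : Type*} [Field k] {Ω : Type*} [NormedField Ω] [Algebra k Ω] [Big k Ω]

section TG

variable (k)
include k

private theorem tg_nat (n : ℕ) : ‖(n : Ω)‖ ≤ 1 := by
  have h := Big.norm_c_le (Ω := Ω) k (n : k)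
  rwa [map_natCast] at h

private theorem tg_mul {ρ A B : ℝ} (hρ : 0 < ρ) (hA : 0 ≤ A) (hB : 0 ≤ B) {P Q : Polynomial Ω}
    (hP : ∀ i, ‖P.coeff i‖ * ρ ^ i ≤ A) (hQ : ∀ i, ‖Q.coeff i‖ * ρ ^ i ≤ B) :
    ∀ n, ‖(P * Q).coeff n‖ * ρ ^ n ≤ A * B := by
  intro n
  rw [coeff_mul, ← le_div_iff₀ (pow_pos hρ n)]
  refine Big.sum_le k _ _ (by positivity) ?_
  rintro ⟨i, j⟩ hij
  rw [Finset.HasAntidiagonal.mem_antidiagonal] at hij
  rw [norm_mul, le_div_iff₀ (pow_pos hρ n), ← hij, pow_add]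
  calc ‖P.coeff i‖ * ‖Q.coeff j‖ * (ρ ^ i * ρ ^ j)
      = (‖P.coeff i‖ * ρ ^ i) * (‖Q.coeff j‖ * ρ ^ j) := by ring
    _ ≤ A * B := mul_le_mul (hP i) (hQ j) (by positivity) hA

private theorem tg_pow {ρ : ℝ} (hρ : 0 < ρ) {φ : Polynomial Ω}
    (hφ : ∀ i, ‖φ.coeff i‖ * ρ ^ i ≤ ρ) (m : ℕ) :
    ∀ i, ‖(φ ^ m).coeff i‖ * ρ ^ i ≤ ρ ^ m := by
  induction m with
  | zero =>
    intro i
    rw [pow_zero, pow_zero, coeff_one]
    split_ifs with h
    · subst h
      simp
    · simp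
  | succ m ih =>
    intro i
    rw [pow_succ, pow_succ]
    exact tg_mul k hρ (by positivity) hρ.le ih hφ i

private theorem tg_comp {ρ B : ℝ} (hρ : 0 < ρ) (hB : 0 ≤ B) {T φ : Polynomial Ω}
    (hT : ∀ i, ‖T.coeff i‖ * ρ ^ i ≤ B) (hφ : ∀ i, ‖φ.coeff i‖ * ρ ^ i ≤ ρ) :
    ∀ n, ‖(T.comp φ).coeff n‖ * ρ ^ n ≤ B := by
  intro n
  rw [comp_eq_sum_left, Polynomial.sum, finsetSum_coeff, ← le_div_iff₀ (pow_pos hρ n)]
  refine Big.sum_le k _ _ (by positivity) ?_
  intro i _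
  rw [coeff_C_mul, norm_mul, le_div_iff₀ (pow_pos hρ n), mul_assoc]
  calc ‖T.coeff i‖ * (‖(φ ^ i).coeff n‖ * ρ ^ n)
      ≤ ‖T.coeff i‖ * ρ ^ i := mul_le_mul_of_nonneg_left (tg_pow k hρ hφ i n) (norm_nonneg _)
    _ ≤ B := hT i

/-- Taylor coefficients at two close points are close. -/
private theorem tg_shift {ρ ε : ℝ} (hρ : 0 < ρ) (hε : 0 ≤ ε) (hερ : ε ≤ ρ) (R : Polynomial Ω)
    {s q0 : Ω} (hd : ‖q0 - s‖ ≤ ε)
    (hR : ∀ l, 1 ≤ l → ‖(Polynomial.taylor s R).coeff l‖ * ρ ^ l ≤ ρ) :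
    ∀ i, ‖(Polynomial.taylor q0 R - Polynomial.taylor s R).coeff i‖ * ρ ^ i ≤ ε := by
  intro i
  set P := Polynomial.taylor s R with hP
  have h1 : Polynomial.taylor q0 R = Polynomial.taylor (q0 - s) P := by
    rw [hP, taylor_taylor]
    congr 2
    ring
  have hN : (hasseDeriv i P).natDegree < P.natDegree + 1 := by
    have := natDegree_hasseDeriv_le P i
    omega
  rw [coeff_sub, h1, taylor_coeff, eval_eq_sum_range' hN, Finset.sum_range_succ']
  have h0 : (hasseDeriv i P).coeff 0 * (q0 - s) ^ 0 = P.coeff i := by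
    rw [hasseDeriv_coeff]
    simp
  rw [h0, add_sub_cancel_right, ← le_div_iff₀ (pow_pos hρ i)]
  refine Big.sum_le k _ _ (by positivity) ?_
  intro n _
  rw [hasseDeriv_coeff, norm_mul, norm_mul, norm_pow, le_div_iff₀ (pow_pos hρ i)]
  have h2 := hR (n + 1 + i) (by omega)
  have h3 : ‖(((n + 1 + i).choose i : ℕ) : Ω)‖ ≤ 1 := tg_nat k _
  have h4 : ‖q0 - s‖ ^ (n + 1) ≤ ε * ρ ^ n := by
    rw [pow_succ, mul_comm]
    exact mul_le_mul hd (pow_le_pow_left₀ (norm_nonneg _) (hd.trans hερ) n) (by positivity) hε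
  calc ‖(((n + 1 + i).choose i : ℕ) : Ω)‖ * ‖P.coeff (n + 1 + i)‖ * ‖q0 - s‖ ^ (n + 1) * ρ ^ i
      ≤ 1 * ‖P.coeff (n + 1 + i)‖ * (ε * ρ ^ n) * ρ ^ i := by gcongr
    _ = (‖P.coeff (n + 1 + i)‖ * ρ ^ (n + 1 + i)) * (ε / ρ) := by
        rw [pow_add, pow_add]
        field_simp
    _ ≤ ρ * (ε / ρ) := mul_le_mul_of_nonneg_right h2 (by positivity)
    _ = ε := by field_simp

end TG

private theorem tg_lift {F : IntermediateField k Ω} {Q : Polynomial Ω} (hQ : ∀ i, Q.coeff i ∈ F) :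
    ∃ Q' : Polynomial F, Q'.map (algebraMap F Ω) = Q := by
  have h : Q ∈ Polynomial.lifts (algebraMap F Ω) := by
    rw [Polynomial.lifts_iff_coeff_lifts]
    intro n
    exact ⟨⟨_, hQ n⟩, rfl⟩
  exact (Polynomial.mem_lifts _).1 h

private theorem tg_comp_mem {F : IntermediateField k Ω} {Q R : Polynomial Ω}
    (hQ : ∀ i, Q.coeff i ∈ F) (hR : ∀ i, R.coeff i ∈ F) (i : ℕ) : (R.comp Q - X).coeff i ∈ F := by
  obtain ⟨Q', rfl⟩ := tg_lift hQ
  obtain ⟨R', rfl⟩ := tg_lift hR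
  have h : (R'.map (algebraMap F Ω)).comp (Q'.map (algebraMap F Ω)) - X =
      (R'.comp Q' - X).map (algebraMap F Ω) := by
    rw [Polynomial.map_sub, Polynomial.map_comp, Polynomial.map_X]
  rw [h, coeff_map]
  exact SetLike.coe_mem _

/-- Taylor coefficients of a polynomial over `F` which maps `t` close to `s`. -/
private theorem tg_coef {F : IntermediateField k Ω} {s t : Ω} {ρ : ℝ}
    (hLs : Lim F s ρ) (hCt : Cau F t ρ) {Q : Polynomial Ω} (hQF : ∀ i, Q.coeff i ∈ F)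
    (hQ : ‖s - Q.eval t‖ < ρ) : ∀ i, 1 ≤ i → ‖(Polynomial.taylor t Q).coeff i‖ * ρ ^ i ≤ ρ := by
  intro i hi
  by_contra hc
  push Not at hc
  have hρ := hLs.pos
  obtain ⟨b, hb, hsb⟩ := hLs.app _ hc
  have hcoef : (Polynomial.taylor t (Q - C b)).coeff i = (Polynomial.taylor t Q).coeff i := by
    rw [map_sub, taylor_C, coeff_sub, coeff_C, if_neg (by omega), sub_zero]
  by_cases h0 : Q - C b = 0
  · rw [h0, map_zero, coeff_zero] at hcoef
    rw [← hcoef, norm_zero, zero_mul] at hc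
    linarith
  · obtain ⟨R, hR, hR2⟩ := hCt (Q - C b) h0 (fun j => by
      rw [coeff_sub, coeff_C]
      refine sub_mem (hQF j) ?_
      split_ifs
      · exact hb
      · exact zero_mem _)
    have h1 := hR2 i
    rw [hcoef, eval_sub, eval_C] at h1
    have h2 : ‖Q.eval t - b‖ < ‖(Polynomial.taylor t Q).coeff i‖ * ρ ^ i := by
      have h3 : Q.eval t - b = (s - b) - (s - Q.eval t) := by ring
      rw [h3]
      exact (Big.sub_le k _ _).trans_lt (max_lt hsb (hQ.trans hc))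
    have h4 : ‖(Polynomial.taylor t Q).coeff i‖ * ρ ^ i ≤
        ‖(Polynomial.taylor t Q).coeff i‖ * R ^ i :=
      mul_le_mul_of_nonneg_left (pow_le_pow_left₀ hρ.le hR.le i) (norm_nonneg _)
    linarith

/-- Two generators with the same radius are linearly related modulo the radius. -/
theorem two_gen {F : IntermediateField k Ω} (hF : IsClosed (F : Set Ω)) {s t : Ω} {ρ : ℝ}
    (hLs : Lim F s ρ) (hCs : Cau F s ρ) (hLt : Lim F t ρ) (hCt : Cau F t ρ)
    (hs : s ∈ cl k (insert t (F : Set Ω))) (ht : t ∈ cl k (insert s (F : Set Ω))) :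
    ∃ b ∈ F, ∃ q ∈ F, ‖q‖ ≤ 1 ∧ ‖s - (b + q * t)‖ ≤ ρ := by
  have hρ : 0 < ρ := hLs.pos
  obtain ⟨Q, hQF, hQ⟩ := dense_T hF hLt hCt hs (half_pos hρ)
  obtain ⟨R, hRF, hR⟩ := dense_T hF hLs hCs ht (half_pos hρ)
  have hq := tg_coef hLs hCt hQF (by linarith)
  have hr := tg_coef hLt hCs hRF (by linarith)
  set q0 := Q.eval t with hq0
  set r0 := R.eval s with hr0
  set φ : Polynomial Ω := Polynomial.taylor t Q - C q0 with hφ
  set ψ : Polynomial Ω := Polynomial.taylor s R - C r0 with hψ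
  have hφ0 : φ.coeff 0 = 0 := by
    rw [hφ, coeff_sub, taylor_coeff_zero, coeff_C_zero, sub_self]
  have hψ0 : ψ.coeff 0 = 0 := by
    rw [hψ, coeff_sub, taylor_coeff_zero, coeff_C_zero, sub_self]
  have hφi : ∀ i, 1 ≤ i → φ.coeff i = (Polynomial.taylor t Q).coeff i := by
    intro i hi
    rw [hφ, coeff_sub, coeff_C, if_neg (by omega), sub_zero]
  have hψi : ∀ i, 1 ≤ i → ψ.coeff i = (Polynomial.taylor s R).coeff i := by
    intro i hi
    rw [hψ, coeff_sub, coeff_C, if_neg (by omega), sub_zero]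
  have hφb : ∀ i, ‖φ.coeff i‖ * ρ ^ i ≤ ρ := by
    intro i
    rcases Nat.eq_zero_or_pos i with h | h
    · subst h
      rw [hφ0, norm_zero, zero_mul]
      exact hρ.le
    · rw [hφi i h]
      exact hq i h
  have hψb : ∀ i, ‖ψ.coeff i‖ * ρ ^ i ≤ ρ := by
    intro i
    rcases Nat.eq_zero_or_pos i with h | h
    · subst h
      rw [hψ0, norm_zero, zero_mul]
      exact hρ.le
    · rw [hψi i h]
      exact hr i h
  -- the Taylor coefficients of `R` at `q0` and `s`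
  have hd : ‖q0 - s‖ ≤ ρ / 2 := by
    rw [norm_sub_rev]
    exact hQ.le
  have hT := tg_shift k hρ (half_pos hρ).le (by linarith) R hd hr
  set T : Polynomial Ω := Polynomial.taylor q0 R - Polynomial.taylor s R with hTdef
  -- the composition over `F`
  have hCe : ‖(R.comp Q - X).eval t‖ ≤ ρ / 2 := by
    rw [eval_sub, eval_comp, eval_X, ← hq0]
    have h1 := hT 0
    rw [hTdef, coeff_sub, taylor_coeff_zero, taylor_coeff_zero, pow_zero, mul_one, ← hr0] at h1
    have h2 : ‖r0 - t‖ ≤ ρ / 2 := by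
      rw [norm_sub_rev]
      exact hR.le
    exact Big.sub_le' k h1 h2
  have hCc : ∀ i, ‖(Polynomial.taylor t (R.comp Q - X)).coeff i‖ * ρ ^ i ≤ ρ / 2 := by
    intro i
    by_cases h0 : R.comp Q - X = 0
    · rw [h0, map_zero, coeff_zero, norm_zero, zero_mul]
      exact (half_pos hρ).le
    · obtain ⟨R1, hR1, hR2⟩ := hCt _ h0 (tg_comp_mem hQF hRF)
      refine le_trans ?_ ((hR2 i).trans hCe)
      exact mul_le_mul_of_nonneg_left (pow_le_pow_left₀ hρ.le hR1.le i) (norm_nonneg _)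
  have hTφ := tg_comp k hρ (half_pos hρ).le hT hφb
  have hid : ψ.comp φ - X = Polynomial.taylor t (R.comp Q - X) + C (t - r0) - T.comp φ := by
    have h1 : Polynomial.taylor t (R.comp Q) = (Polynomial.taylor q0 R).comp φ := by
      rw [taylor_apply, taylor_apply, comp_assoc, comp_assoc]
      congr 1
      rw [hφ, taylor_apply]
      simp
    have h2 : Polynomial.taylor q0 R = T + ψ + C r0 := by
      rw [hTdef, hψ]
      ring
    rw [map_sub, h1, h2, add_comp, add_comp, C_comp, taylor_X, C_sub]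
    ring
  have hc : ∀ i, ‖(ψ.comp φ - X).coeff i‖ * ρ ^ i < ρ := by
    intro i
    have hp : 0 < ρ ^ i := pow_pos hρ i
    have h1 : ‖(Polynomial.taylor t (R.comp Q - X)).coeff i‖ ≤ ρ / 2 / ρ ^ i := by
      rw [le_div_iff₀ hp]
      exact hCc i
    have h2 : ‖(T.comp φ).coeff i‖ ≤ ρ / 2 / ρ ^ i := by
      rw [le_div_iff₀ hp]
      exact hTφ i
    have h3 : ‖(C (t - r0) : Polynomial Ω).coeff i‖ ≤ ρ / 2 / ρ ^ i := by
      rw [le_div_iff₀ hp, coeff_C]
      split_ifs with h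
      · subst h
        rw [pow_zero, mul_one]
        exact hR.le
      · rw [norm_zero, zero_mul]
        exact (half_pos hρ).le
    have h4 : ‖(ψ.comp φ - X).coeff i‖ ≤ ρ / 2 / ρ ^ i := by
      rw [hid, coeff_sub, coeff_add]
      refine (Big.sub_le k _ _).trans (max_le ?_ h2)
      exact (Big.add_le k _ _).trans (max_le h1 h3)
    rw [le_div_iff₀ hp] at h4
    linarith
  have hlin := comp_deg k φ ψ hρ hφ0 hφb hψ0 hψb hc
  -- a radius slightly larger than `ρ`
  have hR' : ∃ R' : ℝ, ρ < R' ∧ ∀ i, 2 ≤ i → ‖φ.coeff i‖ * R' ^ i ≤ ρ := by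
    have h1 : ∀ i : ℕ, ∀ᶠ x in nhdsWithin ρ (Set.Ioi ρ), 2 ≤ i → ‖φ.coeff i‖ * x ^ i ≤ ρ := by
      intro i
      by_cases hi : 2 ≤ i
      · have h2 : Filter.Tendsto (fun x : ℝ => ‖φ.coeff i‖ * x ^ i) (nhdsWithin ρ (Set.Ioi ρ))
            (nhds (‖φ.coeff i‖ * ρ ^ i)) := by
          have : Continuous fun x : ℝ => ‖φ.coeff i‖ * x ^ i := by fun_prop
          exact (this.tendsto ρ).mono_left nhdsWithin_le_nhds
        filter_upwards [h2.eventually (gt_mem_nhds (hlin i hi))] with x hx _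
        exact hx.le
      · exact Filter.Eventually.of_forall fun x h => absurd h hi
    have h2 : ∀ᶠ x in nhdsWithin ρ (Set.Ioi ρ), ∀ i ∈ Finset.range (φ.natDegree + 1),
        2 ≤ i → ‖φ.coeff i‖ * x ^ i ≤ ρ := by
      rw [Filter.eventually_all_finset]
      intro i _
      exact h1 i
    obtain ⟨x, hx, hx2⟩ := (h2.and self_mem_nhdsWithin).exists
    refine ⟨x, hx2, fun i hi => ?_⟩
    by_cases h3 : i ∈ Finset.range (φ.natDegree + 1)
    · exact hx i h3 hi
    · rw [Finset.mem_range, not_lt] at h3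
      rw [coeff_eq_zero_of_natDegree_lt (by omega), norm_zero, zero_mul]
      exact hρ.le
  obtain ⟨R', hR'1, hR'2⟩ := hR'
  obtain ⟨a, haF, haR⟩ := hLt.app R' hR'1
  have hρa : ρ < ‖t - a‖ := hLt.lt a haF
  set r1 := ‖t - a‖ with hr1
  have hr1pos : 0 < r1 := hρ.trans hρa
  have hat : ‖a - t‖ ≤ r1 := by rw [norm_sub_rev]
  have hA2 : ∀ i, 2 ≤ i → ‖(Polynomial.taylor a Q).coeff i‖ * r1 ^ i ≤ ρ := by
    refine taylor_shift k Q hr1pos hρ.le hat 2 fun l hl => ?_
    rw [← hφi l (by omega)]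
    refine le_trans ?_ (hR'2 l hl)
    exact mul_le_mul_of_nonneg_left (pow_le_pow_left₀ hr1pos.le haR.le l) (norm_nonneg _)
  have hA1 : ‖(Polynomial.taylor a Q).coeff 1‖ ≤ 1 := by
    have h1 : ∀ i, 1 ≤ i → ‖(Polynomial.taylor a Q).coeff i‖ * r1 ^ i ≤ r1 := by
      refine taylor_shift k Q hr1pos hr1pos.le hat 1 fun l hl => ?_
      rcases Nat.lt_or_ge l 2 with h | h
      · have : l = 1 := by omega
        subst this
        have h2 := hq 1 le_rfl
        rw [pow_one] at h2 ⊢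
        have h3 : ‖(Polynomial.taylor t Q).coeff 1‖ ≤ 1 := by
          by_contra hcon
          push Not at hcon
          nlinarith
        nlinarith
      · rw [← hφi l (by omega)]
        refine le_trans ?_ ((hR'2 l h).trans hρa.le)
        exact mul_le_mul_of_nonneg_left (pow_le_pow_left₀ hr1pos.le haR.le l) (norm_nonneg _)
    have h2 := h1 1 le_rfl
    rw [pow_one] at h2
    by_contra hcon
    push Not at hcon
    nlinarith
  refine ⟨(Polynomial.taylor a Q).coeff 0 - (Polynomial.taylor a Q).coeff 1 * a,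
    sub_mem (taylor_coeff_mem hQF haF 0) (mul_mem (taylor_coeff_mem hQF haF 1) haF),
    (Polynomial.taylor a Q).coeff 1, taylor_coeff_mem hQF haF 1, hA1, ?_⟩
  have hev := taylor_eval_sub Q t a
  have hsum : ‖q0 - ((Polynomial.taylor a Q).coeff 0 +
      (Polynomial.taylor a Q).coeff 1 * (t - a))‖ ≤ ρ := by
    have h1 : q0 = ∑ i ∈ Finset.range (Q.natDegree + 1 + 2),
        (Polynomial.taylor a Q).coeff i * (t - a) ^ i := by
      rw [hq0, hev]
      refine Finset.sum_subset (Finset.range_mono (by omega)) fun i _ hi => ?_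
      rw [Finset.mem_range, not_lt] at hi
      rw [coeff_eq_zero_of_natDegree_lt (by rw [natDegree_taylor]; omega), zero_mul]
    rw [h1, Finset.sum_range_succ', Finset.sum_range_succ']
    have h2 : ∀ x y z w : Ω, x + y * (t - a) ^ (0 + 1) + z * (t - a) ^ 0 - (z + y * (t - a)) = x := by
      intro x y z w
      ring
    rw [h2 _ _ _ 0]
    refine Big.sum_le k _ _ hρ.le fun i _ => ?_
    rw [norm_mul, norm_pow]
    exact hA2 (i + 1 + 1) (by omega)
  have h5 : s - ((Polynomial.taylor a Q).coeff 0 - (Polynomial.taylor a Q).coeff 1 * a +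
      (Polynomial.taylor a Q).coeff 1 * t) = (s - q0) + (q0 - ((Polynomial.taylor a Q).coeff 0 +
      (Polynomial.taylor a Q).coeff 1 * (t - a))) := by
    ring
  rw [h5]
  exact (Big.add_le k _ _).trans (max_le (by linarith) hsum)

end LUV
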