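import Pool.Agent.LUV.Basic
import Pool.Agent.LUV.DecSub
import Pool.Agent.LUV.DecAut
import Pool.Agent.LUV.ConjGen
import Pool.Agent.LUV.TwoGen
import Pool.Agent.LUV.Perturb
import Pool.Agent.LUV.CauF

/-! Project LUV: (D5) Fourier decomposition of the generator. -/

set_option autoImplicit false

namespace LUV

open Polynomial

variable {k : Type*} [Field k] {Ω : Type*} [NormedField Ω] [Algebra k Ω] [Big k Ω]

/-- Sum of powers of a primitive root of unity. -/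
private theorem fourier_sum {l : ℕ} {ζ : k} (hζ : IsPrimitiveRoot ζ l) (hl0 : 0 < l)
    (a b : Fin l) :
    ∑ j : Fin l, (ζ ^ ((j : ℕ) * (a : ℕ)))⁻¹ * (ζ ^ (j : ℕ)) ^ (b : ℕ)
      = if a = b then (l : k) else 0 := by
  have hz : ζ ≠ 0 := hζ.ne_zero hl0.ne'
  split_ifs with h
  · subst h
    have : ∀ j : Fin l, (ζ ^ ((j : ℕ) * (a : ℕ)))⁻¹ * (ζ ^ (j : ℕ)) ^ (a : ℕ) = 1 := by
      intro j
      rw [← pow_mul]
      exact inv_mul_cancel₀ (pow_ne_zero _ hz)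
    simp [this]
  · set w : k := (ζ ^ (a : ℕ))⁻¹ * ζ ^ (b : ℕ) with hw
    have h1 : ∀ j : Fin l, (ζ ^ ((j : ℕ) * (a : ℕ)))⁻¹ * (ζ ^ (j : ℕ)) ^ (b : ℕ) = w ^ (j : ℕ) := by
      intro j
      rw [hw, mul_pow, inv_pow, ← pow_mul, ← pow_mul, ← pow_mul, mul_comm (j : ℕ) (a : ℕ),
        mul_comm (j : ℕ) (b : ℕ)]
    have hwl : w ^ l = 1 := by
      have e : ∀ n : ℕ, (ζ ^ n) ^ l = 1 := fun n => by
        rw [← pow_mul, mul_comm, pow_mul, hζ.pow_eq_one, one_pow]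
      rw [hw, mul_pow, inv_pow, e, e, inv_one, one_mul]
    have hw1 : w ≠ 1 := by
      intro h2
      rw [hw] at h2
      have h3 : ζ ^ (b : ℕ) = ζ ^ (a : ℕ) := by
        have := congrArg (fun z => ζ ^ (a : ℕ) * z) h2
        simpa [mul_inv_cancel_left₀ (pow_ne_zero _ hz)] using this
      exact h (Fin.ext (hζ.pow_inj b.2 a.2 h3).symm)
    simp only [h1]
    rw [Fin.sum_univ_eq_sum_range (fun j => w ^ j) l]
    have := mul_geom_sum w l
    rw [hwl, sub_self] at this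
    rcases mul_eq_zero.1 this with h4 | h4
    · exact absurd (sub_eq_zero.1 h4) hw1
    · exact h4

variable [IsAlgClosed k]

/-- If `L'` is generated over `F'` by one element, then by one element of `L`. -/
theorem fourier {x : Ω} {l : ℕ} (hl : (l : k) ≠ 0) {F F' L L' : IntermediateField k Ω}
    (hF' : IsClosed (F' : Set Ω)) (hL' : IsClosed (L' : Set Ω)) (hFL : F ≤ L) (hFL' : F' ≤ L')
    (hDF : Dec x l F F') (hDL : Dec x l L L')
    (hLC : ∀ y ∈ L', y ∉ F' → ∃ ρ : ℝ, Lim F' y ρ ∧ Cau F' y ρ) {t : Ω} (ht : t ∈ L')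
    (htF : t ∉ F') (hgen : cl k (insert t (F' : Set Ω)) = L') :
    ∃ t0 ∈ L, cl k (insert t0 (F' : Set Ω)) = L' := by
  classical
  obtain ⟨ρ, hLt, hCt⟩ := hLC t ht htF
  have hl0 : 0 < l := hDL.pos
  have : NeZero (l : k) := ⟨hl⟩
  obtain ⟨ζ, hζ⟩ := HasEnoughRootsOfUnity.exists_primitiveRoot k l
  have hz : ζ ≠ 0 := hζ.ne_zero hl0.ne'
  have hzj : ∀ j : ℕ, (ζ ^ j) ^ l = 1 := fun j => by
    rw [← pow_mul, mul_comm, pow_mul, hζ.pow_eq_one, one_pow]
  have hex : ∀ j : Fin l, ∃ σ : L' ≃ₐ[k] L', (∀ y : L', ‖((σ y : L') : Ω)‖ = ‖(y : Ω)‖) ∧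
      ∀ (y : L') (f : Fin l → Ω), (∀ a, f a ∈ L) → (y : Ω) = ∑ a : Fin l, x ^ (a : ℕ) * f a →
        ((σ y : L') : Ω) =
          ∑ a : Fin l, algebraMap k Ω ((ζ ^ (j : ℕ)) ^ (a : ℕ)) * (x ^ (a : ℕ) * f a) :=
    fun j => dec_aut hDL (hzj j)
  choose σ hσn hσf using hex
  -- the automorphisms preserve `F'`
  have hσF : ∀ (j : Fin l) (y : L'), (y : Ω) ∈ F' ↔ ((σ j y : L') : Ω) ∈ F' := by
    intro j y
    constructor
    · intro hy
      obtain ⟨f, hf, hyf⟩ := hDF.ex _ hy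
      rw [hσf j y f (fun a => hFL (hf a)) hyf]
      exact sum_mem fun a _ => mul_mem (F'.algebraMap_mem _)
        (mul_mem (pow_mem hDF.xmem _) (hDF.le (hf a)))
    · intro hy
      obtain ⟨g, hg, hyg⟩ := hDL.ex _ y.2
      obtain ⟨f, hf, hyf⟩ := hDF.ex _ hy
      have h1 := hσf j y g hg hyg
      rw [hyf] at h1
      have h2 : ∑ a : Fin l, x ^ (a : ℕ) * f a = ∑ a : Fin l, x ^ (a : ℕ) *
          (algebraMap k Ω ((ζ ^ (j : ℕ)) ^ (a : ℕ)) * g a) := by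
        rw [h1]
        exact Finset.sum_congr rfl fun a _ => by ring
      have h3 := dec_unique hDL (fun a => hFL (hf a))
        (fun a => mul_mem (L.algebraMap_mem _) (hg a)) h2
      have h4 : ∀ a, g a ∈ F := by
        intro a
        have h5 : g a = algebraMap k Ω ((ζ ^ (j : ℕ)) ^ (a : ℕ))⁻¹ * f a := by
          rw [h3, ← mul_assoc, ← map_mul, inv_mul_cancel₀ (pow_ne_zero _ (pow_ne_zero _ hz)),
            map_one, one_mul]
        rw [h5]
        exact mul_mem (F.algebraMap_mem _) (hf a)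
      rw [hyg]
      exact sum_mem fun a _ => mul_mem (pow_mem hDF.xmem _) (hDF.le (h4 a))
  set T : L' := ⟨t, ht⟩ with hT
  -- the conjugates
  have hgen' : ∀ j, cl k (insert ((σ j T : L') : Ω) (F' : Set Ω)) = L' := fun j =>
    conj_gen hL' hFL' (σ j) (hσn j) (hσF j) (t := T) hgen
  have hLs : ∀ j, Lim F' ((σ j T : L') : Ω) ρ := fun j =>
    conj_lim hFL' (σ j) (hσn j) (hσF j) (t := T) hLt
  have hCs : ∀ j, Cau F' ((σ j T : L') : Ω) ρ := by
    intro j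
    have hn : ((σ j T : L') : Ω) ∉ F' := fun h => by
      have := (hLs j).lt _ h
      rw [sub_self, norm_zero] at this
      exact lt_asymm this (hLs j).pos
    obtain ⟨ρ', h1, h2⟩ := hLC _ (σ j T).2 hn
    rwa [Lim.unique (hLs j) h1]
  have htwo : ∀ j, ∃ b ∈ F', ∃ q ∈ F', ‖q‖ ≤ 1 ∧ ‖((σ j T : L') : Ω) - (b + q * t)‖ ≤ ρ := by
    intro j
    refine two_gen hF' (hLs j) (hCs j) hLt hCt ?_ ?_
    · rw [hgen]; exact (σ j T).2
    · rw [hgen' j]; exact ht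
  choose b hb q hq hq1 hbq using htwo
  obtain ⟨f, hf, htf⟩ := hDL.ex _ ht
  have hs : ∀ j, ((σ j T : L') : Ω) =
      ∑ a : Fin l, algebraMap k Ω ((ζ ^ (j : ℕ)) ^ (a : ℕ)) * (x ^ (a : ℕ) * f a) :=
    fun j => hσf j T f hf htf
  have hlΩ : (l : Ω) ≠ 0 := by
    have := (map_ne_zero (algebraMap k Ω)).2 hl
    rwa [map_natCast] at this
  have hlnorm : ‖(l : Ω)‖ = 1 := by
    have := Big.norm_k (Ω := Ω) (l : k) hl
    rwa [map_natCast] at this
  -- inversion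
  have hinv : ∀ a : Fin l, (l : Ω) * (x ^ (a : ℕ) * f a) =
      ∑ j : Fin l, algebraMap k Ω (ζ ^ ((j : ℕ) * (a : ℕ)))⁻¹ * ((σ j T : L') : Ω) := by
    intro a
    simp only [hs, Finset.mul_sum]
    rw [Finset.sum_comm]
    have h1 : ∀ b' : Fin l, ∑ j : Fin l, algebraMap k Ω (ζ ^ ((j : ℕ) * (a : ℕ)))⁻¹ *
        (algebraMap k Ω ((ζ ^ (j : ℕ)) ^ (b' : ℕ)) * (x ^ (b' : ℕ) * f b')) =
        algebraMap k Ω (if a = b' then (l : k) else 0) * (x ^ (b' : ℕ) * f b') := by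
      intro b'
      rw [← fourier_sum hζ hl0 a b', map_sum, Finset.sum_mul]
      exact Finset.sum_congr rfl fun j _ => by rw [map_mul]; ring
    simp only [h1]
    rw [Finset.sum_eq_single a]
    · simp
    · intro b' _ hb'
      rw [if_neg (Ne.symm hb')]
      simp
    · intro h
      exact absurd (Finset.mem_univ a) h
  set B : Fin l → Ω := fun a =>
    (l : Ω)⁻¹ * ∑ j : Fin l, algebraMap k Ω (ζ ^ ((j : ℕ) * (a : ℕ)))⁻¹ * b j with hB
  set Q : Fin l → Ω := fun a =>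
    (l : Ω)⁻¹ * ∑ j : Fin l, algebraMap k Ω (ζ ^ ((j : ℕ) * (a : ℕ)))⁻¹ * q j with hQ
  have hlF : (l : Ω)⁻¹ ∈ F' := inv_mem (natCast_mem _ l)
  have hBF : ∀ a, B a ∈ F' := fun a => mul_mem hlF
    (sum_mem fun j _ => mul_mem (F'.algebraMap_mem _) (hb j))
  have hQF : ∀ a, Q a ∈ F' := fun a => mul_mem hlF
    (sum_mem fun j _ => mul_mem (F'.algebraMap_mem _) (hq j))
  have hlinv : ‖(l : Ω)⁻¹‖ = 1 := by rw [norm_inv, hlnorm, inv_one]
  have hQ1 : ∀ a, ‖Q a‖ ≤ 1 := by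
    intro a
    rw [hQ]
    simp only [norm_mul, hlinv, one_mul]
    refine Big.sum_le k _ _ zero_le_one fun j _ => ?_
    rw [norm_mul]
    exact mul_le_one₀ (Big.norm_c_le k _) (norm_nonneg _) (hq1 j)
  have hmain : ∀ a : Fin l, ‖x ^ (a : ℕ) * f a - (B a + Q a * t)‖ ≤ ρ := by
    intro a
    have h1 : x ^ (a : ℕ) * f a - (B a + Q a * t) =
        (l : Ω)⁻¹ * ∑ j : Fin l, algebraMap k Ω (ζ ^ ((j : ℕ) * (a : ℕ)))⁻¹ *
          (((σ j T : L') : Ω) - (b j + q j * t)) := by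
      have h2 : x ^ (a : ℕ) * f a = (l : Ω)⁻¹ * ((l : Ω) * (x ^ (a : ℕ) * f a)) := by
        rw [inv_mul_cancel_left₀ hlΩ]
      rw [h2, hinv a, hB, hQ]
      simp only
      rw [mul_assoc, Finset.sum_mul, ← mul_add, ← mul_sub, ← Finset.sum_add_distrib,
        ← Finset.sum_sub_distrib]
      congr 1
      exact Finset.sum_congr rfl fun j _ => by ring
    rw [h1, norm_mul, hlinv, one_mul]
    refine Big.sum_le k _ _ hLt.pos.le fun j _ => ?_
    rw [norm_mul]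
    calc _ ≤ 1 * ρ := mul_le_mul (Big.norm_c_le k _) (hbq j) (norm_nonneg _) zero_le_one
      _ = ρ := one_mul ρ
  have hsum : ‖t - (∑ a, B a + (∑ a, Q a) * t)‖ ≤ ρ := by
    have h1 : t - (∑ a, B a + (∑ a, Q a) * t) =
        ∑ a : Fin l, (x ^ (a : ℕ) * f a - (B a + Q a * t)) := by
      rw [Finset.sum_sub_distrib, Finset.sum_add_distrib, ← htf, Finset.sum_mul]
    rw [h1]
    exact Big.sum_le k _ _ hLt.pos.le fun a _ => hmain a
  have hq' : ‖1 - ∑ a, Q a‖ < 1 := by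
    by_contra hcon
    rw [not_lt] at hcon
    have hne : (1 - ∑ a, Q a) ≠ 0 := fun h => by
      rw [h, norm_zero] at hcon
      exact absurd hcon (not_le.2 zero_lt_one)
    have hmem : (∑ a, B a) / (1 - ∑ a, Q a) ∈ F' :=
      div_mem (sum_mem fun a _ => hBF a) (sub_mem (one_mem _) (sum_mem fun a _ => hQF a))
    have h1 := hLt.lt _ hmem
    have h2 : t - (∑ a, B a + (∑ a, Q a) * t) =
        (1 - ∑ a, Q a) * (t - (∑ a, B a) / (1 - ∑ a, Q a)) := by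
      field_simp
      ring
    rw [h2, norm_mul] at hsum
    have h3 : ‖t - (∑ a, B a) / (1 - ∑ a, Q a)‖ ≤
        ‖1 - ∑ a, Q a‖ * ‖t - (∑ a, B a) / (1 - ∑ a, Q a)‖ :=
      le_mul_of_one_le_left (norm_nonneg _) hcon
    exact absurd (h1.trans_le (h3.trans hsum)) (lt_irrefl _)
  obtain ⟨a, ha⟩ : ∃ a, 1 ≤ ‖Q a‖ := by
    by_contra hcon
    push Not at hcon
    have hlt : ‖∑ a, Q a‖ < 1 := by
      have : IsUltrametricDist Ω := Big.ultra k
      have : Nonempty (Fin l) := ⟨⟨0, hl0⟩⟩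
      obtain ⟨a, -, h⟩ := IsUltrametricDist.exists_norm_finsetSum_le_of_nonempty
        (Finset.univ_nonempty (α := Fin l)) Q
      exact h.trans_lt (hcon a)
    have h1 : ‖(1 : Ω)‖ ≤ max ‖1 - ∑ a, Q a‖ ‖∑ a, Q a‖ := by
      have := Big.add_le k (1 - ∑ a, Q a) (∑ a, Q a)
      rwa [sub_add_cancel] at this
    rw [norm_one] at h1
    exact absurd h1 (not_le.2 (max_lt hq' hlt))
  have hQa : Q a ≠ 0 := fun h => by
    rw [h, norm_zero] at ha
    exact absurd ha (not_le.2 zero_lt_one)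
  have hfL' : f a ∈ L' := hDL.le (hf a)
  have hper : t ∈ cl k (insert (f a) (F' : Set Ω)) := by
    refine perturb hF' hLt hCt (y := f a) (b := -((Q a)⁻¹ * B a)) (q := (Q a)⁻¹ * x ^ (a : ℕ))
      (by rw [hgen]; exact hfL') (neg_mem (mul_mem (inv_mem (hQF a)) (hBF a)))
      (mul_mem (inv_mem (hQF a)) (pow_mem hDF.xmem _)) ?_
    have h1 : t - (-((Q a)⁻¹ * B a) + (Q a)⁻¹ * x ^ (a : ℕ) * f a) =
        -((Q a)⁻¹ * (x ^ (a : ℕ) * f a - (B a + Q a * t))) := by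
      field_simp
      ring
    rw [h1, norm_neg, norm_mul, norm_inv]
    calc _ ≤ 1 * ρ := mul_le_mul (inv_le_one_of_one_le₀ ha) (hmain a) (norm_nonneg _) zero_le_one
      _ = ρ := one_mul ρ
  refine ⟨f a, hf a, le_antisymm ?_ ?_⟩
  · refine cl_le hL' ?_
    rintro y (rfl | hy)
    · exact hfL'
    · exact hFL' hy
  · rw [← hgen]
    refine cl_le (cl_closed _) ?_
    rintro y (rfl | hy)
    · exact hper
    · exact subset_cl _ (Set.mem_insert_of_mem _ hy)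

end LUV
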