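import Pool.Agent.LUV.Basic
import Pool.Agent.LUV.DescOne

/-! Project LUV: (D7) descent, all roots. -/

set_option autoImplicit false

namespace LUV

open Polynomial

variable {k : Type*} [Field k] {Ω : Type*} [NormedField Ω] [Algebra k Ω] [Big k Ω] {r : ℕ}

/-- Descent, a finite set of roots. -/
private theorem desc_all_aux [IsAlgClosed k] {u : Fin r → Ω} (hu : Base u) {l : ℕ}
    (hl : (l : k) ≠ 0) {x : Fin r → Ω} (hx : ∀ i, x i ^ l = u i) {L : IntermediateField k Ω}
    (hL : IsClosed (L : Set Ω)) (huL : ∀ i, u i ∈ L) (hI : Imm u L) (S : Finset (Fin r)) :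
    ∃ v : Fin r → Ω, (∀ i, v i = if i ∈ S then x i else u i) ∧ Base v ∧
      Imm v (L ⊔ IntermediateField.adjoin k (x '' (S : Set (Fin r)))) ∧
      IsClosed ((L ⊔ IntermediateField.adjoin k (x '' (S : Set (Fin r))) :
        IntermediateField k Ω) : Set Ω) ∧
      (∀ i, v i ∈ L ⊔ IntermediateField.adjoin k (x '' (S : Set (Fin r)))) ∧
      ((∃ t, L ⊔ IntermediateField.adjoin k (x '' (S : Set (Fin r))) = clT k v t) →
        ∃ t, L = clT k u t) := by
  classical
  have hl0 : 0 < l := by
    rcases Nat.eq_zero_or_pos l with h | h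
    · exact absurd (by rw [h]; exact Nat.cast_zero) hl
    · exact h
  induction S using Finset.induction_on with
  | empty =>
    have h0 : L ⊔ IntermediateField.adjoin k (x '' ((∅ : Finset (Fin r)) : Set (Fin r))) = L := by
      rw [Finset.coe_empty, Set.image_empty, IntermediateField.adjoin_empty, sup_bot_eq]
    rw [h0]
    exact ⟨u, fun i => by simp, hu, hI, hL, huL, fun h => h⟩
  | insert i0 S hi0 ih =>
    obtain ⟨v, hv, hB, hIm, hcl, hmem, hd⟩ := ih
    have h1 : L ⊔ IntermediateField.adjoin k (x '' ((insert i0 S : Finset (Fin r)) :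
        Set (Fin r))) = (L ⊔ IntermediateField.adjoin k (x '' (S : Set (Fin r)))) ⊔
          IntermediateField.adjoin k {x i0} := by
      rw [Finset.coe_insert, Set.image_insert_eq, Set.insert_eq, IntermediateField.adjoin_union,
        sup_assoc, sup_comm (IntermediateField.adjoin k {x i0})]
    have hxv : x i0 ^ l = v i0 := by
      rw [hv i0, if_neg hi0]
      exact hx i0
    obtain ⟨_, hIm', hcl'⟩ := dec_root hB i0 hl0 hxv hcl hmem hIm
    rw [h1]
    refine ⟨Function.update v i0 (x i0), ?_, base_update hB i0 hl0 hxv, hIm', hcl', ?_, ?_⟩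
    · intro i
      by_cases hi : i = i0
      · subst hi
        rw [Function.update_self, if_pos (Finset.mem_insert_self _ _)]
      · rw [Function.update_of_ne hi, hv i]
        by_cases hiS : i ∈ S
        · rw [if_pos hiS, if_pos (Finset.mem_insert_of_mem hiS)]
        · rw [if_neg hiS, if_neg]
          rw [Finset.mem_insert]
          tauto
    · intro i
      by_cases hi : i = i0
      · subst hi
        rw [Function.update_self]
        exact le_sup_right (a := L ⊔ IntermediateField.adjoin k (x '' (S : Set (Fin r))))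
          (IntermediateField.subset_adjoin k {x i} (Set.mem_singleton _))
      · rw [Function.update_of_ne hi]
        exact le_sup_left (b := IntermediateField.adjoin k {x i0}) (hmem i)
    · intro hG
      exact hd (desc_one hB i0 hl hxv hcl hmem hIm hG)

/-- Descent, all roots. -/
theorem desc_all [IsAlgClosed k] {u : Fin r → Ω} (hu : Base u) {l : ℕ} (hl : (l : k) ≠ 0)
    {x : Fin r → Ω} (hx : ∀ i, x i ^ l = u i) {L : IntermediateField k Ω}
    (hL : IsClosed (L : Set Ω)) (huL : ∀ i, u i ∈ L) (hI : Imm u L) :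
    (Base x ∧ Imm x (L ⊔ IntermediateField.adjoin k (Set.range x)) ∧
      IsClosed ((L ⊔ IntermediateField.adjoin k (Set.range x) : IntermediateField k Ω) : Set Ω)) ∧
    ((∃ t, L ⊔ IntermediateField.adjoin k (Set.range x) = clT k x t) → ∃ t, L = clT k u t) := by
  obtain ⟨v, hv, hB, hIm, hcl, _, hd⟩ := desc_all_aux hu hl hx hL huL hI Finset.univ
  have hvx : v = x := by
    funext i
    rw [hv i, if_pos (Finset.mem_univ i)]
  subst hvx
  rw [Finset.coe_univ, Set.image_univ] at hIm hcl hd
  exact ⟨⟨hB, hIm, hcl⟩, hd⟩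

end LUV
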