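import Pool.Agent.LUV.Basic

/-! Project LUV: (G3) eigenvectors. -/

set_option autoImplicit false

namespace LUV

open Polynomial

/-- Eigenvectors of an element of prime order `q ≠ p` of a Galois group: if `τ` has order `q`,
moves the root `s` of `f` and all `τ^i s` lie in the subring `N`, then some nonzero `y ∈ N` has
`τ y = ζ y`, `ζ ∈ k`, `ζ ≠ 1`. -/
theorem eigen {k E : Type*} [Field k] [IsAlgClosed k] [Field E] [Algebra k E] (q : ℕ)
    (hq : q.Prime) (hqk : (q : k) ≠ 0) (τ : E →ₐ[k] E) (hτ : ∀ y, (τ^[q]) y = y)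
    (N : Subalgebra k E) {s : E} (hs : τ s ≠ s) (hN : ∀ i : ℕ, (τ^[i]) s ∈ N) :
    ∃ (y : E) (ζ : k), y ∈ N ∧ y ≠ 0 ∧ ζ ≠ 1 ∧ τ y = algebraMap k E ζ * y := by
  classical
  have hq0 : 0 < q := hq.pos
  have : NeZero (q : k) := ⟨hqk⟩
  obtain ⟨ζ, hζ⟩ := HasEnoughRootsOfUnity.exists_primitiveRoot k q
  have hζ0 : ζ ≠ 0 := hζ.ne_zero hq.ne_zero
  have hη : IsPrimitiveRoot ζ⁻¹ q := hζ.inv
  set y : ℕ → E := fun j => ∑ i ∈ Finset.range q, algebraMap k E (ζ⁻¹ ^ (i * j)) * (τ^[i]) s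
    with hy
  -- eigenvector equation
  have h1 : ∀ j, τ (y j) = algebraMap k E (ζ ^ j) * y j := by
    intro j
    have e1 : τ (y j) = ∑ i ∈ Finset.range q, algebraMap k E (ζ ^ j) *
        (algebraMap k E (ζ⁻¹ ^ ((i + 1) * j)) * (τ^[i + 1]) s) := by
      rw [hy]
      simp only [map_sum, map_mul, AlgHom.commutes]
      refine Finset.sum_congr rfl fun i _ => ?_
      rw [← Function.iterate_succ_apply' τ i s, ← mul_assoc, ← map_mul]
      congr 2
      rw [add_mul, one_mul, pow_add, mul_comm (ζ⁻¹ ^ (i * j)), ← mul_assoc, ← mul_pow,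
        mul_inv_cancel₀ hζ0, one_pow, one_mul]
    rw [e1, ← Finset.mul_sum]
    congr 1
    have e2 := Finset.sum_range_succ (fun i => algebraMap k E (ζ⁻¹ ^ (i * j)) * (τ^[i]) s) q
    have e3 := Finset.sum_range_succ' (fun i => algebraMap k E (ζ⁻¹ ^ (i * j)) * (τ^[i]) s) q
    rw [e2] at e3
    have e4 : algebraMap k E (ζ⁻¹ ^ (q * j)) * (τ^[q]) s =
        algebraMap k E (ζ⁻¹ ^ (0 * j)) * (τ^[0]) s := by
      rw [hτ, pow_mul, hη.pow_eq_one, one_pow, zero_mul, pow_zero, Function.iterate_zero, id]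
    rw [e4] at e3
    exact (add_right_cancel e3).symm
  -- the sum
  have h2 : ∑ j ∈ Finset.range q, y j = algebraMap k E (q : k) * s := by
    rw [hy]
    simp only
    rw [Finset.sum_comm]
    have e : ∀ i ∈ Finset.range q, ∑ j ∈ Finset.range q,
        algebraMap k E (ζ⁻¹ ^ (i * j)) * (τ^[i]) s =
        if i = 0 then algebraMap k E (q : k) * s else 0 := by
      intro i hi
      rw [← Finset.sum_mul, ← map_sum]
      split_ifs with h0
      · subst h0
        simp
      · have h3 : ∑ j ∈ Finset.range q, ζ⁻¹ ^ (i * j) = 0 := by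
          have h4 : ζ⁻¹ ^ i ≠ 1 := fun h5 => by
            have := Nat.le_of_dvd (Nat.pos_of_ne_zero h0) (hη.dvd_of_pow_eq_one i h5)
            exact absurd (Finset.mem_range.1 hi) (not_lt.2 this)
          have h6 : ∑ j ∈ Finset.range q, (ζ⁻¹ ^ i) ^ j = 0 := by
            rw [geom_sum_eq h4, ← pow_mul, mul_comm, pow_mul, hη.pow_eq_one, one_pow, sub_self,
              zero_div]
          rw [← h6]
          exact Finset.sum_congr rfl fun j _ => pow_mul _ _ _
        rw [h3, map_zero, zero_mul]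
    rw [Finset.sum_congr rfl e, Finset.sum_ite_eq' (Finset.range q) 0,
      if_pos (Finset.mem_range.2 hq0)]
  have hqE : algebraMap k E (q : k) ≠ 0 := by
    rw [Ne, map_eq_zero]
    exact hqk
  have h3 : ∃ j ∈ Finset.range q, j ≠ 0 ∧ y j ≠ 0 := by
    by_contra hcon
    push Not at hcon
    have e : ∑ j ∈ Finset.range q, y j = y 0 :=
      Finset.sum_eq_single 0 (fun j hj hj0 => hcon j hj hj0)
        (fun h => absurd (Finset.mem_range.2 hq0) h)
    have e2 : τ (y 0) = y 0 := by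
      rw [h1 0, pow_zero, map_one, one_mul]
    rw [← e, h2, map_mul, AlgHom.commutes] at e2
    exact hs (mul_left_cancel₀ hqE e2)
  obtain ⟨j, hj, hj0, hyj⟩ := h3
  refine ⟨y j, ζ ^ j, ?_, hyj, ?_, h1 j⟩
  · exact Subalgebra.sum_mem N fun i _ => N.mul_mem (N.algebraMap_mem _) (hN i)
  · intro h
    have := Nat.le_of_dvd (Nat.pos_of_ne_zero hj0) (hζ.dvd_of_pow_eq_one j h)
    exact absurd (Finset.mem_range.1 hj) (not_lt.2 this)

end LUV
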