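import Pool.Agent.LUV.Basic
import Pool.Agent.LUV.Closed

/-! Project LUV: (G2) the wild inequality. -/

set_option autoImplicit false

namespace LUV

open Polynomial

variable {k : Type*} [Field k] {Ω : Type*} [NormedField Ω] [Algebra k Ω] [Big k Ω] {r : ℕ}

omit [Big k Ω] in
private theorem norm_u_ne_one {u : Fin r → Ω} (hu : Base u) (i : Fin r) : ‖u i‖ ≠ 1 := by
  intro h
  have h1 : wt u (Pi.single i 1) = wt u 0 := by
    rw [map_zero]
    change ∑ j, (((Pi.single i 1 : G r) j : ℤ) : ℝ) * (-Real.log ‖u j‖) = 0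
    refine Finset.sum_eq_zero fun j _ => ?_
    by_cases hj : j = i
    · subst hj
      rw [h, Real.log_one, neg_zero, mul_zero]
    · rw [Pi.single_eq_of_ne hj, Int.cast_zero, zero_mul]
  have h2 := congrFun (hu.inj h1) i
  rw [Pi.single_eq_same] at h2
  exact one_ne_zero h2

/-- Norms of elements of finite Galois extensions. -/
theorem norm_pow_mem {u : Fin r → Ω} (hu : Base u) (hr : 0 < r) {M : IntermediateField k Ω}
    (hM : IsClosed (M : Set Ω)) (huM : ∀ i, u i ∈ M) (hI : Imm u M) (N : IntermediateField M Ω)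
    [FiniteDimensional M N] [IsGalois M N] {y : Ω} (hy : y ∈ N) (hy0 : y ≠ 0) :
    ∃ g : G r, ‖y‖ ^ Module.finrank M N = ‖mon u g‖ := by
  have hnt : ∃ y ∈ M, y ≠ 0 ∧ ‖y‖ ≠ 1 :=
    ⟨u ⟨0, hr⟩, huM _, hu.ne _, norm_u_ne_one hu _⟩
  haveI : IsAlgClosed Ω := Big.closed k
  have h1 := Algebra.norm_eq_prod_embeddings M Ω (⟨y, hy⟩ : N)
  have h2 : ‖algebraMap M Ω (Algebra.norm M (⟨y, hy⟩ : N))‖ = ‖y‖ ^ Module.finrank M N := by
    rw [h1, norm_prod, Finset.prod_congr rfl fun σ _ => norm_conj M hM hnt N σ ⟨y, hy⟩,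
      Finset.prod_const, Finset.card_univ, AlgHom.card]
  obtain ⟨g, hg⟩ := hI (algebraMap M Ω (Algebra.norm M (⟨y, hy⟩ : N)))
    (Algebra.norm M (⟨y, hy⟩ : N)).2 (by
      intro h0
      rw [h0, norm_zero] at h2
      exact pow_ne_zero _ (norm_ne_zero_iff.2 hy0) h2.symm)
  exact ⟨g, h2.symm.trans hg⟩

/-- The wild inequality. -/
theorem wild (p : ℕ) [Fact p.Prime] [CharP k p] {u : Fin r → Ω} (hu : Base u) {l a : ℕ}
    (hl : 0 < l) {x : Fin r → Ω} (hx : ∀ i, x i ^ l = u i) {y : Ω} (hy0 : y ≠ 0) {g : G r}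
    (hy : ‖y‖ ^ (p ^ a * l) = ‖mon u g‖) {E : IntermediateField k Ω} (hxE : ∀ i, x i ∈ E)
    (hyE : y ∈ E) (τ : E →ₐ[k] Ω) (hτ : ∀ z : E, ‖τ z‖ = ‖(z : Ω)‖)
    (hτx : ∀ i, τ ⟨x i, hxE i⟩ = x i) : ‖τ ⟨y, hyE⟩ - y‖ < ‖y‖ := by
  haveI : CharP Ω p := charP_of_injective_algebraMap (algebraMap k Ω).injective p
  have hx0 : ∀ i, x i ≠ 0 := by
    intro i h
    have := hx i
    rw [h, zero_pow hl.ne'] at this
    exact hu.ne i this.symm
  set X : E := ∏ i, (⟨x i, hxE i⟩ : E) ^ g i with hXdef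
  have hXx : (X : Ω) = mon x g := by
    rw [hXdef, mon]
    push_cast
    rfl
  have hX0 : (X : Ω) ≠ 0 := by
    rw [hXx]; exact mon_ne hx0 g
  have hτX : τ X = X := by
    rw [hXdef, map_prod]
    push_cast
    refine Finset.prod_congr rfl fun i _ => ?_
    rw [map_zpow₀, hτx]
    rfl
  have hXn : ‖(X : Ω)‖ = ‖y‖ ^ (p ^ a) := by
    have h1 : ‖(X : Ω)‖ ^ l = (‖y‖ ^ (p ^ a)) ^ l := by
      rw [← pow_mul, hy, ← norm_pow, hXx]
      congr 1
      rw [mon, mon, ← Finset.prod_pow]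
      refine Finset.prod_congr rfl fun i _ => ?_
      rw [← hx i, ← zpow_natCast, ← zpow_natCast, ← zpow_mul, ← zpow_mul, mul_comm]
    exact (pow_left_inj₀ (norm_nonneg _) (by positivity) hl.ne').1 h1
  set Y : E := ⟨y, hyE⟩ with hYdef
  have hXE0 : X ≠ 0 := by
    intro h
    exact hX0 (by rw [h]; rfl)
  set w : E := Y ^ (p ^ a) / X with hwdef
  have hYw : Y ^ (p ^ a) = X * w := by
    rw [hwdef, mul_div_cancel₀ _ hXE0]
  have hw : ‖(w : Ω)‖ = 1 := by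
    have h1 : ((Y ^ (p ^ a) : E) : Ω) = (X : Ω) * (w : Ω) := by
      rw [hYw]; rfl
    have h2 : ‖(X : Ω)‖ * ‖(w : Ω)‖ = ‖(X : Ω)‖ * 1 := by
      rw [← norm_mul, ← h1, mul_one, hXn, ← norm_pow]
      rfl
    exact mul_left_cancel₀ (norm_ne_zero_iff.2 hX0) h2
  obtain ⟨c, hc⟩ := Big.res (k := k) (w : Ω) hw.le
  have hτw : ‖τ w - algebraMap k Ω c‖ < 1 := by
    have h1 : τ w - algebraMap k Ω c = τ (w - algebraMap k E c) := by
      rw [map_sub, AlgHom.commutes]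
    rw [h1, hτ]
    exact hc
  have hd : ‖τ w - (w : Ω)‖ < 1 := by
    have h1 : τ w - (w : Ω) = (τ w - algebraMap k Ω c) - ((w : Ω) - algebraMap k Ω c) := by ring
    rw [h1]
    exact (Big.sub_le k _ _).trans_lt (max_lt hτw hc)
  have hkey : (τ Y - y) ^ (p ^ a) = (X : Ω) * (τ w - (w : Ω)) := by
    rw [sub_pow_char_pow, ← map_pow, hYw, map_mul, hτX, mul_sub]
    congr 1
    have h1 : ((Y ^ (p ^ a) : E) : Ω) = (X : Ω) * (w : Ω) := by
      rw [hYw]; rfl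
    rw [← h1]
    rfl
  have hlt : ‖τ Y - y‖ ^ (p ^ a) < ‖y‖ ^ (p ^ a) := by
    rw [← norm_pow, hkey, norm_mul, ← hXn]
    exact mul_lt_of_lt_one_right (norm_pos_iff.2 hX0) hd
  exact lt_of_pow_lt_pow_left₀ _ (norm_nonneg _) hlt

end LUV
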