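import Pool.Agent.LUV.Basic
import Pool.Agent.LUV.Closed
import Pool.Agent.LUV.ClSup
import Pool.Agent.LUV.PGroup
import Pool.Agent.LUV.TowP
import Pool.Agent.LUV.AsTower
import Pool.Agent.LUV.DescAll
import Pool.Agent.LUV.Perturb
import Pool.Agent.LUV.CauF

/-! Project LUV: (Core) the core theorem. -/

set_option autoImplicit false

namespace LUV

open Polynomial

variable {k : Type*} [Field k] {Ω : Type*} [NormedField Ω] [Algebra k Ω] [Big k Ω] {r : ℕ}

/-- If `L` is a closed immediate field with one generator, then every element close to a suitable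
element is a generator. -/
private theorem core_end {u : Fin r → Ω} (hu : Base u) {L : IntermediateField k Ω}
    (hL : IsClosed (L : Set Ω)) (huL : ∀ i, u i ∈ L) (hI : Imm u L) {t1 : Ω}
    (h1 : L = clT k u t1) :
    ∃ t0 ∈ L, ∃ ρ : ℝ, 0 < ρ ∧ ∀ t ∈ L, ‖t - t0‖ ≤ ρ → L = clT k u t := by
  have ht1 : t1 ∈ L := by
    rw [h1]
    exact t_mem_clT u t1
  by_cases hF : t1 ∈ clF k u
  · have hLF : L = clF k u := by rw [h1, clT_of_mem hF]
    refine ⟨0, zero_mem _, 1, one_pos, fun t ht _ => ?_⟩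
    rw [hLF] at ht
    rw [clT_of_mem ht, hLF]
  · obtain ⟨ρ, hLim, hCau⟩ := lim_cau hu huL hI ht1 hF
    refine ⟨t1, ht1, ρ, hLim.pos, fun t ht hρ => ?_⟩
    have hy : t ∈ cl k (insert t1 (clF k u : Set Ω)) := by
      rw [clT_eq, ← h1]
      exact ht
    have hnorm : ‖t1 - (0 + 1 * t)‖ ≤ ρ := by
      rw [zero_add, one_mul, norm_sub_rev]
      exact hρ
    have hmem := perturb (cl_closed _) hLim hCau hy (zero_mem _) (one_mem _) hnorm
    rw [clT_eq] at hmem
    apply le_antisymm
    · rw [h1]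
      exact clT_le (cl_closed _) (fun i => clF_le_clT u t (u_mem_clF u i)) hmem
    · exact clT_le hL huL ht

variable [IsAlgClosed k] (p : ℕ) [Fact p.Prime] [CharP k p]

include p in
/-- The core theorem: a closed immediate field, separable of finite degree over a field with one
generator, has one generator, and every element close to it is a generator. -/
theorem core {u : Fin r → Ω} (hu : Base u) (hr : 0 < r) {L : IntermediateField k Ω}
    (hL : IsClosed (L : Set Ω)) (huL : ∀ i, u i ∈ L) (hI : Imm u L) {x0 : Ω} (hx0 : x0 ∈ L)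
    {y : Ω} (hy : IsSeparable (clT k u x0) y)
    (hLy : L = clT k u x0 ⊔ IntermediateField.adjoin k {y}) :
    ∃ t0 ∈ L, ∃ ρ : ℝ, 0 < ρ ∧ ∀ t ∈ L, ‖t - t0‖ ≤ ρ → L = clT k u t := by
  have _ : IsAlgClosed Ω := Big.closed k
  have hML : clT k u x0 ≤ L := clT_le hL huL hx0
  have huM : ∀ i, u i ∈ clT k u x0 := fun i => clF_le_clT u x0 (u_mem_clF u i)
  have hIM : Imm u (clT k u x0) := fun z hz hz0 => hI z (hML hz) hz0
  obtain ⟨l, hl, H⟩ := exists_pgroup p hu hr (cl_closed _) huM hIM hy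
  have hlpos : 0 < l := by
    rcases Nat.eq_zero_or_pos l with h | h
    · rw [h, Nat.cast_zero] at hl
      exact absurd rfl hl
    · exact h
  have hroots : ∀ i, ∃ z : Ω, z ^ l = u i := fun i => IsAlgClosed.exists_pow_nat_eq (u i) hlpos
  choose x hx using hroots
  obtain ⟨N, hfd, hgal, hG, hyN⟩ := H x hx
  have hT := tow_of_pgroup p _ N hG hyN
  have hM' := clT_sup (k := k) hu hr x0 hlpos hx
  have hL' : clT k u x0 ⊔ IntermediateField.adjoin k (Set.range x) ⊔ IntermediateField.adjoin k {y} =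
      L ⊔ IntermediateField.adjoin k (Set.range x) := by
    rw [sup_right_comm, ← hLy]
  obtain ⟨⟨hBx, hIx, hcx⟩, hdesc⟩ := desc_all hu hl hx hL huL hI
  have hxL' : ∀ i, x i ∈ L ⊔ IntermediateField.adjoin k (Set.range x) := fun i =>
    (le_sup_right : IntermediateField.adjoin k (Set.range x) ≤ _)
      (IntermediateField.subset_adjoin k _ ⟨i, rfl⟩)
  have hx0L' : x0 ∈ L ⊔ IntermediateField.adjoin k (Set.range x) :=
    (le_sup_left : L ≤ _) hx0
  obtain ⟨t, -, ht⟩ := as_tower p hBx hr hcx hxL' hIx ⟨x0, hx0L', hM'⟩ hT hL'.le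
  obtain ⟨t1, ht1⟩ := hdesc ⟨t, by rw [← hL']; exact ht⟩
  exact core_end hu hL huL hI ht1

end LUV
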