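import Mathlib

/-! Project LUV (MP_53121e_ag): definitions and basic lemmas. -/

set_option autoImplicit false

namespace LUV

open Polynomial

/-- Exponents of the toric variables. -/
abbrev G (r : ℕ) := Fin r → ℤ

/-- Exponents of monomials `u^b X^i`. -/
abbrev Ex (r : ℕ) := (Fin r → ℤ) × ℕ

/-- `k[u^{±1}][X]`. -/
abbrev A (k : Type*) [Field k] (r : ℕ) := AddMonoidAlgebra k (Ex r)

section Alg

variable {k : Type*} [Field k] {r : ℕ}

/-- The monomial `c u^b X^i`. -/
noncomputable def mono (b : G r) (i : ℕ) (c : k) : A k r := AddMonoidAlgebra.single (b, i) c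

theorem mono_mul (b b' : G r) (i i' : ℕ) (c c' : k) :
    mono b i c * mono b' i' c' = mono (b + b') (i + i') (c * c') := by
  simp [mono, AddMonoidAlgebra.single_mul_single]

theorem mono_zero_one : (mono 0 0 1 : A k r) = 1 := rfl

/-- Substitution `X ↦ Y`, identity on `u`. -/
noncomputable def subst (Y : A k r) : A k r →ₐ[k] A k r :=
  AddMonoidAlgebra.lift k (A k r) (Ex r)
    { toFun := fun q => mono q.toAdd.1 0 1 * Y ^ q.toAdd.2
      map_one' := by
        change mono 0 0 1 * Y ^ 0 = 1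
        rw [mono_zero_one, pow_zero, one_mul]
      map_mul' := fun x y => by
        have h : mono (x.toAdd.1 + y.toAdd.1) 0 (1 : k) = mono x.toAdd.1 0 1 * mono y.toAdd.1 0 1 := by
          rw [mono_mul]; simp
        simp only [toAdd_mul, Prod.fst_add, Prod.snd_add, h, pow_add]
        ring }

theorem subst_mono (Y : A k r) (b : G r) (i : ℕ) (c : k) :
    subst Y (mono b i c) = c • (mono b 0 1 * Y ^ i) := by
  simp [subst, mono]

/-- Recentering `X ↦ c u^g + X`. -/
noncomputable def rho (c : k) (g : G r) : A k r →ₐ[k] A k r := subst (mono g 0 c + mono 0 1 1)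

/-- Iterated recentering. -/
noncomputable def shift (c : ℕ → k) (g : ℕ → G r) : ℕ → A k r → A k r
  | 0, P => P
  | m + 1, P => rho (c m) (g m) (shift c g m P)

/-- The level of a monomial: weight of `u^b X^i` if `X` has weight `s`. -/
noncomputable def lev (wt : G r →+ ℝ) (s : ℝ) (q : Ex r) : ℝ := wt q.1 + q.2 * s

/-- The part of `P` supported at the monomials `u^(b - i g) X^i`, as a polynomial in `X`
(`i ↦` coefficient of `u^(b - i g) X^i`). -/
noncomputable def lf (g b : G r) (P : A k r) : Polynomial k :=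
  ∑ q ∈ P.coeff.support with q.1 + q.2 • g = b, Polynomial.monomial q.2 (P.coeff q)

/-- At slope `wt g`, `b` is the minimal level of `P`, and the leading form does not vanish at `c`. -/
def Good (wt : G r →+ ℝ) (c : k) (g : G r) (P : A k r) (b : G r) : Prop :=
  (∀ q ∈ P.coeff.support, wt b ≤ lev wt (wt g) q) ∧ (lf g b P).eval c ≠ 0

/-- The `X^i`-coefficient, as an element of the subalgebra `k[u^{±1}]` of `A k r`. -/
noncomputable def cof (i : ℕ) (P : A k r) : A k r :=
  ∑ q ∈ P.coeff.support with q.2 = i, mono q.1 0 (P.coeff q)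

end Alg

section Ana

variable {k : Type*} [Field k] {Ω : Type*} [NormedField Ω] [Algebra k Ω] {r : ℕ}

/-- The monomial `u^b`. -/
noncomputable def mon (u : Fin r → Ω) (b : G r) : Ω := ∏ i, u i ^ b i

theorem mon_zero (u : Fin r → Ω) : mon u 0 = 1 := by simp [mon]

theorem mon_add {u : Fin r → Ω} (hu : ∀ i, u i ≠ 0) (a b : G r) :
    mon u (a + b) = mon u a * mon u b := by
  simp only [mon, Pi.add_apply, ← Finset.prod_mul_distrib]
  exact Finset.prod_congr rfl fun i _ => zpow_add₀ (hu i) _ _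

theorem mon_ne {u : Fin r → Ω} (hu : ∀ i, u i ≠ 0) (b : G r) : mon u b ≠ 0 :=
  Finset.prod_ne_zero_iff.2 fun i _ => zpow_ne_zero _ (hu i)

theorem mon_neg {u : Fin r → Ω} (b : G r) : mon u (-b) = (mon u b)⁻¹ := by
  simp [mon]

theorem mon_sub {u : Fin r → Ω} (hu : ∀ i, u i ≠ 0) (a b : G r) :
    mon u (a - b) = mon u a / mon u b := by
  rw [sub_eq_add_neg, mon_add hu, mon_neg, div_eq_mul_inv]

theorem mon_nsmul {u : Fin r → Ω} (n : ℕ) (b : G r) : mon u (n • b) = mon u b ^ n := by
  simp only [mon, Pi.smul_apply, ← Finset.prod_pow]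
  refine Finset.prod_congr rfl fun i _ => ?_
  rw [← zpow_natCast, ← zpow_mul]
  simp [mul_comm]

/-- Evaluation `X ↦ x`. -/
noncomputable def ev {u : Fin r → Ω} (hu : ∀ i, u i ≠ 0) (x : Ω) : A k r →ₐ[k] Ω :=
  AddMonoidAlgebra.lift k Ω (Ex r)
    { toFun := fun q => mon u q.toAdd.1 * x ^ q.toAdd.2
      map_one' := by
        change mon u 0 * x ^ 0 = 1
        rw [mon_zero, pow_zero, one_mul]
      map_mul' := fun x' y => by
        simp only [toAdd_mul, Prod.fst_add, Prod.snd_add, mon_add hu, pow_add]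
        ring }

theorem ev_mono {u : Fin r → Ω} (hu : ∀ i, u i ≠ 0) (x : Ω) (b : G r) (i : ℕ) (c : k) :
    ev hu x (mono b i c) = algebraMap k Ω c * (mon u b * x ^ i) := by
  simp [ev, mono, Algebra.smul_def]

theorem ev_eq_sum {u : Fin r → Ω} (hu : ∀ i, u i ≠ 0) (x : Ω) (P : A k r) :
    ev hu x P = ∑ q ∈ P.coeff.support, algebraMap k Ω (P.coeff q) * (mon u q.1 * x ^ q.2) := by
  simp [ev, AddMonoidAlgebra.lift_apply, Finsupp.sum, Algebra.smul_def]

theorem ev_subst {u : Fin r → Ω} (hu : ∀ i, u i ≠ 0) (x : Ω) (Y P : A k r) :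
    ev hu x (subst Y P) = ev hu (ev hu x Y) P := by
  induction P using AddMonoidAlgebra.induction_on with
  | of q =>
    obtain ⟨b, i⟩ := q
    change ev hu x (subst Y (mono b i 1)) = ev hu (ev hu x Y) (mono b i 1)
    rw [subst_mono, one_smul, map_mul, map_pow, ev_mono, ev_mono]
    simp
  | add a b ha hb => rw [map_add, map_add, map_add, ha, hb]
  | smul c a ha => rw [map_smul, map_smul, map_smul, ha]

theorem ev_rho {u : Fin r → Ω} (hu : ∀ i, u i ≠ 0) (x : Ω) (c : k) (g : G r) (P : A k r) :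
    ev hu x (rho c g P) = ev hu (algebraMap k Ω c * mon u g + x) P := by
  rw [rho, ev_subst]
  simp [ev_mono, mon_zero]

/-- The polynomial over `Ω` given by `P` at the base `u`. -/
noncomputable def toPoly (u : Fin r → Ω) (P : A k r) : Polynomial Ω :=
  ∑ q ∈ P.coeff.support, Polynomial.monomial q.2 (algebraMap k Ω (P.coeff q) * mon u q.1)

theorem eval_toPoly {u : Fin r → Ω} (hu : ∀ i, u i ≠ 0) (x : Ω) (P : A k r) :
    (toPoly u P).eval x = ev hu x P := by
  rw [ev_eq_sum, toPoly, Polynomial.eval_finsetSum]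
  exact Finset.sum_congr rfl fun q _ => by rw [Polynomial.eval_monomial, mul_assoc]

/-- Weights of exponents: `wt u b = - log ‖u^b‖`. -/
noncomputable def wt (u : Fin r → Ω) : G r →+ ℝ where
  toFun b := ∑ i, (b i : ℝ) * (-Real.log ‖u i‖)
  map_zero' := by simp
  map_add' a b := by
    rw [← Finset.sum_add_distrib]
    exact Finset.sum_congr rfl fun i _ => by rw [Pi.add_apply]; push_cast; ring

theorem norm_mon {u : Fin r → Ω} (hu : ∀ i, u i ≠ 0) (b : G r) :
    ‖mon u b‖ = Real.exp (-(wt u b)) := by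
  have h : ∀ i, 0 < ‖u i‖ := fun i => norm_pos_iff.2 (hu i)
  simp only [mon, norm_prod, norm_zpow, wt, AddMonoidHom.coe_mk, ZeroHom.coe_mk,
    ← Finset.sum_neg_distrib, Real.exp_sum]
  refine Finset.prod_congr rfl fun i _ => ?_
  rw [show -((b i : ℝ) * -Real.log ‖u i‖) = Real.log ‖u i‖ * (b i : ℝ) by ring, Real.exp_mul,
    Real.exp_log (h i), Real.rpow_intCast]

theorem norm_mon_lt {u : Fin r → Ω} (hu : ∀ i, u i ≠ 0) {a b : G r} :
    ‖mon u a‖ < ‖mon u b‖ ↔ wt u b < wt u a := by
  rw [norm_mon hu, norm_mon hu, Real.exp_lt_exp, neg_lt_neg_iff]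

theorem norm_mon_le {u : Fin r → Ω} (hu : ∀ i, u i ≠ 0) {a b : G r} :
    ‖mon u a‖ ≤ ‖mon u b‖ ↔ wt u b ≤ wt u a := by
  rw [norm_mon hu, norm_mon hu, Real.exp_le_exp, neg_le_neg_iff]

/-- The base variables: nonzero, with rationally independent weights. -/
structure Base (u : Fin r → Ω) : Prop where
  ne : ∀ i, u i ≠ 0
  inj : Function.Injective (wt u)

/-- The standing assumptions on the ambient field `Ω`. -/
class Big (k Ω : Type*) [Field k] [NormedField Ω] [Algebra k Ω] : Prop where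
  ultra : IsUltrametricDist Ω
  complete : CompleteSpace Ω
  closed : IsAlgClosed Ω
  norm_k : ∀ c : k, c ≠ 0 → ‖algebraMap k Ω c‖ = 1
  res : ∀ x : Ω, ‖x‖ ≤ 1 → ∃ c : k, ‖x - algebraMap k Ω c‖ < 1

variable (k) in
/-- The closure of the subfield generated by `S` over `k`. -/
noncomputable def cl (S : Set Ω) : IntermediateField k Ω :=
  (IntermediateField.adjoin k S).toSubfield.topologicalClosure.toIntermediateField fun c =>
    Subfield.le_topologicalClosure _ ((IntermediateField.adjoin k S).algebraMap_mem c)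

/-- The closed subfield of the toric variables. -/
noncomputable abbrev clF (k : Type*) [Field k] {Ω : Type*} [NormedField Ω] [Algebra k Ω] {r : ℕ}
    (u : Fin r → Ω) : IntermediateField k Ω := cl k (Set.range u)

/-- The closed subfield generated by the toric variables and `t`. -/
noncomputable abbrev clT (k : Type*) [Field k] {Ω : Type*} [NormedField Ω] [Algebra k Ω] {r : ℕ}
    (u : Fin r → Ω) (t : Ω) : IntermediateField k Ω := cl k (insert t (Set.range u))

/-- `L` is immediate over the toric variables `u`: same value group. -/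
def Imm (u : Fin r → Ω) (L : IntermediateField k Ω) : Prop :=
  ∀ y ∈ L, y ≠ 0 → ∃ g : G r, ‖y‖ = ‖mon u g‖

/-- Partial sums. -/
noncomputable def psum (u : Fin r → Ω) (c : ℕ → k) (g : ℕ → G r) (m : ℕ) : Ω :=
  ∑ i ∈ Finset.range m, algebraMap k Ω (c i) * mon u (g i)

/-- An infinite expansion `t = c 0 u^(g 0) + c 1 u^(g 1) + ...`. -/
structure Expn (u : Fin r → Ω) (t : Ω) (c : ℕ → k) (g : ℕ → G r) : Prop where
  c_ne : ∀ m, c m ≠ 0
  mono : StrictMono fun m => wt u (g m)
  norm : ∀ m, ‖t - psum u c g m‖ = ‖mon u (g m)‖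

/-- `ρ` is the distance from `t` to `F`, not attained. -/
structure Lim (F : IntermediateField k Ω) (t : Ω) (ρ : ℝ) : Prop where
  pos : 0 < ρ
  lt : ∀ b ∈ F, ρ < ‖t - b‖
  app : ∀ R, ρ < R → ∃ b ∈ F, ‖t - b‖ < R

/-- Cauchy estimates for polynomials over `F` on the disc of radius `ρ` around `t` (that is, `t` is
of transcendental type over `F`). -/
def Cau (F : IntermediateField k Ω) (t : Ω) (ρ : ℝ) : Prop :=
  ∀ Q : Polynomial Ω, Q ≠ 0 → (∀ i, Q.coeff i ∈ F) →
    ∃ R > ρ, ∀ i, ‖(Polynomial.taylor t Q).coeff i‖ * R ^ i ≤ ‖Q.eval t‖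

/-- Towers of Artin-Schreier extensions. -/
inductive Tow (p : ℕ) (M : IntermediateField k Ω) : IntermediateField k Ω → Prop
  | refl : Tow p M M
  | step (N : IntermediateField k Ω) (z : Ω) : Tow p M N → z ^ p - z ∈ N →
      Tow p M (N ⊔ IntermediateField.adjoin k {z})

/-- `L' = L(x)`, every element of `L'` is a unique sum of `x^a f_a`, and the norm is the maximum. -/
structure Dec (x : Ω) (l : ℕ) (L L' : IntermediateField k Ω) : Prop where
  pos : 0 < l
  ne : x ≠ 0
  le : L ≤ L'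
  xmem : x ∈ L'
  xpow : x ^ l ∈ L
  ex : ∀ y ∈ L', ∃ f : Fin l → Ω, (∀ a, f a ∈ L) ∧ y = ∑ a : Fin l, x ^ (a : ℕ) * f a
  norm : ∀ f : Fin l → Ω, (∀ a, f a ∈ L) →
    ∀ a : Fin l, ‖x ^ (a : ℕ) * f a‖ ≤ ‖∑ b : Fin l, x ^ (b : ℕ) * f b‖

end Ana

end LUV
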