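import Pool.Agent.LUV.Basic
import Pool.Agent.LUV.Closed
import Pool.Agent.LUV.Core
import Pool.Agent.LUV.ExistsU

/-! Project LUV: (E3) the generator inside K. -/

set_option autoImplicit false

namespace LUV

open Polynomial

universe u

variable {k K : Type u} [Field k] [IsAlgClosed k] [Field K] [Algebra k K]
  [Algebra.EssFiniteType k K] {Ω : Type*} [NormedField Ω] [Algebra k Ω] [Big k Ω] {r : ℕ}

omit [IsAlgClosed k] in
/-- `K` is finite over a subfield over which it is algebraic. -/
private theorem ExistsGen_fd (E : IntermediateField k K) (h : Algebra.IsAlgebraic E K) :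
    FiniteDimensional E K := by
  have : Algebra.EssFiniteType E K := Algebra.EssFiniteType.of_comp k E K
  obtain ⟨S, hS⟩ := IntermediateField.fg_top E K
  have : FiniteDimensional E (IntermediateField.adjoin E (S : Set K)) :=
    IntermediateField.finiteDimensional_adjoin fun x _ =>
      (Algebra.IsAlgebraic.isAlgebraic (R := E) x).isIntegral
  rw [hS] at this
  exact (IntermediateField.topEquiv (F := E) (E := K)).toLinearEquiv.finiteDimensional

omit [IsAlgClosed k] [Algebra.EssFiniteType k K] [Big k Ω] in
/-- The image of `k(S)` lies in `k(ι S)`. -/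
private theorem ExistsGen_map (ι : K →ₐ[k] Ω) (S : Set K) {x : K}
    (hx : x ∈ IntermediateField.adjoin k S) : ι x ∈ IntermediateField.adjoin k (ι '' S) := by
  rw [← IntermediateField.adjoin_map]
  exact ⟨x, hx, rfl⟩

/-- The generator inside `K`. -/
theorem exists_gen (p : ℕ) [Fact p.Prime] [CharP k p] (ι : K →ₐ[k] Ω) (hr : 0 < r)
    (hn : Algebra.trdeg k K = (r + 1 : ℕ)) (u : Fin r → K) (hu : Base fun i => ι (u i))
    (hI : ∀ y : K, y ≠ 0 → ∃ g : G r, ‖ι y‖ = ‖mon (fun i => ι (u i)) g‖) (x0 : K)
    (hsep : Algebra.IsSeparable (IntermediateField.adjoin k (insert x0 (Set.range u))) K) :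
    ∃ t : K, Algebra.IsSeparable (IntermediateField.adjoin k (insert t (Set.range u))) K ∧
      ∀ y : K, ι y ∈ clT k (fun i => ι (u i)) (ι t) := by
  classical
  set v : Fin r → Ω := fun i => ι (u i) with hv
  set E : IntermediateField k K := IntermediateField.adjoin k (insert x0 (Set.range u)) with hE
  have hfd : FiniteDimensional E K := ExistsGen_fd E inferInstance
  obtain ⟨y, hy⟩ := Field.exists_primitive_element E K
  set L : IntermediateField k Ω := cl k (Set.range ι) with hL
  set M : IntermediateField k Ω := clT k v (ι x0) with hM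
  have hLc : IsClosed (L : Set Ω) := cl_closed _
  have hιL : ∀ w : K, ι w ∈ L := fun w => subset_cl _ ⟨w, rfl⟩
  have hMc : IsClosed (M : Set Ω) := cl_closed _
  -- the image of `E` lies in `M`
  have himg : ι '' (insert x0 (Set.range u)) = insert (ι x0) (Set.range v) := by
    rw [Set.image_insert_eq, ← Set.range_comp]
    rfl
  have hEM : ∀ e : K, e ∈ E → ι e ∈ M := by
    intro e he
    have h := ExistsGen_map ι _ he
    rw [himg] at h
    exact adjoin_le_cl _ h
  -- separability of `ι y` over `M`
  let φ : E →+* M :=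
    { toFun := fun e => ⟨ι e, hEM e e.2⟩
      map_one' := by ext; simp
      map_mul' := fun a b => by ext; simp
      map_zero' := by ext; simp
      map_add' := fun a b => by ext; simp }
  have hsy : IsSeparable E y := Algebra.IsSeparable.isSeparable E y
  have hroot : Polynomial.aeval (ι y) ((minpoly E y).map φ) = 0 := by
    rw [Polynomial.aeval_def, Polynomial.eval₂_map]
    have hc : (algebraMap M Ω).comp φ = (ι : K →+* Ω).comp (algebraMap E K) := by
      ext e; rfl
    rw [hc]
    change Polynomial.eval₂ ((ι : K →+* Ω).comp (algebraMap E K)) ((ι : K →+* Ω) y)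
      (minpoly E y) = 0
    rw [← Polynomial.hom_eval₂]
    have h0 : Polynomial.eval₂ (algebraMap E K) y (minpoly E y) = 0 := minpoly.aeval E y
    rw [h0, map_zero]
  have hsM : IsSeparable M (ι y) := by
    have hs : ((minpoly E y).map φ).Separable := Polynomial.Separable.map hsy
    exact hs.of_dvd (minpoly.dvd M (ι y) hroot)
  have hnt : ∃ w ∈ M, w ≠ 0 ∧ ‖w‖ ≠ 1 := by
    let i0 : Fin r := ⟨0, hr⟩
    refine ⟨v i0, hEM _ (IntermediateField.subset_adjoin _ _ (Set.mem_insert_of_mem _ ⟨i0, rfl⟩)),
      hu.ne i0, fun h1 => ?_⟩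
    have h2 : wt v (Pi.single i0 1) = 0 := by
      have h3 : wt v (Pi.single i0 1) = -Real.log ‖v i0‖ := by
        change ∑ i, ((Pi.single i0 (1 : ℤ) : Fin r → ℤ) i : ℝ) * (-Real.log ‖v i‖) = _
        rw [Finset.sum_eq_single i0]
        · simp
        · intro b _ hb; simp [hb]
        · intro h; exact absurd (Finset.mem_univ _) h
      rw [h3, h1, Real.log_one, neg_zero]
    have h4 := hu.inj (h2.trans (map_zero (wt v)).symm)
    have h5 := congrFun h4 i0
    simp at h5
  have hM'c : IsClosed ((M ⊔ IntermediateField.adjoin k {ι y} : IntermediateField k Ω) : Set Ω) :=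
    closed_sup_adjoin M hMc hnt {ι y} (Set.finite_singleton _) (by
      intro w hw
      rw [Set.mem_singleton_iff] at hw
      rw [hw]
      exact hsM.isIntegral.isAlgebraic)
  have hιM' : ∀ w : K, ι w ∈ (M ⊔ IntermediateField.adjoin k {ι y} : IntermediateField k Ω) := by
    intro w
    have hw : w ∈ IntermediateField.adjoin E {y} := by rw [hy]; exact IntermediateField.mem_top
    induction hw using IntermediateField.adjoin_induction with
    | mem w hw =>
      rw [Set.mem_singleton_iff] at hw; rw [hw]
      exact (le_sup_right : IntermediateField.adjoin k {ι y} ≤ _)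
        (IntermediateField.mem_adjoin_simple_self k (ι y))
    | algebraMap e => exact (le_sup_left : M ≤ _) (hEM _ e.2)
    | add a b _ _ ha hb => rw [map_add]; exact add_mem ha hb
    | inv a _ ha => rw [map_inv₀]; exact inv_mem ha
    | mul a b _ _ ha hb => rw [map_mul]; exact mul_mem ha hb
  have hLy : L = M ⊔ IntermediateField.adjoin k {ι y} := by
    apply le_antisymm
    · refine cl_le hM'c ?_
      rintro _ ⟨w, rfl⟩
      exact hιM' w
    · refine sup_le ?_ ?_
      · refine clT_le hLc (fun i => hιL _) (hιL _)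
      · rw [IntermediateField.adjoin_simple_le_iff]
        exact hιL y
  have hImm : Imm v L := by
    intro w hw hw0
    obtain ⟨z, hz, hzw⟩ := mem_cl_iff.1 hw ‖w‖ (norm_pos_iff.2 hw0)
    have hz' : z ∈ ι.fieldRange := by
      have h : IntermediateField.adjoin k (Set.range ι) ≤ ι.fieldRange :=
        IntermediateField.adjoin_le_iff.2 fun a ha => ha
      exact h hz
    obtain ⟨a, rfl⟩ := hz'
    have h1 : ‖ι a‖ = ‖w‖ := Big.norm_eq k (by rw [norm_sub_rev]; exact hzw)
    have ha : a ≠ 0 := by
      rintro rfl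
      rw [map_zero, norm_zero] at h1
      exact hw0 (norm_eq_zero.1 h1.symm)
    obtain ⟨g, hg⟩ := hI a ha
    exact ⟨g, h1.symm.trans hg⟩
  obtain ⟨t0, ht0, ρ, hρ, hcore⟩ := core (k := k) (L := L) p hu hr hLc (fun i => hιL _) hImm
    (hιL x0) hsM hLy
  obtain ⟨t, ht, hsept⟩ := exists_t p ι hr hn u hu x0 hsep (ρ := ρ) ht0 hρ
  refine ⟨t, hsept, fun w => ?_⟩
  rw [← hcore (ι t) (hιL t) ht]
  exact hιL w

end LUV
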