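import Pool.Agent.LUV.Basic

/-! Project LUV: (E5a) equations in Hensel form. -/

set_option autoImplicit false

namespace LUV

open Polynomial

universe u

variable {k : Type*} [Field k] {K : Type*} [Field K] [Algebra k K]
  {Ω : Type*} [NormedField Ω] [Algebra k Ω] [Big k Ω]

private theorem hf_sum_lt (k : Type*) [Field k] {Ω : Type*} [NormedField Ω] [Algebra k Ω]
    [Big k Ω] {ι : Type*} (s : Finset ι) (f : ι → Ω) {B : ℝ} (hB : 0 < B)
    (h : ∀ i ∈ s, ‖f i‖ < B) : ‖∑ i ∈ s, f i‖ < B := by
  classical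
  induction s using Finset.induction_on with
  | empty => simpa using hB
  | insert a s ha ih =>
    rw [Finset.sum_insert ha]
    exact (Big.add_le k _ _).trans_lt (max_lt (h a (Finset.mem_insert_self _ _))
      (ih fun i hi => h i (Finset.mem_insert_of_mem hi)))

/-- A finite separable extension of a dense subfield has a generator with an equation in Hensel
form. -/
theorem hensel_form (ι : K →ₐ[k] Ω) (E : IntermediateField k K) [FiniteDimensional E K]
    [Algebra.IsSeparable E K] (hd : ∀ y : K, ∀ ε : ℝ, 0 < ε → ∃ e ∈ E, ‖ι y - ι e‖ < ε) :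
    ∃ (y : K) (Ψ : Polynomial K), ‖ι (y + 1)‖ < 1 ∧ (∀ j, Ψ.coeff j ∈ E) ∧
      (∀ j, ‖ι (Ψ.coeff j)‖ < 1) ∧ 1 + y + y ^ 2 * Ψ.eval y = 0 ∧
      IntermediateField.adjoin E {y} = ⊤ := by
  classical
  obtain ⟨z, hz⟩ := Field.exists_primitive_element E K
  by_cases hzE : z ∈ E
  · refine ⟨-1, 0, by simp, fun j => by simp, fun j => by simp, by simp, ?_⟩
    rw [eq_top_iff, ← hz, IntermediateField.adjoin_simple_le_iff]
    exact (IntermediateField.adjoin E {(-1 : K)}).algebraMap_mem ⟨z, hzE⟩
  -- the minimal polynomial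
  set p : Polynomial E := minpoly E z with hp
  have hzint : IsIntegral E z := Algebra.IsIntegral.isIntegral z
  have hpirr : Irreducible p := minpoly.irreducible hzint
  have hroot : aeval z p = 0 := minpoly.aeval E z
  have hder : aeval z (derivative p) ≠ 0 :=
    (Algebra.IsSeparable.isSeparable E z).aeval_derivative_ne_zero hroot
  have hnoroot : ∀ e : E, p.eval e ≠ 0 := by
    intro e he
    have hdeg : p.degree = 1 := Polynomial.degree_eq_one_of_irreducible_of_root hpirr he
    have : z ∈ (algebraMap E K).range := minpoly.mem_range_of_degree_eq_one E z hdeg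
    obtain ⟨e', he'⟩ := this
    exact hzE (he' ▸ e'.2)
  set φ : E →+* Ω := (ι : K →+* Ω).comp (algebraMap E K) with hφ
  have hφE : ∀ e : E, φ e = ι (e : K) := fun e => rfl
  -- polynomials over Ω
  set Q : ℕ → Polynomial Ω := fun j => (hasseDeriv j p).map φ with hQ
  have hQz : ∀ q : Polynomial E, (q.map φ).eval (ι z) = ι (aeval z q) := by
    intro q
    rw [Polynomial.eval_map, hφ, aeval_def]
    exact (Polynomial.hom_eval₂ q (algebraMap E K) (ι : K →+* Ω) z).symm
  have hQe : ∀ (q : Polynomial E) (e : E), (q.map φ).eval (ι (e : K)) = ι ((q.eval e : E) : K) := by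
    intro q e
    rw [Polynomial.eval_map, ← hφE e, Polynomial.eval₂_at_apply]
    rfl
  have hQ0 : (Q 0).eval (ι z) = 0 := by
    rw [hQ]
    simp only [hasseDeriv_zero', hQz, hroot, map_zero]
  have hQ1 : (Q 1).eval (ι z) ≠ 0 := by
    rw [hQ]
    simp only [hasseDeriv_one', hQz]
    exact fun h => hder ((map_eq_zero ι).1 h)
  have hQ1pos : 0 < ‖(Q 1).eval (ι z)‖ := norm_pos_iff.2 hQ1
  have hcont : ∀ j, Continuous fun w : Ω => (Q j).eval w := fun j => (Q j).continuous
  set N := p.natDegree with hN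
  -- the two open conditions
  have hev : ∀ᶠ w in nhds (ι z), (Q 1).eval w ≠ 0 ∧ ∀ j ∈ Finset.range N,
      (‖(Q (j + 2)).eval w‖ * ‖(Q 0).eval w‖ ^ (j + 1) < ‖(Q 1).eval w‖ ^ (j + 2) ∧
       ‖(Q (j + 2)).eval w‖ * ‖ι z - w‖ ^ (j + 1) < ‖(Q 1).eval w‖) := by
    refine Filter.Eventually.and ?_ ?_
    · exact (hcont 1).continuousAt.eventually_ne hQ1
    · rw [Filter.eventually_all_finset]
      intro j _
      refine Filter.Eventually.and ?_ ?_
      · refine ContinuousAt.eventually_lt ?_ ?_ ?_
        · exact (((hcont (j + 2)).norm).mul (((hcont 0).norm).pow (j + 1))).continuousAt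
        · exact (((hcont 1).norm).pow (j + 2)).continuousAt
        · rw [hQ0, norm_zero, zero_pow (by omega), mul_zero]
          exact pow_pos hQ1pos _
      · refine ContinuousAt.eventually_lt ?_ ?_ ?_
        · exact (((hcont (j + 2)).norm).mul
            (((continuous_const (y := ι z)).sub continuous_id).norm.pow (j + 1))).continuousAt
        · exact ((hcont 1).norm).continuousAt
        · rw [sub_self, norm_zero, zero_pow (by omega), mul_zero]
          exact hQ1pos
  obtain ⟨ε, hε, hball⟩ := Metric.eventually_nhds_iff.1 hev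
  obtain ⟨e0, he0, hclose⟩ := hd z ε hε
  have hdist : dist (ι e0) (ι z) < ε := by
    rw [dist_eq_norm, ← norm_neg]
    simpa using hclose
  obtain ⟨hne1, hcond⟩ := hball hdist
  set z0 : E := ⟨e0, he0⟩ with hz0
  -- Taylor coefficients
  set τ : Polynomial E := taylor z0 p with hτ
  set t : ℕ → K := fun j => ((τ.coeff j : E) : K) with ht
  have htQ : ∀ j, ι (t j) = (Q j).eval (ι e0) := by
    intro j
    have := hQe (hasseDeriv j p) z0
    rw [← Polynomial.taylor_coeff] at this
    exact this.symm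
  have htE : ∀ j, t j ∈ E := fun j => (τ.coeff j).2
  have ht1 : t 1 ≠ 0 := by
    intro h
    apply hne1
    rw [← htQ 1, h, map_zero]
  have ht0 : t 0 ≠ 0 := by
    intro h
    apply hnoroot z0
    have h' : τ.coeff 0 = 0 := Subtype.ext h
    rw [hτ, Polynomial.taylor_coeff_zero] at h'
    exact h'
  have htbig : ∀ j, N < j → t j = 0 := by
    intro j hj
    have : τ.coeff j = 0 := by
      apply Polynomial.coeff_eq_zero_of_natDegree_lt
      rw [hτ, Polynomial.natDegree_taylor]
      exact hj
    rw [ht]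
    simp only [this]
    rfl
  set T : K := z - e0 with hT
  have hTne : T ≠ 0 := by
    intro h
    rw [hT, sub_eq_zero] at h
    exact hzE (h ▸ he0)
  -- the equation of T
  have hsum : t 0 + t 1 * T + ∑ j ∈ Finset.range N, t (j + 2) * T ^ (j + 2) = 0 := by
    have h1 : (τ.map (algebraMap E K)).eval T = 0 := by
      rw [hτ, Polynomial.taylor_apply, Polynomial.map_comp, Polynomial.eval_comp]
      simp only [Polynomial.map_add, Polynomial.map_X, Polynomial.map_C, Polynomial.eval_add,
        Polynomial.eval_X, Polynomial.eval_C]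
      rw [show T + algebraMap E K z0 = z from by
        change z - e0 + e0 = z
        ring, Polynomial.eval_map, ← aeval_def, hroot]
    have h2 : (τ.map (algebraMap E K)).natDegree < N + 2 := by
      refine lt_of_le_of_lt Polynomial.natDegree_map_le ?_
      rw [hτ, Polynomial.natDegree_taylor]
      omega
    rw [Polynomial.eval_eq_sum_range' h2, Finset.sum_range_succ', Finset.sum_range_succ'] at h1
    simp only [Polynomial.coeff_map, pow_zero, mul_one, zero_add, pow_one] at h1
    rw [← h1]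
    change t 0 + t 1 * T + _ = (∑ j ∈ Finset.range N, t (j + 1 + 1) * T ^ (j + 1 + 1)) +
      t 1 * T + t 0
    ring
  -- norms
  have hTn : 0 < ‖ι T‖ := norm_pos_iff.2 ((map_ne_zero ι).2 hTne)
  have ht1n : 0 < ‖ι (t 1)‖ := norm_pos_iff.2 ((map_ne_zero ι).2 ht1)
  have hιT : ι T = ι z - ι e0 := map_sub ι z e0
  have hrest : ‖ι (t 0 + t 1 * T)‖ < ‖ι (t 1 * T)‖ := by
    have h1 : t 0 + t 1 * T = -∑ j ∈ Finset.range N, t (j + 2) * T ^ (j + 2) := by
      linear_combination hsum
    rw [h1, map_neg, norm_neg, map_sum]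
    refine hf_sum_lt k _ _ (by rw [map_mul, norm_mul]; exact mul_pos ht1n hTn) fun j hj => ?_
    have h2 := (hcond j hj).2
    rw [← htQ, ← htQ, ← hιT] at h2
    rw [map_mul, map_pow, norm_mul, norm_pow, map_mul, norm_mul, pow_succ ‖ι T‖ (j + 1),
      ← mul_assoc]
    exact mul_lt_mul_of_pos_right h2 hTn
  have ht0n : ‖ι (t 0)‖ = ‖ι (t 1 * T)‖ := by
    have h1 : ‖ι (t 0)‖ = ‖-ι (t 1 * T)‖ := by
      apply Big.norm_eq k
      rw [sub_neg_eq_add, ← map_add, norm_neg]
      exact hrest
    rwa [norm_neg] at h1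
  have ht0pos : 0 < ‖ι (t 0)‖ := norm_pos_iff.2 ((map_ne_zero ι).2 ht0)
  -- the new generator
  set y : K := T * t 1 / t 0 with hy
  set Ψ : Polynomial K := ∑ j ∈ Finset.range N,
    Polynomial.monomial j (t (j + 2) * t 0 ^ (j + 1) / t 1 ^ (j + 2)) with hΨ
  have hΨc : ∀ j, Ψ.coeff j = if j < N then t (j + 2) * t 0 ^ (j + 1) / t 1 ^ (j + 2) else 0 := by
    intro j
    rw [hΨ, Polynomial.finsetSum_coeff]
    simp only [Polynomial.coeff_monomial]
    rw [Finset.sum_ite_eq' (Finset.range N) j]
    simp only [Finset.mem_range]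
  refine ⟨y, Ψ, ?_, ?_, ?_, ?_, ?_⟩
  · have h1 : y + 1 = (t 0 + t 1 * T) / t 0 := by
      rw [hy]
      field_simp
      ring
    rw [h1, map_div₀, norm_div, div_lt_one ht0pos, ht0n]
    exact hrest
  · intro j
    rw [hΨc]
    split_ifs
    · exact div_mem (mul_mem (htE _) (pow_mem (htE _) _)) (pow_mem (htE _) _)
    · exact zero_mem _
  · intro j
    rw [hΨc]
    split_ifs with hj
    · have h2 := (hcond j (Finset.mem_range.2 hj)).1
      rw [← htQ, ← htQ, ← htQ] at h2
      rw [map_div₀, map_mul, map_pow, map_pow, norm_div, norm_mul, norm_pow, norm_pow,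
        div_lt_one (pow_pos ht1n _)]
      exact h2
    · simp
  · have h1 : y ^ 2 * Ψ.eval y = (∑ j ∈ Finset.range N, t (j + 2) * T ^ (j + 2)) / t 0 := by
      rw [hΨ, Polynomial.eval_finsetSum, Finset.mul_sum, Finset.sum_div]
      refine Finset.sum_congr rfl fun j _ => ?_
      rw [Polynomial.eval_monomial]
      have h3 : y = T * t 1 / t 0 := hy
      have h4 : y ^ 2 * (t (j + 2) * t 0 ^ (j + 1) / t 1 ^ (j + 2) * y ^ j) =
          t (j + 2) * t 0 ^ (j + 1) / t 1 ^ (j + 2) * y ^ (j + 2) := by ring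
      rw [h4, h3, div_pow, mul_pow, div_mul_div_comm, div_eq_div_iff
        (mul_ne_zero (pow_ne_zero _ ht1) (pow_ne_zero _ ht0)) ht0]
      ring
    rw [h1]
    have h2 : 1 + y + (∑ j ∈ Finset.range N, t (j + 2) * T ^ (j + 2)) / t 0 =
        (t 0 + t 1 * T + ∑ j ∈ Finset.range N, t (j + 2) * T ^ (j + 2)) / t 0 := by
      rw [hy]
      field_simp
    rw [h2, hsum, zero_div]
  · rw [eq_top_iff, ← hz, IntermediateField.adjoin_simple_le_iff]
    have h1 : z = e0 + y * t 0 / t 1 := by
      rw [hy, hT]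
      field_simp
      ring
    have hEm : ∀ e ∈ E, e ∈ IntermediateField.adjoin E {y} := fun e he =>
      (IntermediateField.adjoin E {y}).algebraMap_mem ⟨e, he⟩
    rw [h1]
    exact add_mem (hEm _ he0) (div_mem (mul_mem (IntermediateField.mem_adjoin_simple_self E y)
      (hEm _ (htE 0))) (hEm _ (htE 1)))

end LUV
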