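import Pool.Agent.helper90.LU.Crit

/-! Project LUV: (E5b) the regular center. -/

set_option autoImplicit false

namespace LUV

open Polynomial

universe u

section aux

open IsLocalRing LU

variable {k K : Type u} [Field k] [Field K] [Algebra k K] (V : ValuationSubring K)
  (hV : ∀ c : k, algebraMap k K c ∈ V) {ι : Type} (z : ι → K) (hz : ∀ i, z i ∈ V)
  (pt : ι → k)

/-- constants in the valuation ring -/
private noncomputable def cst : k →+* V := (algebraMap k K).codRestrict V.toSubring hV

private lemma res_evV (hpt : ∀ i, residue V ⟨z i, hz i⟩ = residue V (cst V hV (pt i)))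
    (f : MvPolynomial ι k) :
    residue V (evV V hV z hz f) = residue V (cst V hV (MvPolynomial.eval pt f)) := by
  have h : (residue V).comp (evV V hV z hz) =
      ((residue V).comp (cst V hV)).comp (MvPolynomial.eval pt) := by
    apply MvPolynomial.ringHom_ext
    · intro c
      simp [evV, cst]
    · intro i
      have := hpt i
      simp only [RingHom.comp_apply, MvPolynomial.eval_X]
      rw [← this]
      simp [evV]
  exact congrArg (fun g => g f) h

private lemma mem_PP (hpt : ∀ i, residue V ⟨z i, hz i⟩ = residue V (cst V hV (pt i)))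
    (f : MvPolynomial ι k) : f ∈ PP V hV z hz ↔ MvPolynomial.eval pt f = 0 := by
  change evV V hV z hz f ∈ maximalIdeal V ↔ _
  rw [← residue_eq_zero_iff, res_evV V hV z hz pt hpt]
  exact map_eq_zero_iff ((residue V).comp (cst V hV)) ((residue V).comp (cst V hV)).injective

variable (v : ι → k)

/-- the tangent functional on polynomials -/
private noncomputable def tan : MvPolynomial ι k →+* DualNumber k :=
  MvPolynomial.eval₂Hom (TrivSqZeroExt.inlHom k k)
    (fun i => TrivSqZeroExt.inl (pt i) + TrivSqZeroExt.inr (v i))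

private lemma fst_tan (f : MvPolynomial ι k) : (tan pt v f).fst = MvPolynomial.eval pt f := by
  have h : (TrivSqZeroExt.fstHom k k k).toRingHom.comp (tan pt v) = MvPolynomial.eval pt := by
    apply MvPolynomial.ringHom_ext
    · intro c
      simp [tan]
    · intro i
      simp [tan]
  exact congrArg (fun g => g f) h

/-- the tangent functional on the local ring -/
private noncomputable def tanS
    (hpt : ∀ i, residue V ⟨z i, hz i⟩ = residue V (cst V hV (pt i))) :
    SS V hV z hz →+* DualNumber k :=
  IsLocalization.lift (M := (PP V hV z hz).primeCompl) (g := tan pt v) (by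
    intro y
    rw [TrivSqZeroExt.isUnit_iff_isUnit_fst, fst_tan, isUnit_iff_ne_zero]
    intro h
    exact y.2 ((mem_PP V hV z hz pt hpt _).2 h))

private lemma tanS_algebraMap
    (hpt : ∀ i, residue V ⟨z i, hz i⟩ = residue V (cst V hV (pt i))) (f : MvPolynomial ι k) :
    tanS V hV z hz pt v hpt (algebraMap _ _ f) = tan pt v f := IsLocalization.lift_eq _ _

private lemma fst_tanS
    (hpt : ∀ i, residue V ⟨z i, hz i⟩ = residue V (cst V hV (pt i))) (s : SS V hV z hz)
    (hs : evS V hV z hz s ∈ maximalIdeal V) : (tanS V hV z hz pt v hpt s).fst = 0 := by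
  obtain ⟨f, g, rfl⟩ := IsLocalization.exists_mk'_eq (PP V hV z hz).primeCompl s
  have h2 : IsLocalization.mk' (SS V hV z hz) f g *
      algebraMap _ (SS V hV z hz) (g : MvPolynomial ι k) = algebraMap _ (SS V hV z hz) f :=
    IsLocalization.mk'_spec _ _ _
  have hf : f ∈ PP V hV z hz := by
    change evV V hV z hz f ∈ maximalIdeal V
    rw [← evS_algebraMap, ← h2, map_mul]
    exact Ideal.mul_mem_right _ _ hs
  have h3 := congrArg (fun s => (tanS V hV z hz pt v hpt s).fst) h2
  simp only [map_mul, TrivSqZeroExt.fst_mul, tanS_algebraMap, fst_tan] at h3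
  rw [(mem_PP V hV z hz pt hpt f).1 hf] at h3
  rcases mul_eq_zero.1 h3 with h4 | h4
  · exact h4
  · exact absurd ((mem_PP V hV z hz pt hpt _).2 h4) g.2

end aux

section aux2

variable {k K : Type u} [Field k] [Field K] [Algebra k K]

private lemma algOver_of {σ E : Type*} [Field E] (θ : MvPolynomial σ k →+* E) (x : E)
    (P : Polynomial (MvPolynomial σ k)) (hP : P ≠ 0) (h : P.eval₂ θ x = 0) :
    LU.AlgOver θ x := by
  unfold LU.AlgOver
  let _ := θ.toAlgebra
  exact ⟨P, hP, h⟩

private lemma common_denom {n : ℕ} (s : Fin n → K) (Ψ : Polynomial K)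
    (hΨ : ∀ j, ∃ N D : MvPolynomial (Fin n) k, MvPolynomial.constantCoeff D ≠ 0 ∧
      Ψ.coeff j * MvPolynomial.aeval s D = MvPolynomial.aeval s N) :
    ∃ (D : MvPolynomial (Fin n) k) (N : ℕ → MvPolynomial (Fin n) k),
      MvPolynomial.constantCoeff D ≠ 0 ∧ ∀ j ∈ Ψ.support,
        Ψ.coeff j * MvPolynomial.aeval s D = MvPolynomial.aeval s (N j) := by
  classical
  choose N D hD h using hΨ
  refine ⟨∏ j ∈ Ψ.support, D j, fun j => N j * ∏ l ∈ Ψ.support.erase j, D l, ?_, ?_⟩
  · rw [map_prod]
    exact Finset.prod_ne_zero_iff.2 fun j _ => hD j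
  · intro j hj
    rw [← Finset.mul_prod_erase _ _ hj, map_mul, map_mul, ← mul_assoc, h j]

end aux2

/-- The regular center from an equation in Hensel form over a regular ring. -/
theorem lu_crit {k K : Type u} [Field k] [Field K] [Algebra k K] (V : ValuationSubring K)
    (hV : ∀ c : k, algebraMap k K c ∈ V) (n : ℕ) (hn : Algebra.trdeg k K = n) (s : Fin n → K)
    (hs : ∀ i, V.valuation (s i) < 1) (y : K) (hy : V.valuation (y + 1) < 1)
    (hgen : IntermediateField.adjoin k (insert y (Set.range s)) = ⊤)
    (halg : Algebra.IsAlgebraic (IntermediateField.adjoin k (Set.range s)) K)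
    (Ψ : Polynomial K)
    (hΨ : ∀ j, ∃ N D : MvPolynomial (Fin n) k, MvPolynomial.constantCoeff D ≠ 0 ∧
      Ψ.coeff j * MvPolynomial.aeval s D = MvPolynomial.aeval s N)
    (hΨ1 : ∀ j, V.valuation (Ψ.coeff j) < 1) (heq : 1 + y + y ^ 2 * Ψ.eval y = 0) :
    LU.Uniformizable k V := by
  classical
  obtain ⟨D, N, hD, hN⟩ := common_denom s Ψ hΨ
  have hsV : ∀ i, s i ∈ V := fun i => (V.valuation_le_one_iff _).1 (hs i).le
  have hy1 : y + 1 ∈ V := (V.valuation_le_one_iff _).1 hy.le
  have hyV : y ∈ V := by
    have := sub_mem hy1 (one_mem V)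
    rwa [add_sub_cancel_right] at this
  -- the family
  let z : Option (Fin n) → K := fun o => o.elim y s
  have hz : ∀ o, z o ∈ V := by
    rintro (_ | i)
    · exact hyV
    · exact hsV i
  let pt : Option (Fin n) → k := fun o => o.elim (-1) (fun _ => 0)
  let v : Option (Fin n) → k := fun o => o.elim 1 (fun _ => 0)
  have hpt : ∀ o, IsLocalRing.residue V ⟨z o, hz o⟩ =
      IsLocalRing.residue V (cst V hV (pt o)) := by
    rintro (_ | i)
    · rw [← sub_eq_zero, ← map_sub, IsLocalRing.residue_eq_zero_iff, V.valuation_lt_one_iff]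
      simpa [z, pt, cst] using hy
    · rw [← sub_eq_zero, ← map_sub, IsLocalRing.residue_eq_zero_iff, V.valuation_lt_one_iff]
      simpa [z, pt, cst] using hs i
  have hren : ∀ f : MvPolynomial (Fin n) k, MvPolynomial.eval pt (MvPolynomial.rename some f) =
      MvPolynomial.constantCoeff f := by
    intro f
    rw [MvPolynomial.eval_rename]
    have : pt ∘ some = (0 : Fin n → k) := rfl
    rw [this, MvPolynomial.eval_zero]
  have haev : ∀ f : MvPolynomial (Fin n) k,
      MvPolynomial.aeval z (MvPolynomial.rename some f) = MvPolynomial.aeval s f := by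
    intro f
    rw [MvPolynomial.aeval_rename]
    rfl
  have hN0 : ∀ j ∈ Ψ.support, MvPolynomial.constantCoeff (N j) = 0 := by
    intro j hj
    rw [← hren, ← mem_PP V hV z hz pt hpt]
    change LU.evV V hV z hz _ ∈ IsLocalRing.maximalIdeal V
    rw [V.valuation_lt_one_iff, LU.coe_evV, haev, ← hN j hj, map_mul]
    refine mul_lt_one_of_nonneg_of_lt_one_left zero_le (hΨ1 j) ?_
    rw [← haev, ← LU.coe_evV V hV z hz]
    exact V.valuation_le_one _
  -- the relation
  let Q : MvPolynomial (Option (Fin n)) k :=
    MvPolynomial.rename some D * (1 + MvPolynomial.X none) +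
      MvPolynomial.X none ^ 2 * ∑ j ∈ Ψ.support, MvPolynomial.rename some (N j) *
        MvPolynomial.X none ^ j
  have hQ0 : MvPolynomial.aeval z Q = 0 := by
    have h1 : MvPolynomial.aeval z Q = MvPolynomial.aeval s D * (1 + y) +
        y ^ 2 * ∑ j ∈ Ψ.support, MvPolynomial.aeval s (N j) * y ^ j := by
      simp only [Q, map_add, map_mul, map_sum, map_pow, haev, MvPolynomial.aeval_X, map_one]
      rfl
    have h2 : ∑ j ∈ Ψ.support, MvPolynomial.aeval s (N j) * y ^ j =
        MvPolynomial.aeval s D * Ψ.eval y := by
      rw [Polynomial.eval_eq_sum, Polynomial.sum, Finset.mul_sum]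
      refine Finset.sum_congr rfl fun j hj => ?_
      rw [← hN j hj]
      ring
    rw [h1, h2, show MvPolynomial.aeval s D * (1 + y) + y ^ 2 * (MvPolynomial.aeval s D * Ψ.eval y) =
      MvPolynomial.aeval s D * (1 + y + y ^ 2 * Ψ.eval y) by ring, heq, mul_zero]
  have htan : ∀ f : MvPolynomial (Fin n) k, tan pt v (MvPolynomial.rename some f) =
      TrivSqZeroExt.inl (MvPolynomial.constantCoeff f) := by
    intro f
    have h : (tan pt v).comp (MvPolynomial.rename some : MvPolynomial (Fin n) k →ₐ[k]
        MvPolynomial (Option (Fin n)) k).toRingHom =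
        (TrivSqZeroExt.inlHom k k).comp MvPolynomial.constantCoeff := by
      apply MvPolynomial.ringHom_ext
      · intro c
        simp [tan]
      · intro i
        simp [tan, pt, v]
    exact congrArg (fun g => g f) h
  have htanQ : (tan pt v Q).snd = MvPolynomial.constantCoeff D := by
    have h1 : tan pt v Q = TrivSqZeroExt.inl (MvPolynomial.constantCoeff D) *
        TrivSqZeroExt.inr 1 := by
      have h2 : tan pt v (MvPolynomial.X none) =
          (TrivSqZeroExt.inl (-1) + TrivSqZeroExt.inr 1 : DualNumber k) := by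
        simp [tan, pt, v]
      have h3 : (∑ j ∈ Ψ.support, (TrivSqZeroExt.inl (MvPolynomial.constantCoeff (N j)) :
          DualNumber k) * tan pt v (MvPolynomial.X none) ^ j) = 0 := by
        refine Finset.sum_eq_zero fun j hj => ?_
        rw [hN0 j hj, TrivSqZeroExt.inl_zero, zero_mul]
      simp only [Q, map_add, map_mul, map_sum, map_pow, htan, map_one, h3, mul_zero, add_zero]
      rw [h2]
      congr 1
      ext <;> simp
    rw [h1]
    simp
  -- algebraic independence
  have hind : AlgebraicIndependent k s := by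
    have h1 : Algebra.IsAlgebraic (Algebra.adjoin k (Set.range s)) K :=
      IntermediateField.isAlgebraic_adjoin_iff_top.1 halg
    exact (Algebra.IsAlgebraic.isTranscendenceBasis_of_lift_le_trdeg_of_finite k s
      (by simp [hn])).1
  refine LU.crit V hV z hz ?_ (σ := Fin n) (fun i => MvPolynomial.X (some i)) ?_ (r := 1)
    (fun _ => algebraMap _ _ Q) ?_ k (fun _ => tanS V hV z hz pt v hpt) ?_ ?_ ?_ ?_
  · rw [← hgen]
    congr 1
    ext x
    constructor
    · rintro ⟨_ | i, rfl⟩
      · exact Set.mem_insert _ _
      · exact Set.mem_insert_of_mem _ ⟨i, rfl⟩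
    · rintro (rfl | ⟨i, rfl⟩)
      · exact ⟨none, rfl⟩
      · exact ⟨some i, rfl⟩
  · simpa [z] using hind
  · intro _
    rw [LU.evS_algebraMap]
    apply Subtype.ext
    rw [LU.coe_evV, hQ0]
    rfl
  · intro _ a ha
    exact fst_tanS V hV z hz pt v hpt a ha
  · intro i j hij
    exact absurd hij (by omega)
  · intro _
    rw [tanS_algebraMap, htanQ]
    exact hD
  · intro E _ φ hφ _ o
    rcases o with _ | i
    · refine algOver_of _ _ (Polynomial.C D * (1 + Polynomial.X) +
        Polynomial.X ^ 2 * ∑ j ∈ Ψ.support, Polynomial.C (N j) * Polynomial.X ^ j) ?_ ?_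
      · intro h
        have h1 := congrArg (fun P => Polynomial.coeff P 0) h
        simp only [Polynomial.coeff_zero_eq_eval_zero] at h1
        simp at h1
        exact hD (by rw [h1, map_zero])
      · have h1 := hφ 0
        have h2 : ∀ f : MvPolynomial (Fin n) k,
            MvPolynomial.aeval (fun i => (MvPolynomial.X (some i) :
              MvPolynomial (Option (Fin n)) k)) f = MvPolynomial.rename some f := by
          intro f
          have : (MvPolynomial.aeval (fun i => (MvPolynomial.X (some i) :
              MvPolynomial (Option (Fin n)) k))) = MvPolynomial.rename (R := k) some := by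
            apply MvPolynomial.algHom_ext
            intro i
            simp
          rw [this]
        have h3 : ∀ f : MvPolynomial (Fin n) k,
            ((φ.comp (algebraMap (MvPolynomial (Option (Fin n)) k) (LU.SS V hV z hz))).comp
              (MvPolynomial.aeval fun i => (MvPolynomial.X (some i) :
              MvPolynomial (Option (Fin n)) k)).toRingHom) f =
              φ (algebraMap _ _ (MvPolynomial.rename some f)) := by
          intro f
          rw [← h2]
          rfl
        simp only [Q, map_add, map_mul, map_sum, map_pow, map_one] at h1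
        simp only [Polynomial.eval₂_add, Polynomial.eval₂_mul, Polynomial.eval₂_C,
          Polynomial.eval₂_one, Polynomial.eval₂_X, Polynomial.eval₂_pow,
          Polynomial.eval₂_finsetSum, h3]
        exact h1
    · refine algOver_of _ _ (Polynomial.X - Polynomial.C (MvPolynomial.X i)) ?_ ?_
      · exact Polynomial.X_sub_C_ne_zero _
      · simp

end LUV
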