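import Pool.Agent.LUV.Defs
import Pool.Agent.LUV.ComplAlg

/-! Project LUV: (E1) the ambient field of a valuation. -/

set_option autoImplicit false

namespace LUV

open Polynomial

universe u

variable {k K : Type u} [Field k] [IsAlgClosed k] [Field K] [Algebra k K]

omit [IsAlgClosed k] [Algebra k K] in
/-- A rank one valuation is equivalent to a real absolute value. -/
private theorem exists_abs (V : ValuationSubring K) (harch : MulArchimedean V.ValueGroup) :
    ∃ f : AbsoluteValue K ℝ, (∀ x y, f x ≤ f y ↔ V.valuation x ≤ V.valuation y) ∧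
      ∀ x y, f (x + y) ≤ max (f x) (f y) := by
  classical
  have _ := harch
  obtain ⟨φ, hφ⟩ := Archimedean.exists_orderAddMonoidHom_real_injective
    (Additive (V.ValueGroup)ˣ)
  have hmono : StrictMono φ := φ.monotone'.strictMono_of_injective hφ
  have hv0 : ∀ {x : K}, x ≠ 0 → V.valuation x ≠ 0 := fun {x} hx => (_root_.map_ne_zero _).2 hx
  set F : K → ℝ := fun x => if h : x = 0 then 0 else
    Real.exp (φ (Additive.ofMul (Units.mk0 (V.valuation x) (hv0 h)))) with hF
  have F0 : F 0 = 0 := by simp [hF]
  have Fne : ∀ {x : K} (h : x ≠ 0), F x =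
      Real.exp (φ (Additive.ofMul (Units.mk0 (V.valuation x) (hv0 h)))) := by
    intro x h
    simp only [hF, dif_neg h]
  have Fpos : ∀ {x : K}, x ≠ 0 → 0 < F x := by
    intro x h
    rw [Fne h]
    exact Real.exp_pos _
  have Fle : ∀ x y, F x ≤ F y ↔ V.valuation x ≤ V.valuation y := by
    intro x y
    by_cases hx : x = 0
    · subst hx
      simp only [F0, map_zero, zero_le, iff_true]
      by_cases hy : y = 0
      · subst hy
        exact F0.ge
      · exact (Fpos hy).le
    · by_cases hy : y = 0
      · subst hy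
        constructor
        · intro h
          rw [F0] at h
          exact absurd (Fpos hx) (not_lt.2 h)
        · intro h
          rw [map_zero, le_zero_iff] at h
          exact absurd h (hv0 hx)
      · rw [Fne hx, Fne hy, Real.exp_le_exp, hmono.le_iff_le]
        exact Units.val_le_val.symm
  have Fmul : ∀ x y, F (x * y) = F x * F y := by
    intro x y
    by_cases hx : x = 0
    · subst hx
      rw [zero_mul, F0, zero_mul]
    · by_cases hy : y = 0
      · subst hy
        rw [mul_zero, F0, mul_zero]
      · rw [Fne hx, Fne hy, Fne (mul_ne_zero hx hy), ← Real.exp_add, ← map_add, ← ofMul_mul]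
        congr 3
        ext
        simp
  have Fadd : ∀ x y, F (x + y) ≤ max (F x) (F y) := by
    intro x y
    rcases le_total (V.valuation x) (V.valuation y) with h | h
    · refine le_trans ?_ (le_max_right _ _)
      rw [Fle]
      exact (V.valuation.map_add x y).trans (max_le h le_rfl)
    · refine le_trans ?_ (le_max_left _ _)
      rw [Fle]
      exact (V.valuation.map_add x y).trans (max_le le_rfl h)
  have Fnn : ∀ x, 0 ≤ F x := by
    intro x
    by_cases hx : x = 0
    · subst hx
      exact F0.ge
    · exact (Fpos hx).le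
  refine ⟨⟨⟨F, Fmul⟩, Fnn, ?_, ?_⟩, Fle, Fadd⟩
  · intro x
    constructor
    · intro h
      by_contra hx
      exact absurd h (Fpos hx).ne'
    · rintro rfl
      exact F0
  · intro x y
    exact (Fadd x y).trans (max_le (le_add_of_nonneg_right (Fnn y)) (le_add_of_nonneg_left (Fnn x)))

/-- The ambient field of a rank one valuation with residue field `k`. -/
theorem exists_omega (V : ValuationSubring K) (hV : ∀ c : k, algebraMap k K c ∈ V) (hne : V ≠ ⊤)
    (harch : MulArchimedean V.ValueGroup)
    (hres : ∀ x ∈ V, ∃ c : k, V.valuation (x - algebraMap k K c) < 1) :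
    ∃ (Ω : Type u) (_ : NormedField Ω) (_ : Algebra k Ω) (_ : Big k Ω) (ι : K →ₐ[k] Ω),
      ∀ x y : K, ‖ι x‖ ≤ ‖ι y‖ ↔ V.valuation x ≤ V.valuation y := by
  classical
  obtain ⟨f, hf, hadd⟩ := exists_abs V harch
  have hle1 : ∀ x, f x ≤ 1 ↔ x ∈ V := by
    intro x
    rw [← V.valuation_le_one_iff, ← map_one f, hf, map_one]
  have hlt1 : ∀ x, f x < 1 ↔ V.valuation x < 1 := by
    intro x
    rw [← not_le, ← not_le, ← map_one f, hf, map_one]
  have hnt : f.IsNontrivial := by
    have h : ∃ x, x ∉ V := by
      by_contra h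
      push Not at h
      exact hne (eq_top_iff.2 fun x _ => h x)
    obtain ⟨x, hx⟩ := h
    refine ⟨x, ?_, ?_⟩
    · rintro rfl
      exact hx (zero_mem V)
    · intro h1
      exact hx ((hle1 x).1 h1.le)
  obtain ⟨Ω, iN, j, hu, hc, hac, hj, hP⟩ := exists_complete_closure K f (fun x y => hadd x y) hnt
  let _ : Algebra k Ω := (j.comp (algebraMap k K)).toAlgebra
  have hal : ∀ c : k, algebraMap k Ω c = j (algebraMap k K c) := fun c => rfl
  have hk1 : ∀ c : k, c ≠ 0 → ‖algebraMap k Ω c‖ = 1 := by
    intro c hc0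
    rw [hal, hj]
    apply le_antisymm
    · exact (hle1 _).2 (hV c)
    · have h1 : f (algebraMap k K c⁻¹) ≤ 1 := (hle1 _).2 (hV c⁻¹)
      have h2 : f (algebraMap k K c) * f (algebraMap k K c⁻¹) = 1 := by
        rw [← map_mul, ← map_mul, mul_inv_cancel₀ hc0, map_one, map_one]
      calc (1 : ℝ) = f (algebraMap k K c) * f (algebraMap k K c⁻¹) := h2.symm
        _ ≤ f (algebraMap k K c) * 1 := mul_le_mul_of_nonneg_left h1 (f.nonneg _)
        _ = f (algebraMap k K c) := mul_one _
  have hr : ∀ x : Ω, ‖x‖ ≤ 1 → ∃ c : k, ‖x - algebraMap k Ω c‖ < 1 := by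
    intro x hx
    obtain ⟨P, hPm, hPc, hPx⟩ := hP x hx
    have hcoef : ∀ i, ∃ c : k, V.valuation (P.coeff i - algebraMap k K c) < 1 := fun i =>
      hres _ ((hle1 _).1 (hPc i))
    choose c hc1 using hcoef
    set n := P.natDegree with hn
    set Q : Polynomial k := X ^ n + ∑ i ∈ Finset.range n, C (c i) * X ^ i with hQ
    have hQm : Q.Monic := by
      apply monic_X_pow_add
      refine mem_degreeLT.1 (Submodule.sum_mem _ fun i hi => mem_degreeLT.2 ?_)
      exact lt_of_le_of_lt (degree_C_mul_X_pow_le _ _) (by exact_mod_cast Finset.mem_range.1 hi)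
    have hPe : P.eval₂ j x = x ^ n + ∑ i ∈ Finset.range n, j (P.coeff i) * x ^ i := by
      rw [eval₂_eq_sum_range, Finset.sum_range_succ, ← hn, hPm.coeff_natDegree, map_one, one_mul,
        add_comm]
    have hQe : (aeval x) Q = x ^ n + ∑ i ∈ Finset.range n, j (algebraMap k K (c i)) * x ^ i := by
      simp only [hQ, map_add, map_pow, aeval_X, map_sum, map_mul, aeval_C, hal]
    have hdiff : ‖(aeval x) Q - P.eval₂ j x‖ < 1 := by
      rw [hQe, hPe, add_sub_add_left_eq_sub, ← Finset.sum_sub_distrib]
      have hterm : ∀ i ∈ Finset.range n,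
          ‖j (algebraMap k K (c i)) * x ^ i - j (P.coeff i) * x ^ i‖ < 1 := by
        intro i _
        rw [← sub_mul, ← map_sub, norm_mul, hj, norm_pow]
        have h1 : f (algebraMap k K (c i) - P.coeff i) < 1 := by
          rw [← f.map_neg, neg_sub]
          exact (hlt1 _).2 (hc1 i)
        calc f (algebraMap k K (c i) - P.coeff i) * ‖x‖ ^ i ≤
            f (algebraMap k K (c i) - P.coeff i) * 1 :=
              mul_le_mul_of_nonneg_left (pow_le_one₀ (norm_nonneg _) hx) (f.nonneg _)
          _ < 1 := by rw [mul_one]; exact h1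
      rcases Nat.eq_zero_or_pos n with h0 | h0
      · rw [h0]
        simp
      · have hnon : (Finset.range n).Nonempty := ⟨0, Finset.mem_range.2 h0⟩
        obtain ⟨i, hi, hle⟩ := IsUltrametricDist.exists_norm_finsetSum_le_of_nonempty hnon
          (fun i => j (algebraMap k K (c i)) * x ^ i - j (P.coeff i) * x ^ i)
        exact lt_of_le_of_lt hle (hterm i hi)
    have hQx : ‖(aeval x) Q‖ < 1 := by
      have h1 : (aeval x) Q = ((aeval x) Q - P.eval₂ j x) + P.eval₂ j x := by ring
      rw [h1]
      exact lt_of_le_of_lt (IsUltrametricDist.norm_add_le_max _ _) (max_lt hdiff hPx)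
    by_contra hcon
    push Not at hcon
    have hsp := (IsAlgClosed.splits Q).eq_prod_roots_of_monic hQm
    have hge : 1 ≤ ‖(aeval x) Q‖ := by
      rw [hsp, map_multiset_prod, Multiset.map_map]
      generalize Q.roots = s
      induction s using Multiset.induction_on with
      | empty => simp
      | cons a s ih =>
        rw [Multiset.map_cons, Multiset.prod_cons, norm_mul]
        have h1 : 1 ≤ ‖((aeval x) ∘ fun a => X - C a) a‖ := by
          simp only [Function.comp_apply, map_sub, aeval_X, aeval_C]
          exact hcon a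
        exact one_le_mul_of_one_le_of_one_le h1 ih
    exact absurd hQx (not_lt.2 hge)
  refine ⟨Ω, iN, inferInstance, ⟨hu, hc, hac, hk1, hr⟩,
    { toRingHom := j, commutes' := fun c => rfl }, fun x y => ?_⟩
  change ‖j x‖ ≤ ‖j y‖ ↔ _
  rw [hj, hj]
  exact hf x y

end LUV
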