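import Pool.Agent.LUV.Basic
import Pool.Agent.LUV.Expn
import Pool.Agent.LUV.ExistsU
import Pool.Agent.LUV.ExistsGen
import Pool.Agent.LUV.Omega
import Pool.Agent.LUV.Slu
import Pool.Agent.LUV.HenselForm
import Pool.Agent.LUV.LuCrit

/-! Project LUV: (Main) assembly. -/

set_option autoImplicit false

namespace LUV

open Polynomial

universe u

variable {k K : Type u} [Field k] [IsAlgClosed k] [Field K] [Algebra k K]
  [Algebra.EssFiniteType k K]

section MainAux

omit [IsAlgClosed k] [Algebra.EssFiniteType k K] in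
/-- The value group of the trivial valuation ring. -/
theorem Main_ne_top (V : ValuationSubring K)
    (hr0 : 0 < Module.finrank ℤ (Additive (V.ValueGroup)ˣ)) : V ≠ ⊤ := by
  intro hV
  have hs : ∀ a : (V.ValueGroup)ˣ, a = 1 := by
    intro a
    obtain ⟨x, hx⟩ := V.valuation_surjective (a : V.ValueGroup)
    have h1 : V.valuation x ≤ 1 := by
      rw [V.valuation_le_one_iff, hV]
      exact ValuationSubring.mem_top x
    have h2 : V.valuation x⁻¹ ≤ 1 := by
      rw [V.valuation_le_one_iff, hV]
      exact ValuationSubring.mem_top _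
    rw [map_inv₀, hx] at h2
    rw [hx] at h1
    apply Units.ext
    refine le_antisymm h1 ?_
    rw [Units.val_one]
    exact (inv_le_one₀ (zero_lt_iff.2 a.ne_zero)).1 h2
  have : Subsingleton (V.ValueGroup)ˣ := ⟨fun a b => (hs a).trans (hs b).symm⟩
  have : Subsingleton (Additive (V.ValueGroup)ˣ) := this
  rw [Module.finrank_zero_of_subsingleton] at hr0
  exact lt_irrefl _ hr0

omit [IsAlgClosed k] in
/-- `K` is finite over a subfield over which it is algebraic. -/
theorem Main_fd (E : IntermediateField k K) (h : Algebra.IsAlgebraic E K) :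
    FiniteDimensional E K := by
  have : Algebra.EssFiniteType E K := Algebra.EssFiniteType.of_comp k E K
  obtain ⟨S, hS⟩ := IntermediateField.fg_top E K
  have : FiniteDimensional E (IntermediateField.adjoin E (S : Set K)) :=
    IntermediateField.finiteDimensional_adjoin fun x _ =>
      (Algebra.IsAlgebraic.isAlgebraic (R := E) x).isIntegral
  rw [hS] at this
  exact (IntermediateField.topEquiv (F := E) (E := K)).toLinearEquiv.finiteDimensional

open scoped IntermediateField.algebraAdjoinAdjoin in
omit [IsAlgClosed k] [Algebra.EssFiniteType k K] in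
/-- `u` and `t` are algebraically independent. -/
theorem Main_indep {r : ℕ} (hn : Algebra.trdeg k K = (r + 1 : ℕ)) (u : Fin r → K) (t : K)
    (halg : Algebra.IsAlgebraic (IntermediateField.adjoin k (insert t (Set.range u))) K) :
    AlgebraicIndependent k (fun o : Option (Fin r) => o.elim t u) := by
  have hrange : Set.range (fun o : Option (Fin r) => o.elim t u) = insert t (Set.range u) := by
    ext z
    constructor
    · rintro ⟨o, rfl⟩
      cases o with
      | none => exact Set.mem_insert _ _
      | some i => exact Set.mem_insert_of_mem _ ⟨i, rfl⟩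
    · rintro (rfl | ⟨i, rfl⟩)
      · exact ⟨none, rfl⟩
      · exact ⟨some i, rfl⟩
  have h1 : Algebra.IsAlgebraic
      (Algebra.adjoin k (Set.range fun o : Option (Fin r) => o.elim t u)) K := by
    rw [hrange]
    exact (IsFractionRing.comap_isAlgebraic_iff
      (A := Algebra.adjoin k (insert t (Set.range u)))
      (K := IntermediateField.adjoin k (insert t (Set.range u))) (C := K)).2 halg
  refine (Algebra.IsAlgebraic.isTranscendenceBasis_of_lift_le_trdeg_of_finite k
    (fun o : Option (Fin r) => o.elim t u) ?_).1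
  rw [hn]
  simp

omit [IsAlgClosed k] [Algebra.EssFiniteType k K] in
/-- Nonzero elements of `k[u^(±1)][X]` do not vanish at `t`. -/
theorem Main_ev_ne {Ω : Type*} [NormedField Ω] [Algebra k Ω] (ι : K →ₐ[k] Ω) {r : ℕ}
    (u : Fin r → K) (t : K) (hu : ∀ i, ι (u i) ≠ 0)
    (hind : AlgebraicIndependent k (fun o : Option (Fin r) => o.elim t u)) (P : A k r)
    (hP : P ≠ 0) : ev hu (ι t) P ≠ 0 := by
  classical
  intro h0
  -- a common denominator
  obtain ⟨N, hN⟩ : ∃ N : ℤ, ∀ q ∈ P.coeff.support, ∀ i, 0 ≤ q.1 i + N := by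
    refine ⟨∑ q ∈ P.coeff.support, ∑ i, |q.1 i|, fun q hq i => ?_⟩
    have h1 : |q.1 i| ≤ ∑ i, |q.1 i| :=
      Finset.single_le_sum (f := fun i => |q.1 i|) (fun j _ => abs_nonneg _) (Finset.mem_univ i)
    have h2 : ∑ i, |q.1 i| ≤ ∑ q ∈ P.coeff.support, ∑ i, |q.1 i| :=
      Finset.single_le_sum (f := fun q : Ex r => ∑ i, |q.1 i|)
        (fun j _ => Finset.sum_nonneg fun i _ => abs_nonneg _) hq
    have h3 := neg_abs_le (q.1 i)
    linarith
  let e : Ex r → (Option (Fin r) →₀ ℕ) := fun q =>
    Finsupp.equivFunOnFinite.symm (fun o => o.elim q.2 fun i => (q.1 i + N).toNat)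
  have he : ∀ (q : Ex r) (o : Option (Fin r)), e q o = o.elim q.2 fun i => (q.1 i + N).toNat :=
    fun q o => rfl
  have hinj : ∀ q ∈ P.coeff.support, ∀ q' ∈ P.coeff.support, e q = e q' → q = q' := by
    intro q hq q' hq' h
    apply Prod.ext
    · funext i
      have h1 : (q.1 i + N).toNat = (q'.1 i + N).toNat := by
        have := DFunLike.congr_fun h (some i)
        rw [he, he] at this
        exact this
      have h2 := Int.toNat_of_nonneg (hN q hq i)
      have h3 := Int.toNat_of_nonneg (hN q' hq' i)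
      rw [h1, h3] at h2
      linarith
    · have := DFunLike.congr_fun h none
      rw [he, he] at this
      exact this
  let Q : MvPolynomial (Option (Fin r)) k :=
    ∑ q ∈ P.coeff.support, MvPolynomial.monomial (e q) (P.coeff q)
  have hQ : ι (MvPolynomial.aeval (fun o : Option (Fin r) => o.elim t u) Q) =
      mon (fun i => ι (u i)) (fun _ => N) * ev hu (ι t) P := by
    rw [ev_eq_sum, map_sum, map_sum, Finset.mul_sum]
    refine Finset.sum_congr rfl fun q hq => ?_
    rw [MvPolynomial.aeval_monomial, map_mul, AlgHom.commutes, Finsupp.prod_fintype _ _ (by simp),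
      Fintype.prod_option, map_mul, map_prod]
    have h1 : ∏ i, ι ((some i : Option (Fin r)).elim t u ^ e q (some i)) =
        mon (fun i => ι (u i)) (fun _ => N) * mon (fun i => ι (u i)) q.1 := by
      rw [← mon_add hu, mon]
      refine Finset.prod_congr rfl fun i _ => ?_
      have h2 : e q (some i) = (q.1 i + N).toNat := rfl
      have h3 : (((q.1 i + N).toNat : ℕ) : ℤ) = N + q.1 i := by
        rw [Int.toNat_of_nonneg (hN q hq i)]; ring
      rw [h2, Pi.add_apply, ← h3, zpow_natCast, map_pow]
      rfl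
    have h4 : ι ((none : Option (Fin r)).elim t u ^ e q none) = ι t ^ q.2 := by
      rw [map_pow]
      rfl
    rw [h1, h4]
    ring
  rw [h0, mul_zero] at hQ
  have hQ0 : Q = 0 := by
    have h1 : MvPolynomial.aeval (fun o : Option (Fin r) => o.elim t u) Q = 0 :=
      (map_eq_zero ι).1 hQ
    exact (injective_iff_map_eq_zero _).1 hind Q h1
  apply hP
  have hsupp : P.coeff.support = ∅ := by
    rw [Finset.eq_empty_iff_forall_notMem]
    intro q hq
    have h1 : MvPolynomial.coeff (e q) Q = P.coeff q := by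
      change MvPolynomial.coeff (e q)
        (∑ q' ∈ P.coeff.support, MvPolynomial.monomial (e q') (P.coeff q')) = _
      rw [MvPolynomial.coeff_sum, Finset.sum_eq_single q]
      · rw [MvPolynomial.coeff_monomial, if_pos rfl]
      · intro q' hq' hne
        rw [MvPolynomial.coeff_monomial, if_neg]
        intro h
        exact hne (hinj q' hq' q hq h)
      · intro h
        exact absurd hq h
    rw [hQ0, MvPolynomial.coeff_zero] at h1
    exact (Finsupp.mem_support_iff.1 hq) h1.symm
  have h2 : P.coeff = 0 := Finsupp.support_eq_empty.1 hsupp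
  ext q
  rw [h2]
  rfl

end MainAux

/-- A basis of the value group. -/
theorem exists_basis (V : ValuationSubring K) {Ω : Type*} [NormedField Ω] [Algebra k Ω] [Big k Ω]
    (ι : K →ₐ[k] Ω) (hι : ∀ x y : K, ‖ι x‖ ≤ ‖ι y‖ ↔ V.valuation x ≤ V.valuation y) (r : ℕ)
    (hfg : Group.FG (V.ValueGroup)ˣ) (hr : Module.finrank ℤ (Additive (V.ValueGroup)ˣ) = r) :
    ∃ y : Fin r → K, (Base fun i => ι (y i)) ∧
      ∀ z : K, z ≠ 0 → ∃ g : G r, ‖ι z‖ = ‖mon (fun i => ι (y i)) g‖ := by
  classical
  have htf : IsMulTorsionFree (V.ValueGroup)ˣ := by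
    constructor
    intro n hn a b hab
    apply Units.ext
    have h1 : (a : V.ValueGroup) ^ n = (b : V.ValueGroup) ^ n := by
      have := congrArg Units.val hab
      simpa using this
    exact IsMulTorsionFree.pow_left_injective hn h1
  have hfin : Module.Finite ℤ (Additive (V.ValueGroup)ˣ) :=
    Module.Finite.iff_addGroup_fg.2 (GroupFG.iff_add_fg.1 hfg)
  have hfree : Module.Free ℤ (Additive (V.ValueGroup)ˣ) := inferInstance
  let b := Module.finBasisOfFinrankEq ℤ (Additive (V.ValueGroup)ˣ) hr
  choose y hy using fun i : Fin r => V.valuation_surjective (((b i).toMul : (V.ValueGroup)ˣ) :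
    V.ValueGroup)
  have hy0 : ∀ i, y i ≠ 0 := by
    intro i h
    have h1 := hy i
    rw [h, map_zero] at h1
    exact (Units.ne_zero _) h1.symm
  have hval : ∀ g : G r, V.valuation (∏ i, y i ^ g i) =
      (((∑ i, g i • b i : Additive (V.ValueGroup)ˣ).toMul : (V.ValueGroup)ˣ) : V.ValueGroup) := by
    intro g
    rw [map_prod, toMul_sum, Units.coe_prod]
    refine Finset.prod_congr rfl fun i _ => ?_
    rw [map_zpow₀, hy i, toMul_zsmul, Units.val_zpow_eq_zpow_val]
  have hmon : ∀ g : G r, mon (fun i => ι (y i)) g = ι (∏ i, y i ^ g i) := by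
    intro g
    rw [map_prod, mon]
    exact Finset.prod_congr rfl fun i _ => (map_zpow₀ ι _ _).symm
  have heq : ∀ x z : K, ‖ι x‖ = ‖ι z‖ ↔ V.valuation x = V.valuation z := by
    intro x z
    constructor
    · intro h
      exact le_antisymm ((hι _ _).1 h.le) ((hι _ _).1 h.ge)
    · intro h
      exact le_antisymm ((hι _ _).2 h.le) ((hι _ _).2 h.ge)
  have hne : ∀ i, ι (y i) ≠ 0 := fun i => (map_ne_zero ι).2 (hy0 i)
  refine ⟨y, ⟨hne, ?_⟩, ?_⟩
  · intro a a' h
    have h1 : ‖mon (fun i => ι (y i)) a‖ = ‖mon (fun i => ι (y i)) a'‖ := by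
      rw [norm_mon hne, norm_mon hne, h]
    rw [hmon, hmon, heq, hval, hval] at h1
    have h2 : (∑ i, a i • b i : Additive (V.ValueGroup)ˣ) = ∑ i, a' i • b i := Units.ext h1
    have h3 : b.equivFun.symm a = b.equivFun.symm a' := by
      rw [Module.Basis.equivFun_symm_apply, Module.Basis.equivFun_symm_apply, h2]
    exact b.equivFun.symm.injective h3
  · intro z hz
    have hz0 : V.valuation z ≠ 0 := (Valuation.ne_zero_iff _).2 hz
    refine ⟨b.equivFun (Additive.ofMul (Units.mk0 _ hz0)), ?_⟩
    rw [hmon, heq, hval, Module.Basis.sum_equivFun]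
    rfl

/-- Local uniformization: rank one, finitely generated value group of rank `n - 1`. -/
theorem luv_main (p : ℕ) [Fact p.Prime] [CharP k p] (V : ValuationSubring K)
    (hV : ∀ c : k, algebraMap k K c ∈ V) (harch : MulArchimedean V.ValueGroup)
    (hres : ∀ x ∈ V, ∃ c : k, V.valuation (x - algebraMap k K c) < 1)
    (hfg : Group.FG (V.ValueGroup)ˣ)
    (hr : Algebra.trdeg k K = (Module.finrank ℤ (Additive (V.ValueGroup)ˣ) + 1 : ℕ))
    (hr0 : 0 < Module.finrank ℤ (Additive (V.ValueGroup)ˣ)) :
    LU.Uniformizable k V := by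
  classical
  obtain ⟨Ω, _, _, _, ι, hι⟩ := exists_omega V hV (Main_ne_top V hr0) harch hres
  obtain ⟨y0, hy0, hyI⟩ := exists_basis (k := k) V ι hι _ hfg rfl
  obtain ⟨u, x0, hnorm, hu, hsep⟩ := exists_u p ι hr0 hr y0 hy0
  have hmon : ∀ g, ‖mon (fun i => ι (u i)) g‖ = ‖mon (fun i => ι (y0 i)) g‖ := by
    intro g
    simp only [mon, norm_prod, norm_zpow, hnorm]
  have hI : ∀ z : K, z ≠ 0 → ∃ g, ‖ι z‖ = ‖mon (fun i => ι (u i)) g‖ := by
    intro z hz
    obtain ⟨g, hg⟩ := hyI z hz
    exact ⟨g, hg.trans (hmon g).symm⟩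
  obtain ⟨t, hsept, hgen⟩ := exists_gen p ι hr0 hr u hu hI x0 hsep
  have halg : Algebra.IsAlgebraic (IntermediateField.adjoin k (insert t (Set.range u))) K :=
    inferInstance
  have hfd := Main_fd (IntermediateField.adjoin k (insert t (Set.range u))) halg
  have hind := Main_indep hr u t halg
  have hev : ∀ P : A k _, P ≠ 0 → ev hu.ne (ι t) P ≠ 0 := Main_ev_ne ι u t hu.ne hind
  -- the expansion of `t`
  have hImm : Imm (fun i => ι (u i)) (cl k (Set.range ι)) := by
    intro w hw hw0
    obtain ⟨z, hz, hzw⟩ := mem_cl_iff.1 hw ‖w‖ (norm_pos_iff.2 hw0)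
    have hz' : z ∈ ι.fieldRange := by
      have h : IntermediateField.adjoin k (Set.range ι) ≤ ι.fieldRange :=
        IntermediateField.adjoin_le_iff.2 fun a ha => ha
      exact h hz
    obtain ⟨a, rfl⟩ := hz'
    have h1 : ‖ι a‖ = ‖w‖ := Big.norm_eq k (by rw [norm_sub_rev]; exact hzw)
    have ha : a ≠ 0 := by
      rintro rfl
      rw [map_zero, norm_zero] at h1
      exact hw0 (norm_eq_zero.1 h1.symm)
    obtain ⟨g, hg⟩ := hI a ha
    exact ⟨g, h1.symm.trans hg⟩
  obtain ⟨c, g, hexp⟩ := exists_expn hu (L := cl k (Set.range ι)) (t := ι t)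
    (fun i => subset_cl _ ⟨u i, rfl⟩) hImm (subset_cl _ ⟨t, rfl⟩) (by
      intro P hP h
      have h1 : ev hu.ne (ι t) P = ev hu.ne 0 P := by
        rw [ev_eq_sum, ev_eq_sum]
        refine Finset.sum_congr rfl fun q hq => ?_
        rw [hP q hq, pow_zero, pow_zero]
      refine hev (P - mono 0 1 1) ?_ ?_
      · intro h2
        have h3 : P = mono 0 1 1 := sub_eq_zero.1 h2
        have h4 : ((0, 1) : Ex _) ∈ P.coeff.support := by
          rw [h3, mono]
          simp
        have h5 := hP _ h4
        exact one_ne_zero h5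
      · rw [map_sub, h1, h, ev_mono, mon_zero]
        simp)
  -- the equation in Hensel form
  obtain ⟨y, Ψ, hy1, hΨE, hΨ1, heq, hgenE⟩ := hensel_form ι
    (IntermediateField.adjoin k (insert t (Set.range u))) (by
      intro z ε hε
      obtain ⟨w, hw, hwz⟩ := mem_cl_iff.1 (hgen z) ε hε
      have himg : insert (ι t) (Set.range fun i => ι (u i)) = ι '' (insert t (Set.range u)) := by
        rw [Set.image_insert_eq, ← Set.range_comp]
        rfl
      rw [himg, ← IntermediateField.adjoin_map] at hw
      obtain ⟨e, he, rfl⟩ := hw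
      exact ⟨e, he, hwz⟩)
  -- local uniformization of `k(u,t)`
  obtain ⟨s, hs1, hsE, hsZ⟩ := slu ι u hu t hexp hev
    (insert 0 ((Finset.range (Ψ.natDegree + 1)).image Ψ.coeff)) (by
      intro z hz
      rcases Finset.mem_insert.1 hz with rfl | hz
      · refine ⟨zero_mem _, ?_⟩
        rw [map_zero, norm_zero]
        exact zero_le_one
      · obtain ⟨j, _, rfl⟩ := Finset.mem_image.1 hz
        exact ⟨hΨE j, (hΨ1 j).le⟩)
  have hlt : ∀ x z : K, ‖ι x‖ < ‖ι z‖ ↔ V.valuation x < V.valuation z := by
    intro x z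
    rw [← not_le, ← not_le, hι]
  have hlt1 : ∀ x : K, ‖ι x‖ < 1 → V.valuation x < 1 := by
    intro x hx
    rw [← V.valuation.map_one, ← hlt, map_one, norm_one]
    exact hx
  refine lu_crit V hV _ hr s (fun i => hlt1 _ (hs1 i)) y (hlt1 _ hy1) ?_ ?_ Ψ ?_
    (fun j => hlt1 _ (hΨ1 j)) heq
  · have h1 : IntermediateField.adjoin k (insert y (Set.range s)) =
        (IntermediateField.adjoin (IntermediateField.adjoin k (insert t (Set.range u)))
          {y}).restrictScalars k := by
      rw [IntermediateField.adjoin_adjoin_left, Set.union_comm, IntermediateField.adjoin_union,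
        Set.insert_eq, IntermediateField.adjoin_union, hsE]
    rw [h1, hgenE]
    rfl
  · rw [hsE]
    exact halg
  · intro j
    refine hsZ _ ?_
    by_cases hj : j ≤ Ψ.natDegree
    · refine Finset.mem_insert_of_mem (Finset.mem_image.2 ⟨j, ?_, rfl⟩)
      rw [Finset.mem_range]
      omega
    · rw [Polynomial.coeff_eq_zero_of_natDegree_lt (not_le.1 hj)]
      exact Finset.mem_insert_self _ _

end LUV
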