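import Pool.Agent.LUV.Main
import Pool.Agent.LUV.SluMon
import Pool.Agent.helper90.LX.SUDense

/-! Project LUV: strong local uniformization (with monomialization of a finite set). -/

set_option autoImplicit false

namespace LUV

open Polynomial

universe u

variable {k K : Type u} [Field k] [IsAlgClosed k] [Field K] [Algebra k K]
  [Algebra.EssFiniteType k K]

/-- Strong local uniformization: rank one, finitely generated value group of rank `n - 1`. -/
theorem luv_strong (p : ℕ) [Fact p.Prime] [CharP k p] (V : ValuationSubring K)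
    (hV : ∀ c : k, algebraMap k K c ∈ V) (harch : MulArchimedean V.ValueGroup)
    (hres : ∀ x ∈ V, ∃ c : k, V.valuation (x - algebraMap k K c) < 1)
    (hfg : Group.FG (V.ValueGroup)ˣ)
    (hr : Algebra.trdeg k K = (Module.finrank ℤ (Additive (V.ValueGroup)ˣ) + 1 : ℕ))
    (hr0 : 0 < Module.finrank ℤ (Additive (V.ValueGroup)ˣ)) :
    LX.StrongUnif k V := by
  classical
  obtain ⟨Ω, _, _, _, ι, hι⟩ := exists_omega V hV (Main_ne_top V hr0) harch hres
  obtain ⟨y0, hy0, hyI⟩ := exists_basis (k := k) V ι hι _ hfg rfl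
  obtain ⟨u, x0, hnorm, hu, hsep⟩ := exists_u p ι hr0 hr y0 hy0
  have hmon : ∀ g, ‖mon (fun i => ι (u i)) g‖ = ‖mon (fun i => ι (y0 i)) g‖ := by
    intro g
    simp only [mon, norm_prod, norm_zpow, hnorm]
  have hI : ∀ z : K, z ≠ 0 → ∃ g, ‖ι z‖ = ‖mon (fun i => ι (u i)) g‖ := by
    intro z hz
    obtain ⟨g, hg⟩ := hyI z hz
    exact ⟨g, hg.trans (hmon g).symm⟩
  obtain ⟨t, hsept, hgen⟩ := exists_gen p ι hr0 hr u hu hI x0 hsep
  have halg : Algebra.IsAlgebraic (IntermediateField.adjoin k (insert t (Set.range u))) K :=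
    inferInstance
  have hfd := Main_fd (IntermediateField.adjoin k (insert t (Set.range u))) halg
  have hind := Main_indep hr u t halg
  have hev : ∀ P : A k _, P ≠ 0 → ev hu.ne (ι t) P ≠ 0 := Main_ev_ne ι u t hu.ne hind
  -- the expansion of `t`
  have hImm : Imm (fun i => ι (u i)) (cl k (Set.range ι)) := by
    intro w hw hw0
    obtain ⟨z, hz, hzw⟩ := mem_cl_iff.1 hw ‖w‖ (norm_pos_iff.2 hw0)
    have hz' : z ∈ ι.fieldRange := by
      have h : IntermediateField.adjoin k (Set.range ι) ≤ ι.fieldRange :=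
        IntermediateField.adjoin_le_iff.2 fun a ha => ha
      exact h hz
    obtain ⟨a, rfl⟩ := hz'
    have h1 : ‖ι a‖ = ‖w‖ := Big.norm_eq k (by rw [norm_sub_rev]; exact hzw)
    have ha : a ≠ 0 := by
      rintro rfl
      rw [map_zero, norm_zero] at h1
      exact hw0 (norm_eq_zero.1 h1.symm)
    obtain ⟨g, hg⟩ := hI a ha
    exact ⟨g, h1.symm.trans hg⟩
  obtain ⟨c, g, hexp⟩ := exists_expn hu (L := cl k (Set.range ι)) (t := ι t)
    (fun i => subset_cl _ ⟨u i, rfl⟩) hImm (subset_cl _ ⟨t, rfl⟩) (by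
      intro P hP h
      have h1 : ev hu.ne (ι t) P = ev hu.ne 0 P := by
        rw [ev_eq_sum, ev_eq_sum]
        refine Finset.sum_congr rfl fun q hq => ?_
        rw [hP q hq, pow_zero, pow_zero]
      refine hev (P - mono 0 1 1) ?_ ?_
      · intro h2
        have h3 : P = mono 0 1 1 := sub_eq_zero.1 h2
        have h4 : ((0, 1) : Ex _) ∈ P.coeff.support := by
          rw [h3, mono]
          simp
        have h5 := hP _ h4
        exact one_ne_zero h5
      · rw [map_sub, h1, h, ev_mono, mon_zero]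
        simp)
  have hlt : ∀ x z : K, ‖ι x‖ < ‖ι z‖ ↔ V.valuation x < V.valuation z := by
    intro x z
    rw [← not_le, ← not_le, hι]
  have hlt1 : ∀ x : K, ‖ι x‖ < 1 → V.valuation x < 1 := by
    intro x hx
    rw [← V.valuation.map_one, ← hlt, map_one, norm_one]
    exact hx
  refine LX.strong_of_dense V hV _ hr (IntermediateField.adjoin k (insert t (Set.range u)))
    inferInstance ?_ harch ?_ ?_
  · -- nontrivial
    let i0 : Fin (Module.finrank ℤ (Additive (V.ValueGroup)ˣ)) := ⟨0, hr0⟩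
    have hne : ‖ι (u i0)‖ ≠ 1 := by
      intro h1
      have h2 : wt (fun i => ι (u i)) (Pi.single i0 1) = wt (fun i => ι (u i)) 0 := by
        have h3 : ‖mon (fun i => ι (u i)) (Pi.single i0 1)‖ = ‖mon (fun i => ι (u i)) 0‖ := by
          rw [mon_zero, norm_one, mon, Finset.prod_eq_single i0]
          · simpa using h1
          · intro j _ hj
            simp [hj]
          · simp
        rw [norm_mon hu.ne, norm_mon hu.ne, Real.exp_eq_exp, neg_inj] at h3
        exact h3
      have h3 := hu.inj h2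
      have h4 := congrFun h3 i0
      simp at h4
    have hu0 : u i0 ≠ 0 := fun h => hu.ne i0 (by rw [h, map_zero])
    rcases lt_or_gt_of_ne hne with h | h
    · exact ⟨u i0, hu0, hlt1 _ h⟩
    · refine ⟨(u i0)⁻¹, inv_ne_zero hu0, hlt1 _ ?_⟩
      rw [map_inv₀, norm_inv]
      exact inv_lt_one_of_one_lt₀ h
  · -- density
    intro z w hw
    have hw' : 0 < ‖ι w‖ := norm_pos_iff.2 ((map_ne_zero ι).2 hw)
    obtain ⟨x, hx, hxz⟩ := mem_cl_iff.1 (hgen z) ‖ι w‖ hw'
    have himg : insert (ι t) (Set.range fun i => ι (u i)) = ι '' (insert t (Set.range u)) := by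
      rw [Set.image_insert_eq, ← Set.range_comp]
      rfl
    rw [himg, ← IntermediateField.adjoin_map] at hx
    obtain ⟨e, he, rfl⟩ := hx
    refine ⟨e, he, (hlt _ _).1 ?_⟩
    rw [map_sub]
    exact hxz
  · -- monomialization
    intro Z hZ
    obtain ⟨s, hs1, hsE, hsZ⟩ := slu_mon ι u hu t hexp hev Z hZ
    refine ⟨s, fun i => ⟨(hs1 i).1, hlt1 _ (hs1 i).2⟩, hsE, fun z hz => ?_⟩
    obtain ⟨a, N, D, h1, h2, h3, h4⟩ := hsZ z hz
    refine ⟨a, N, D, h1, h2, h3, fun h5 => h4 ?_⟩
    have h6 := (hι z 1).2 (by rw [map_one]; exact h5)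
    rwa [map_one, norm_one] at h6

end LUV
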